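import Pool.Agent.Helper491_Inf.Supply
import Pool.Agent.Helper491_Par.Sw

/-!
# The subspaces with trivial stabiliser can be partitioned into spreads
-/

set_option autoImplicit false
set_option linter.unusedSectionVars false

namespace Pool.Agent.Helper491_Inf

open Module Finset Pool.Agent.Helper491_Par Pool.Agent.Helper491_Par.Equi Classical

open scoped LinearAlgebra.Projectivization

section

variable {F L : Type} [Field F] [Fintype F] [Field L] [Fintype L] [Algebra F L] {k M : ℕ}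

theorem good_of_dvd {M' : ℕ} (h : M' ∣ M) {W : Submodule F L} (hW : good M' W) : good M W := by
  intro x hx y hy hx0 hy0 hxy
  apply hW x hx y hy hx0 hy0
  rw [← red_cl h, ← red_cl h, hxy]

theorem good_of_blk {M' : ℕ} (h : M' ∣ M) {W : Submodule F L} (hW : good M W)
    {T : Finset (ZMod M)} (hT : ty M W = (T : Set (ZMod M)))
    (hinj : Set.InjOn (red h : ZMod M → ZMod M') (T : Set (ZMod M))) : good M' W := by
  intro x hx y hy hx0 hy0 hxy
  apply hW x hx y hy hx0 hy0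
  apply hinj
  · rw [← hT]; exact ⟨x, hx, hx0, rfl⟩
  · rw [← hT]; exact ⟨y, hy, hy0, rfl⟩
  · rw [red_cl, red_cl, hxy]

theorem good_top (hN : M * (Fintype.card F - 1) = Fintype.card L - 1) (W : Submodule F L) :
    good M W := by
  intro x hx y hy hx0 hy0 hxy
  have hM : M ∣ Fintype.card L - 1 := Dvd.intro _ hN
  have h1 : cl M (y / x) = 0 := by rw [cl_div hM hy0 hx0, hxy, sub_self]
  rw [cl_eq_zero] at h1
  obtain ⟨c, hc⟩ := h1
  have hz0 : y / x ≠ 0 := div_ne_zero hy0 hx0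
  have h2 : (y / x) ^ (Fintype.card F - 1) = 1 := by
    conv_lhs => rw [← dl_spec hz0]
    rw [← pow_mul, hc]
    have h3 : M * c * (Fintype.card F - 1) = (Fintype.card L - 1) * c := by rw [← hN]; ring
    rw [h3, pow_mul]
    have h4 : ((gen L : Lˣ) : L) ^ (Fintype.card L - 1) = 1 := by
      rw [← orderOf_gen, ← Units.val_pow_eq_pow_val, pow_orderOf_eq_one, Units.val_one]
    rw [h4, one_pow]
  have h3 : (y / x) ^ Fintype.card F = y / x := by
    have h4 : Fintype.card F = (Fintype.card F - 1) + 1 := by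
      have : 0 < Fintype.card F := Fintype.card_pos
      omega
    rw [h4, pow_succ, h2, one_mul]
  obtain ⟨l, hl⟩ := Sw.mem_of_pow (F := F) h3
  refine ⟨l, ?_⟩
  rw [Algebra.smul_def, ← hl, div_mul_cancel₀ _ hx0]

end

theorem part_card_le {X B : Type} [Fintype X] {π : X → B} {m : ℕ} (hm : 0 < m) {Y : Finset X}
    {P : Finset (Finset X)} (hP : Cone.Part π m Y P) : P.card ≤ Fintype.card X := by
  have h1 : P.card ≤ ∑ T ∈ P, T.card := by
    rw [card_eq_sum_ones]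
    refine sum_le_sum fun T hT => ?_
    rw [(hP.1 T hT).1.1]
    exact hm
  rw [← card_biUnion] at h1
  · exact h1.trans (card_le_univ _)
  · intro T hT T' hT' hne
    show Disjoint T T'
    rw [disjoint_left]
    intro x hx hx'
    obtain ⟨T0, -, hu⟩ := hP.2 x ((hP.1 T hT).2 hx)
    exact hne ((hu T ⟨hT, hx⟩).trans (hu T' ⟨hT', hx'⟩).symm)

theorem near {Mm bb b Qk s K x z δ ε : ℝ} (hMm : 0 < Mm) (hbb : 0 < bb) (hb : 0 < b) (hQk : 0 < Qk)
    (hs : 0 < s) (h : |Mm * (bb * x) - b * Qk| ≤ b * (K * (Qk / s))) (hz1 : z ≤ x)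
    (hz2 : x ≤ z + δ) (hK : K / s ≤ ε / 3) (hδ : δ ≤ 2 * ε / 3 * (b * Qk / (Mm * bb))) :
    |z - b * Qk / (Mm * bb)| ≤ ε * (b * Qk / (Mm * bb)) := by
  set R := b * Qk / (Mm * bb) with hR
  have hR0 : 0 < R := by positivity
  have h1 : |x - R| ≤ ε / 3 * R := by
    have e1 : x - R = (Mm * (bb * x) - b * Qk) / (Mm * bb) := by
      rw [hR]; field_simp
    rw [e1, abs_div, abs_of_pos (show 0 < Mm * bb by positivity), div_le_iff₀ (by positivity)]
    refine h.trans ?_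
    have e2 : ε / 3 * R * (Mm * bb) = ε / 3 * (b * Qk) := by
      rw [hR]; field_simp
    rw [e2]
    have e3 : b * (K * (Qk / s)) = K / s * (b * Qk) := by ring
    rw [e3]
    exact mul_le_mul_of_nonneg_right hK (by positivity)
  rw [abs_le] at h1 ⊢
  constructor
  · nlinarith [h1.1]
  · nlinarith [h1.2, h1.1]

theorem noninj_pos {m M0 : ℕ} (hm : 2 ≤ m) (hM0 : 0 < M0) :
    0 < {τ : Fin m → ZMod M0 | ¬ Function.Injective τ}.ncard := by
  have : NeZero M0 := ⟨hM0.ne'⟩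
  rw [Set.ncard_pos (Set.toFinite _)]
  refine ⟨fun _ => 0, fun h => ?_⟩
  have h1 : (⟨0, by omega⟩ : Fin m) = ⟨1, by omega⟩ := h rfl
  have := congrArg Fin.val h1
  simp at this

/-- The supply of orbits of a given type. -/
theorem supply_ge {q k m M0 : ℕ} {C : ℝ} (hk : 2 ≤ k)
    (hC : ∀ (M k : ℕ) (F L : Type) [Field F] [Fintype F] [Field L]
      [Fintype L] [Algebra F L], M * (Fintype.card F - 1) ∣ Fintype.card L - 1 →
      Nat.card (ℙ F (Fin k → F)) = m → ∀ T : Finset (ZMod M), T.card = m →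
      |(M : ℝ) ^ m * (BB F k * {W : Submodule F L | finrank F W = k ∧ good M W ∧
        ty M W = (T : Set (ZMod M))}.ncard) - m.factorial * (Fintype.card L : ℝ) ^ k| ≤
        m.factorial * (C * (M : ℝ) ^ (m + 5) *
          ((Fintype.card L : ℝ) ^ k / Real.sqrt (Fintype.card L))))
    {F L : Type} [Field F] [Fintype F] [Field L] [Fintype L] [Algebra F L]
    (hq : Fintype.card F = q) (hm : Nat.card (ℙ F (Fin k → F)) = m) {μ : ℕ}
    (hμ : μ * (Fintype.card F - 1) ∣ Fintype.card L - 1) (hd : M0 ∣ μ)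
    (h1 : 2 * C * (μ : ℝ) ^ (m + 5) ≤ Real.sqrt (Fintype.card L))
    (h2 : 4 * (q : ℝ) ^ (2 * k) * (μ : ℝ) ^ m ≤ Fintype.card L)
    {T : Finset (ZMod μ)} (hT : Cone.Blk (red hd : ZMod μ → ZMod M0) m T) :
    (Fintype.card L : ℝ) ^ (k - 1) / (4 * BB F k) ≤ (μ : ℝ) ^ m *
      ({O : Set (Submodule F L) | ∃ E ∈ {W : Submodule F L | finrank F W = k ∧ triv W ∧ good M0 W},
        good μ E ∧ ty μ E = (T : Set (ZMod μ)) ∧ O = OrbG E}.ncard : ℝ) := by
  have hμd : μ ∣ Fintype.card L - 1 := (Dvd.intro _ rfl).trans hμ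
  have hμ0 : 0 < μ := pos_of_dvd hμd
  set Q : ℝ := (Fintype.card L : ℝ) with hQ
  have hQ0 : 0 < Q := by rw [hQ]; exact_mod_cast Fintype.card_pos
  have hBB : 0 < (BB F k : ℝ) := by
    have hq1 : 1 < Fintype.card F := Fintype.one_lt_card
    have : BB F k ≠ 0 := by
      unfold BB
      rw [Finset.prod_ne_zero_iff]
      intro i _
      have := Nat.pow_lt_pow_right hq1 i.2
      omega
    exact_mod_cast Nat.pos_of_ne_zero this
  obtain ⟨k', rfl⟩ : ∃ k', k = k' + 1 := ⟨k - 1, by omega⟩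
  simp only [Nat.add_sub_cancel]
  set X : Set (Submodule F L) := {W : Submodule F L | finrank F W = k' + 1 ∧ good μ W ∧
        ty μ W = (T : Set (ZMod μ))} with hX
  set Z : Set (Submodule F L) := {W : Submodule F L | W ∈ X ∧ triv W} with hZ
  set NT : Set (Submodule F L) := {W : Submodule F L | finrank F W = k' + 1 ∧ ¬ triv W} with hNT
  have hXZ : X.ncard ≤ Z.ncard + NT.ncard := by
    refine (Set.ncard_le_ncard (t := Z ∪ NT) ?_ (Set.toFinite _)).trans (Set.ncard_union_le _ _)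
    intro W hW
    by_cases ht : triv W
    · exact Or.inl ⟨hW, ht⟩
    · exact Or.inr ⟨hW.1, ht⟩
  have hcnt := hC μ (k' + 1) F L hμ hm T hT.1
  rw [← hX, ← hQ] at hcnt
  have hnt := nontriv_card (F := F) (L := L) (k := k' + 1) (Nat.succ_pos _)
  rw [← hNT, hq] at hnt
  have horb := orbits_ge Z {W : Submodule F L | finrank F W = k' + 1 ∧ triv W ∧ good M0 W}
    (fun E => good μ E ∧ ty μ E = (T : Set (ZMod μ))) (by
      rintro W ⟨⟨h3, h4, h5⟩, h6⟩
      exact ⟨⟨h3, h6, good_of_blk hd h4 h5 hT.2⟩, h4, h5⟩)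
  simp only [and_assoc] at horb
  set t : ℕ := {O : Set (Submodule F L) | ∃ E ∈ {W : Submodule F L | finrank F W = k' + 1 ∧ triv W ∧
    good M0 W}, good μ E ∧ ty μ E = (T : Set (ZMod μ)) ∧ O = OrbG E}.ncard with ht
  -- real inequalities
  have hXZR : (X.ncard : ℝ) ≤ Z.ncard + NT.ncard := by exact_mod_cast hXZ
  have horbR : (Z.ncard : ℝ) ≤ t * Q := by rw [hQ]; exact_mod_cast horb
  have hntR : (BB F (k' + 1) : ℝ) * NT.ncard * Q ≤ (q : ℝ) ^ (2 * (k' + 1)) * Q ^ (k' + 1) := by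
    rw [hQ]; exact_mod_cast hnt
  have hμm : 0 < (μ : ℝ) ^ m := by
    have : (0 : ℝ) < μ := by exact_mod_cast hμ0
    positivity
  have hfac : (1 : ℝ) ≤ m.factorial := by exact_mod_cast Nat.factorial_pos m
  have hQk : 0 < Q ^ k' := by positivity
  have hsq : 0 < Real.sqrt Q := Real.sqrt_pos.2 hQ0
  have e1 : Q ^ (k' + 1) / 2 ≤ (μ : ℝ) ^ m * (BB F (k' + 1) * X.ncard) := by
    have e2 : C * (μ : ℝ) ^ (m + 5) * (Q ^ (k' + 1) / Real.sqrt Q) ≤ Q ^ (k' + 1) / 2 := by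
      have e3 : C * (μ : ℝ) ^ (m + 5) * (Q ^ (k' + 1) / Real.sqrt Q) =
          (2 * C * (μ : ℝ) ^ (m + 5)) * (Q ^ (k' + 1) / Real.sqrt Q) / 2 := by ring
      rw [e3]
      have e4 : (2 * C * (μ : ℝ) ^ (m + 5)) * (Q ^ (k' + 1) / Real.sqrt Q) ≤
          Real.sqrt Q * (Q ^ (k' + 1) / Real.sqrt Q) :=
        mul_le_mul_of_nonneg_right h1 (by positivity)
      have e5 : Real.sqrt Q * (Q ^ (k' + 1) / Real.sqrt Q) = Q ^ (k' + 1) := by
        field_simp
      linarith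
    have e6 := (abs_le.1 hcnt).1
    have e7 : 0 < Q ^ (k' + 1) := by positivity
    nlinarith
  have e2 : (μ : ℝ) ^ m * (BB F (k' + 1) * NT.ncard) ≤ Q ^ (k' + 1) / 4 := by
    have e3 : (μ : ℝ) ^ m * (BB F (k' + 1) * NT.ncard) * Q ≤ Q ^ (k' + 1) / 4 * Q := by
      calc (μ : ℝ) ^ m * (BB F (k' + 1) * NT.ncard) * Q
          = (μ : ℝ) ^ m * ((BB F (k' + 1) : ℝ) * NT.ncard * Q) := by ring
        _ ≤ (μ : ℝ) ^ m * ((q : ℝ) ^ (2 * (k' + 1)) * Q ^ (k' + 1)) :=
            mul_le_mul_of_nonneg_left hntR hμm.le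
        _ = (4 * (q : ℝ) ^ (2 * (k' + 1)) * (μ : ℝ) ^ m) * (Q ^ (k' + 1) / 4) := by ring
        _ ≤ Q * (Q ^ (k' + 1) / 4) := mul_le_mul_of_nonneg_right h2 (by positivity)
        _ = _ := by ring
    exact le_of_mul_le_mul_right e3 hQ0
  have e3 : Q ^ (k' + 1) / 4 ≤ (μ : ℝ) ^ m * (BB F (k' + 1) * (t * Q)) := by
    have e4 : (μ : ℝ) ^ m * (BB F (k' + 1) * X.ncard) ≤
        (μ : ℝ) ^ m * (BB F (k' + 1) * (t * Q)) + (μ : ℝ) ^ m * (BB F (k' + 1) * NT.ncard) := by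
      rw [← mul_add, ← mul_add]
      apply mul_le_mul_of_nonneg_left _ hμm.le
      apply mul_le_mul_of_nonneg_left _ hBB.le
      linarith
    linarith
  rw [div_le_iff₀ (by positivity)]
  have e4 : Q ^ k' * Q ≤ (μ : ℝ) ^ m * t * (4 * BB F (k' + 1)) * Q := by
    rw [pow_succ] at e3
    nlinarith
  exact le_of_mul_le_mul_right e4 hQ0

end Pool.Agent.Helper491_Inf
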