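import Pool.Agent.Helper491_Par.Orb

/-!
# Classes of the nonzero elements of a finite field modulo a subgroup, and unions of orbits
-/

set_option autoImplicit false
set_option linter.unusedSectionVars false

namespace Pool.Agent.Helper491_Inf

open Module Finset Pool.Agent.Helper491_Par

section

variable {L : Type} [Field L] [Fintype L]

/-- A generator. -/
noncomputable def gen (L : Type) [Field L] [Fintype L] : Lˣ :=
  (IsCyclic.exists_generator (α := Lˣ)).choose

theorem gen_spec (x : Lˣ) : x ∈ Subgroup.zpowers (gen L) :=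
  (IsCyclic.exists_generator (α := Lˣ)).choose_spec x

theorem orderOf_gen : orderOf (gen L) = Fintype.card L - 1 := by
  classical
  rw [orderOf_eq_card_of_forall_mem_zpowers gen_spec, Nat.card_eq_fintype_card,
    Fintype.card_units]

theorem exists_dl (x : L) : ∃ i : ℕ, x ≠ 0 → ((gen L : Lˣ) : L) ^ i = x := by
  by_cases hx : x = 0
  · exact ⟨0, fun h => absurd hx h⟩
  · have h1 := gen_spec (Units.mk0 x hx)
    rw [← mem_powers_iff_mem_zpowers] at h1
    obtain ⟨i, hi⟩ := h1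
    refine ⟨i, fun _ => ?_⟩
    have h2 := congrArg (fun u : Lˣ => (u : L)) hi
    simpa using h2

/-- The discrete logarithm. -/
noncomputable def dl (x : L) : ℕ := (exists_dl x).choose

theorem dl_spec {x : L} (hx : x ≠ 0) : ((gen L : Lˣ) : L) ^ dl x = x := (exists_dl x).choose_spec hx

/-- The class of an element. -/
noncomputable def cl (M : ℕ) (x : L) : ZMod M := (dl x : ZMod M)

theorem dl_modEq {i : ℕ} {x : L} (h : ((gen L : Lˣ) : L) ^ i = x) :
    dl x ≡ i [MOD Fintype.card L - 1] := by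
  have hx : x ≠ 0 := by
    rw [← h]
    exact pow_ne_zero _ (Units.ne_zero _)
  have h1 := (dl_spec hx).trans h.symm
  have h2 : gen L ^ dl x = gen L ^ i := by
    ext
    rw [Units.val_pow_eq_pow_val, Units.val_pow_eq_pow_val, h1]
  have h3 := pow_eq_pow_iff_modEq.1 h2
  rwa [orderOf_gen] at h3

theorem cl_pow {M : ℕ} (hM : M ∣ Fintype.card L - 1) {i : ℕ} {x : L}
    (h : ((gen L : Lˣ) : L) ^ i = x) : cl M x = i :=
  (ZMod.natCast_eq_natCast_iff _ _ _).2 ((dl_modEq h).of_dvd hM)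

theorem cl_mul {M : ℕ} (hM : M ∣ Fintype.card L - 1) {x y : L} (hx : x ≠ 0) (hy : y ≠ 0) :
    cl M (x * y) = cl M x + cl M y := by
  have h1 : ((gen L : Lˣ) : L) ^ (dl x + dl y) = x * y := by
    rw [pow_add, dl_spec hx, dl_spec hy]
  rw [cl_pow hM h1, Nat.cast_add]
  rfl

theorem cl_one {M : ℕ} (hM : M ∣ Fintype.card L - 1) : cl M (1 : L) = 0 := by
  rw [cl_pow hM (pow_zero _)]
  simp

theorem cl_inv {M : ℕ} (hM : M ∣ Fintype.card L - 1) (g : Lˣ) :
    cl M ((g⁻¹ : Lˣ) : L) = - cl M (g : L) := by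
  have h1 := cl_mul hM (g.ne_zero) (g⁻¹).ne_zero
  rw [← Units.val_mul, mul_inv_cancel, Units.val_one, cl_one hM] at h1
  exact (neg_eq_of_add_eq_zero_right h1.symm).symm

theorem cl_div {M : ℕ} (hM : M ∣ Fintype.card L - 1) {x y : L} (hx : x ≠ 0) (hy : y ≠ 0) :
    cl M (x / y) = cl M x - cl M y := by
  have h1 := cl_mul hM (div_ne_zero hx hy) hy
  rw [div_mul_cancel₀ _ hy] at h1
  rw [h1]
  ring

theorem pos_of_dvd {M : ℕ} (hM : M ∣ Fintype.card L - 1) : 0 < M := by
  rcases Nat.eq_zero_or_pos M with h | h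
  · rw [h, zero_dvd_iff] at hM
    have : 1 < Fintype.card L := Fintype.one_lt_card
    omega
  · exact h

theorem cl_surj {M : ℕ} (hM : M ∣ Fintype.card L - 1) (t : ZMod M) : ∃ g : Lˣ, cl M (g : L) = t := by
  have : NeZero M := ⟨(pos_of_dvd hM).ne'⟩
  refine ⟨gen L ^ t.val, ?_⟩
  rw [cl_pow hM (Units.val_pow_eq_pow_val _ _).symm]
  exact ZMod.natCast_zmod_val t

theorem cl_eq_zero {M : ℕ} {x : L} : cl M x = 0 ↔ M ∣ dl x := ZMod.natCast_eq_zero_iff _ _

/-- The class map on the units. -/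
noncomputable def clHom (M : ℕ) (hM : M ∣ Fintype.card L - 1) : Lˣ →* Multiplicative (ZMod M) where
  toFun g := Multiplicative.ofAdd (cl M (g : L))
  map_one' := by
    rw [Units.val_one, cl_one hM]
    rfl
  map_mul' g h := by
    rw [Units.val_mul, cl_mul hM g.ne_zero h.ne_zero]
    rfl

theorem card_ker {M : ℕ} (hM : M ∣ Fintype.card L - 1) :
    Nat.card {g : Lˣ // cl M (g : L) = 0} * M = Fintype.card L - 1 := by
  classical
  have h1 := Subgroup.card_mul_index (clHom M hM).ker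
  have h2 : (clHom M hM).ker.index = M := by
    rw [Subgroup.index_ker]
    have h3 : Function.Surjective (clHom M hM) := by
      intro t
      obtain ⟨g, hg⟩ := cl_surj hM (Multiplicative.toAdd t)
      exact ⟨g, by show Multiplicative.ofAdd (cl M (g : L)) = t; rw [hg]; rfl⟩
    rw [MonoidHom.range_eq_top_of_surjective _ h3, Subgroup.card_top]
    exact Nat.card_zmod M
  have h3 : Nat.card {g : Lˣ // cl M (g : L) = 0} = Nat.card (clHom M hM).ker := by
    apply Nat.card_congr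
    exact Equiv.subtypeEquivRight (fun g => by
      rw [MonoidHom.mem_ker]
      exact ⟨fun h => congrArg Multiplicative.ofAdd h, fun h => Multiplicative.ofAdd.injective h⟩)
  rw [h3, ← Fintype.card_units, ← Nat.card_eq_fintype_card, ← h1, h2]

theorem cl_alg {F : Type} [Field F] [Fintype F] [Algebra F L] {M : ℕ}
    (hM : M * (Fintype.card F - 1) ∣ Fintype.card L - 1) {l : F} (hl : l ≠ 0) :
    cl M (algebraMap F L l) = 0 := by
  rw [cl_eq_zero]
  have hq : 0 < Fintype.card F - 1 := by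
    have : 1 < Fintype.card F := Fintype.one_lt_card
    omega
  have hx : algebraMap F L l ≠ 0 := by rwa [Ne, map_eq_zero]
  have h1 : ((gen L : Lˣ) : L) ^ (dl (algebraMap F L l) * (Fintype.card F - 1)) = 1 := by
    rw [pow_mul, dl_spec hx, ← map_pow, FiniteField.pow_card_sub_one_eq_one l hl, map_one]
  have h2 : gen L ^ (dl (algebraMap F L l) * (Fintype.card F - 1)) = 1 := by
    ext
    rw [Units.val_pow_eq_pow_val, h1, Units.val_one]
  have h3 := orderOf_dvd_of_pow_eq_one h2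
  rw [orderOf_gen] at h3
  exact Nat.dvd_of_mul_dvd_mul_right hq (hM.trans h3)

end

section

variable {F L : Type} [Field F] [Fintype F] [Field L] [Fintype L] [Algebra F L]

/-- The type of a subspace. -/
def ty (M : ℕ) (W : Submodule F L) : Set (ZMod M) := {z | ∃ x ∈ W, x ≠ 0 ∧ cl M x = z}

/-- The points of the subspace have different classes. -/
def good (M : ℕ) (W : Submodule F L) : Prop :=
  ∀ x ∈ W, ∀ y ∈ W, x ≠ 0 → y ≠ 0 → cl M x = cl M y → ∃ l : F, y = l • x

/-- Only scalars fix the subspace. -/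
def triv (W : Submodule F L) : Prop := ∀ g : Lˣ, gW g W = W → ∃ l : F, (g : L) = algebraMap F L l

/-- The orbit under all multiplications. -/
def OrbG (W : Submodule F L) : Set (Submodule F L) := {X | ∃ g : Lˣ, X = gW g W}

/-- The orbit under the multiplications of class `0`. -/
def OrbH (M : ℕ) (W : Submodule F L) : Set (Submodule F L) :=
  {X | ∃ g : Lˣ, cl M (g : L) = 0 ∧ X = gW g W}

variable {M : ℕ}

theorem self_mem_OrbG (W : Submodule F L) : W ∈ OrbG W := ⟨1, (gW_one W).symm⟩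

theorem self_mem_OrbH (hM : M ∣ Fintype.card L - 1) (W : Submodule F L) : W ∈ OrbH M W :=
  ⟨1, by rw [Units.val_one, cl_one hM], (gW_one W).symm⟩

theorem OrbG_eq {W X : Submodule F L} (h : X ∈ OrbG W) : OrbG X = OrbG W := by
  obtain ⟨g, rfl⟩ := h
  ext Y
  constructor
  · rintro ⟨h, rfl⟩
    exact ⟨h * g, gW_mul _ _ _⟩
  · rintro ⟨h, rfl⟩
    refine ⟨h * g⁻¹, ?_⟩
    rw [gW_mul]
    simp

theorem OrbH_eq (hM : M ∣ Fintype.card L - 1) {W X : Submodule F L} (h : X ∈ OrbH M W) :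
    OrbH M X = OrbH M W := by
  obtain ⟨g, hg, rfl⟩ := h
  ext Y
  constructor
  · rintro ⟨h, hh, rfl⟩
    exact ⟨h * g, by rw [Units.val_mul, cl_mul hM h.ne_zero g.ne_zero, hg, hh, add_zero],
      gW_mul _ _ _⟩
  · rintro ⟨h, hh, rfl⟩
    refine ⟨h * g⁻¹, ?_, ?_⟩
    · rw [Units.val_mul, cl_mul hM h.ne_zero (g⁻¹).ne_zero, cl_inv hM, hg, hh]
      simp
    · rw [gW_mul]
      simp

theorem mem_ty_gW (hM : M ∣ Fintype.card L - 1) {W : Submodule F L} {g : Lˣ} {z : ZMod M} :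
    z ∈ ty M (gW g W) ↔ z - cl M (g : L) ∈ ty M W := by
  constructor
  · rintro ⟨x, hx, hx0, rfl⟩
    obtain ⟨w, hw, rfl⟩ := mem_gW.1 hx
    have hw0 := right_ne_zero_of_mul hx0
    exact ⟨w, hw, hw0, by rw [cl_mul hM g.ne_zero hw0]; ring⟩
  · rintro ⟨x, hx, hx0, hxz⟩
    exact ⟨g * x, mem_gW.2 ⟨x, hx, rfl⟩, mul_ne_zero g.ne_zero hx0, by
      rw [cl_mul hM g.ne_zero hx0, hxz]; ring⟩

theorem ty_eq (hM : M ∣ Fintype.card L - 1) {W X : Submodule F L} (h : X ∈ OrbH M W) :
    ty M X = ty M W := by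
  obtain ⟨g, hg, rfl⟩ := h
  ext z
  rw [mem_ty_gW hM, hg, sub_zero]

theorem good_gW (hM : M ∣ Fintype.card L - 1) {W : Submodule F L} (hW : good M W) (g : Lˣ) :
    good M (gW g W) := by
  intro x hx y hy hx0 hy0 hxy
  obtain ⟨w, hw, rfl⟩ := mem_gW.1 hx
  obtain ⟨v, hv, rfl⟩ := mem_gW.1 hy
  have hw0 := right_ne_zero_of_mul hx0
  have hv0 := right_ne_zero_of_mul hy0
  rw [cl_mul hM g.ne_zero hw0, cl_mul hM g.ne_zero hv0] at hxy
  obtain ⟨l, rfl⟩ := hW w hw v hv hw0 hv0 (add_left_cancel hxy)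
  exact ⟨l, by rw [Algebra.smul_def, Algebra.smul_def]; ring⟩

theorem triv_gW {W : Submodule F L} (hW : triv W) (g : Lˣ) : triv (gW g W) := by
  intro h hh
  apply hW
  rw [gW_mul, mul_comm, ← gW_mul] at hh
  have := congrArg (gW g⁻¹) hh
  simp only [gW_mul] at this
  simpa [gW_one] using this

theorem gW_eq_iff {W X : Submodule F L} {g h : Lˣ} : gW g W = gW h X ↔ gW (h⁻¹ * g) W = X := by
  constructor
  · intro e
    have := congrArg (gW h⁻¹) e
    rw [gW_mul, gW_mul] at this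
    simpa [gW_one] using this
  · intro e
    rw [← e, gW_mul]
    simp

/-- A union of orbits whose types partition the classes is a spread. -/
theorem orb_spread (hM : M ∣ Fintype.card L - 1)
    {k : ℕ} {I : Type}
    (E : I → Submodule F L) (hk : ∀ i, finrank F (E i) = k) (hE : ∀ i, good M (E i))
    (hT : ∀ z : ZMod M, ∃! i, z ∈ ty M (E i)) :
    IsKSpread k {X | ∃ i, X ∈ OrbH M (E i)} := by
  constructor
  · rintro X ⟨i, g, hg, rfl⟩
    rw [finrank_gW, hk i]
  · intro v hv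
    obtain ⟨i, ⟨x, hx, hx0, hxv⟩, hi⟩ := hT (cl M v)
    set g : Lˣ := Units.mk0 (v / x) (div_ne_zero hv hx0) with hg
    have hgv : (g : L) * x = v := by
      rw [hg, Units.val_mk0, div_mul_cancel₀ _ hx0]
    have hclg : cl M (g : L) = 0 := by
      rw [hg, Units.val_mk0, cl_div hM hv hx0, hxv, sub_self]
    refine ⟨gW g (E i), ⟨⟨i, g, hclg, rfl⟩, mem_gW.2 ⟨x, hx, hgv⟩⟩, ?_⟩
    rintro X ⟨⟨i', g', hg', rfl⟩, hvX⟩
    obtain ⟨x', hx', hx'v⟩ := mem_gW.1 hvX
    have hx'0 : x' ≠ 0 := by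
      rintro rfl
      rw [mul_zero] at hx'v
      exact hv hx'v.symm
    have hclx' : cl M x' = cl M v := by
      rw [← hx'v, cl_mul hM g'.ne_zero hx'0, hg', zero_add]
    have hii : i' = i := hi i' ⟨x', hx', hx'0, hclx'⟩
    subst hii
    obtain ⟨l, hl⟩ := hE i' x hx x' hx' hx0 hx'0 (hxv.trans hclx'.symm)
    have hl0 : l ≠ 0 := by
      rintro rfl
      rw [zero_smul] at hl
      exact hx'0 hl
    have hgg : (g : L) = g' * algebraMap F L l := by
      apply mul_right_cancel₀ hx0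
      rw [hgv, ← hx'v, hl, Algebra.smul_def]
      ring
    ext y
    simp only [mem_gW]
    constructor
    · rintro ⟨w, hw, rfl⟩
      refine ⟨l⁻¹ • w, (E i').smul_mem _ hw, ?_⟩
      rw [hgg, Algebra.smul_def, map_inv₀]
      have : algebraMap F L l ≠ 0 := by rwa [Ne, map_eq_zero]
      field_simp
    · rintro ⟨w, hw, rfl⟩
      refine ⟨l • w, (E i').smul_mem _ hw, ?_⟩
      rw [hgg, Algebra.smul_def]
      ring

/-- The family can be partitioned into spreads. -/
def Res (k : ℕ) (A : Set (Submodule F L)) : Prop :=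
  ∃ P : Set (Set (Submodule F L)), (∀ S ∈ P, IsKSpread k S ∧ S ⊆ A) ∧
    ∀ W ∈ A, ∃! S, S ∈ P ∧ W ∈ S

theorem Res.iUnion {k : ℕ} {I : Type} {A : I → Set (Submodule F L)} (h : ∀ i, Res k (A i))
    (hd : ∀ i j W, W ∈ A i → W ∈ A j → i = j) : Res k {W | ∃ i, W ∈ A i} := by
  choose P hP1 hP2 using h
  refine ⟨{S | ∃ i, S ∈ P i}, ?_, ?_⟩
  · rintro S ⟨i, hS⟩
    exact ⟨(hP1 i S hS).1, fun W hW => ⟨i, (hP1 i S hS).2 hW⟩⟩
  · rintro W ⟨i, hW⟩
    obtain ⟨S, ⟨h1, h2⟩, h3⟩ := hP2 i W hW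
    refine ⟨S, ⟨⟨i, h1⟩, h2⟩, ?_⟩
    rintro S' ⟨⟨j, hj⟩, hWS⟩
    have hij : j = i := hd j i W ((hP1 j S' hj).2 hWS) hW
    subst hij
    exact h3 S' ⟨hj, hWS⟩

theorem Res.union {k : ℕ} {A B : Set (Submodule F L)} (hA : Res k A) (hB : Res k B)
    (hd : ∀ W, W ∈ A → W ∈ B → False) : Res k (A ∪ B) := by
  have h := Res.iUnion (k := k) (I := Bool) (A := fun b => if b then A else B)
    (by
      intro b
      cases b
      · exact hB
      · exact hA)
    (by
      intro b b' W h h'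
      cases b <;> cases b'
      · rfl
      · exact (hd W h' h).elim
      · exact (hd W h h').elim
      · rfl)
  have e : A ∪ B = {W | ∃ b : Bool, W ∈ (if b then A else B)} := by
    ext W
    constructor
    · rintro (h | h)
      · exact ⟨true, h⟩
      · exact ⟨false, h⟩
    · rintro ⟨b, h⟩
      cases b
      · exact Or.inr h
      · exact Or.inl h
  rw [e]
  exact h

/-- Orbits under all multiplications. -/
theorem bundle (hM : M ∣ Fintype.card L - 1)
    (halg : ∀ l : F, l ≠ 0 → cl M (algebraMap F L l) = 0) {k : ℕ} {I : Type}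
    (E : I → Submodule F L) (hk : ∀ i, finrank F (E i) = k) (hE : ∀ i, good M (E i))
    (htr : ∀ i, triv (E i)) (hT : ∀ z : ZMod M, ∃! i, z ∈ ty M (E i))
    (horb : ∀ i j, E j ∈ OrbG (E i) → i = j) : Res k {X | ∃ i, X ∈ OrbG (E i)} := by
  set S : ZMod M → Set (Submodule F L) := fun c => {X | ∃ i, ∃ g : Lˣ, cl M (g : L) = c ∧ X = gW g (E i)}
    with hS
  have hspread : ∀ c, IsKSpread k (S c) := by
    intro c
    obtain ⟨h, hh⟩ := cl_surj hM c
    have h1 := orb_spread hM (k := k) (fun i => gW h (E i)) (fun i => by rw [finrank_gW, hk i])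
      (fun i => good_gW hM (hE i) h) (by
        intro z
        obtain ⟨i, hi, hi'⟩ := hT (z - c)
        refine ⟨i, (mem_ty_gW hM).2 (by rw [hh]; exact hi), ?_⟩
        intro j hj
        apply hi'
        have := (mem_ty_gW hM).1 hj
        rwa [hh] at this)
    have h2 : S c = {X | ∃ i, X ∈ OrbH M (gW h (E i))} := by
      ext X
      constructor
      · rintro ⟨i, g, hg, rfl⟩
        refine ⟨i, g * h⁻¹, ?_, ?_⟩
        · rw [Units.val_mul, cl_mul hM g.ne_zero (h⁻¹).ne_zero, cl_inv hM, hg, hh]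
          ring
        · rw [gW_mul]
          simp
      · rintro ⟨i, g, hg, rfl⟩
        refine ⟨i, g * h, ?_, ?_⟩
        · rw [Units.val_mul, cl_mul hM g.ne_zero h.ne_zero, hg, hh, zero_add]
        · rw [gW_mul]
    rw [h2]
    exact h1
  refine ⟨Set.range S, ?_, ?_⟩
  · rintro _ ⟨c, rfl⟩
    refine ⟨hspread c, ?_⟩
    rintro X ⟨i, g, -, rfl⟩
    exact ⟨i, g, rfl⟩
  · rintro X ⟨i, g, rfl⟩
    refine ⟨S (cl M (g : L)), ⟨⟨_, rfl⟩, i, g, rfl, rfl⟩, ?_⟩
    rintro _ ⟨⟨c, rfl⟩, j, g', hg', hX⟩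
    rw [gW_eq_iff] at hX
    have hij : i = j := horb i j ⟨_, hX.symm⟩
    subst hij
    obtain ⟨l, hl⟩ := htr i _ hX
    have hl0 : l ≠ 0 := by
      rintro rfl
      rw [map_zero] at hl
      exact (g'⁻¹ * g).ne_zero hl
    have h1 := halg l hl0
    rw [← hl, Units.val_mul, cl_mul hM (g'⁻¹).ne_zero g.ne_zero, cl_inv hM, hg'] at h1
    have h2 : cl M (g : L) = c := by
      have : -c + cl M (g : L) = 0 := h1
      exact (neg_add_eq_zero.1 this).symm
    rw [h2]

end

end Pool.Agent.Helper491_Inf
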