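import Pool.Agent.Helper491_Inf.WeilX

/-!
# The number of tuples with prescribed classes
-/

set_option autoImplicit false
set_option linter.unusedSectionVars false

namespace Pool.Agent.Helper491_Inf

open Finset Pool.Agent.Helper491_Par Pool.Agent.Helper491_Par.Equi

open Classical in
theorem exists_char {L : Type} [Field L] [Fintype L] {M : ℕ} (hM : M ∣ Fintype.card L - 1) :
    ∃ (ψ : MulChar L ℂ) (ζ : ℂ), IsPrimitiveRoot ζ M ∧ orderOf ψ = M ∧
      ∀ x : L, x ≠ 0 → ψ x = ζ ^ (dl x) := by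
  have hM0 := (pos_of_dvd hM).ne'
  have prim := Complex.isPrimitiveRoot_exp M hM0
  obtain ⟨ζ, hζ⟩ : ∃ ζ, ζ = Complex.exp (2 * Real.pi * Complex.I / M) := ⟨_, rfl⟩
  rw [← hζ] at prim
  have hu : IsUnit ζ := prim.isUnit hM0
  obtain ⟨ζu, hζu⟩ := hu
  have hmem : ζu ∈ rootsOfUnity (Fintype.card Lˣ) ℂ := by
    rw [mem_rootsOfUnity]
    ext
    rw [Units.val_pow_eq_pow_val, hζu, Units.val_one, Fintype.card_units]
    obtain ⟨c, hc⟩ := hM
    rw [hc, pow_mul, prim.pow_eq_one, one_pow]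
  let ψ : MulChar L ℂ := MulChar.ofRootOfUnity hmem gen_spec
  have hgen : ψ (gen L : Lˣ) = ζ := by
    show MulChar.ofRootOfUnity hmem gen_spec ((gen L : Lˣ) : L) = ζ
    rw [MulChar.ofRootOfUnity_spec, hζu]
  have hval : ∀ x : L, x ≠ 0 → ψ x = ζ ^ (dl x) := by
    intro x hx
    conv_lhs => rw [← dl_spec hx]
    rw [map_pow, hgen]
  refine ⟨ψ, ζ, prim, ?_, hval⟩
  apply Nat.dvd_antisymm
  · apply orderOf_dvd_of_pow_eq_one
    ext u
    rw [MulChar.pow_apply_coe, MulChar.one_apply_coe, hval _ u.ne_zero, ← pow_mul, mul_comm, pow_mul,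
      prim.pow_eq_one, one_pow]
  · apply prim.dvd_of_pow_eq_one
    have h1 := pow_orderOf_eq_one ψ
    have h2 := congrArg (fun χ : MulChar L ℂ => χ (gen L : Lˣ)) h1
    simp only [MulChar.pow_apply_coe, MulChar.one_apply_coe] at h2
    rwa [hgen] at h2

theorem prim_pow {ζ : ℂ} {M : ℕ} (prim : IsPrimitiveRoot ζ M) (hM0 : M ≠ 0) (i j : ℕ) :
    ζ ^ i = ζ ^ j ↔ i ≡ j [MOD M] := by
  obtain ⟨u, hu⟩ := prim.isUnit hM0
  have hp : IsPrimitiveRoot u M := by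
    rw [← IsPrimitiveRoot.coe_units_iff, hu]
    exact prim
  rw [← hu, ← Units.val_pow_eq_pow_val, ← Units.val_pow_eq_pow_val, Units.val_inj,
    pow_eq_pow_iff_modEq, ← hp.eq_orderOf]

theorem KW_le (M D : ℕ) (hM : 1 ≤ M) :
    WX.KW M D ≤ (((D + 3) + (D + 2) * (1 + D) + 1 + 5 * D + 6) + 2 * D) * M ^ 5 := by
  unfold WX.KW
  have h3 : 1 ≤ M ^ 3 := Nat.one_le_pow _ _ hM
  have h2 : 1 ≤ M ^ 2 := Nat.one_le_pow _ _ hM
  have h13 : M ≤ M ^ 3 := by
    calc M = M ^ 1 := (pow_one M).symm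
      _ ≤ M ^ 3 := Nat.pow_le_pow_right hM (by norm_num)
  have a1 : D * M + 3 ≤ (D + 3) * M ^ 3 := by nlinarith [Nat.mul_le_mul_left D h13]
  have a2 : D * M + 2 ≤ (D + 2) * M := by nlinarith
  have a3 : 1 + M * (D * M) ≤ (1 + D) * M ^ 2 := by nlinarith
  have a4 : (D * M + 2) * (1 + M * (D * M)) ≤ (D + 2) * (1 + D) * M ^ 3 := by
    calc (D * M + 2) * (1 + M * (D * M)) ≤ ((D + 2) * M) * ((1 + D) * M ^ 2) :=
          Nat.mul_le_mul a2 a3
      _ = _ := by ring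
  have a5 : 5 * (D * M) ≤ 5 * D * M ^ 3 := by nlinarith [Nat.mul_le_mul_left D h13]
  have a6 : (((D * M + 3) + (D * M + 2) * (1 + M * (D * M)) + 1) + 5 * (D * M) + 6) ≤
      ((D + 3) + (D + 2) * (1 + D) + 1 + 5 * D + 6) * M ^ 3 := by
    nlinarith
  have a7 : M * (D * M) ≤ D * M ^ 5 := by
    have : M ^ 2 ≤ M ^ 5 := Nat.pow_le_pow_right hM (by norm_num)
    calc M * (D * M) = D * M ^ 2 := by ring
      _ ≤ _ := Nat.mul_le_mul_left _ this
  have a8 : D * M ≤ D * M ^ 5 := by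
    have : M ^ 1 ≤ M ^ 5 := Nat.pow_le_pow_right hM (by norm_num)
    rw [pow_one] at this
    exact Nat.mul_le_mul_left _ this
  calc _ ≤ M ^ 2 * (((D + 3) + (D + 2) * (1 + D) + 1 + 5 * D + 6) * M ^ 3) + D * M ^ 5 + D * M ^ 5 := by
        have := Nat.mul_le_mul_left (M ^ 2) a6
        omega
    _ = _ := by ring

/-- **The count.** -/
theorem cnt (D : ℕ) : ∃ C : ℝ, 0 ≤ C ∧ ∀ (M k : ℕ) (F L I : Type) [Field F] [Field L] [Fintype L]
    [Algebra F L] [Fintype I], M ∣ Fintype.card L - 1 → Fintype.card I = D →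
    ∀ (v : I → Fin k → F), (∀ a, v a ≠ 0) → (∀ a b, a ≠ b → ∀ c : F, v a ≠ c • v b) →
    ∀ σ : I → ZMod M,
    |(M : ℝ) ^ D * ({x : Fin k → L | ∀ a, lf (v a) x ≠ 0 ∧ cl M (lf (v a) x) = σ a}.ncard : ℝ) -
      (Fintype.card L : ℝ) ^ k| ≤
      C * (M : ℝ) ^ (D + 5) * ((Fintype.card L : ℝ) ^ k / Real.sqrt (Fintype.card L)) := by
  classical
  refine ⟨D + (((((D + 3) + (D + 2) * (1 + D) + 1 + 5 * D + 6) + 2 * D : ℕ) : ℝ) + D ^ 2),
    by positivity, ?_⟩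
  intro M k F L I _ _ _ _ _ hM hD v hv hind σ
  have hM0 := pos_of_dvd hM
  have : NeZero M := ⟨hM0.ne'⟩
  obtain ⟨ψ, ζ, prim, hψ, hval⟩ := exists_char hM
  have h1 := WX.equiX M D hM0 _ rfl k F L I ψ hψ hD v hv hind (fun a => ζ ^ (σ a).val) (by
    intro a
    rw [← pow_mul, mul_comm, pow_mul, prim.pow_eq_one, one_pow])
  have hset : {x : Fin k → L | ∀ a, ψ (lf (v a) x) = ζ ^ (σ a).val} =
      {x : Fin k → L | ∀ a, lf (v a) x ≠ 0 ∧ cl M (lf (v a) x) = σ a} := by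
    ext x
    refine forall_congr' fun a => ?_
    constructor
    · intro h
      have hne : lf (v a) x ≠ 0 := by
        intro h0
        rw [h0, MulChar.map_zero] at h
        exact pow_ne_zero _ (prim.ne_zero hM0.ne') h.symm
      refine ⟨hne, ?_⟩
      rw [hval _ hne, prim_pow prim hM0.ne'] at h
      have h2 := (ZMod.natCast_eq_natCast_iff _ _ _).2 h
      rw [ZMod.natCast_zmod_val] at h2
      exact h2
    · rintro ⟨hne, h⟩
      rw [hval _ hne, prim_pow prim hM0.ne']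
      apply (ZMod.natCast_eq_natCast_iff _ _ _).1
      rw [ZMod.natCast_zmod_val]
      exact h
  rw [hset] at h1
  refine h1.trans ?_
  apply mul_le_mul_of_nonneg_right _ (by positivity)
  have hM1 : (1 : ℝ) ≤ M := by exact_mod_cast hM0
  have hk : (WX.KW M D : ℝ) ≤
      ((((D + 3) + (D + 2) * (1 + D) + 1 + 5 * D + 6) + 2 * D : ℕ) : ℝ) * (M : ℝ) ^ 5 := by
    exact_mod_cast KW_le M D hM0
  have h5 : (1 : ℝ) ≤ (M : ℝ) ^ 5 := one_le_pow₀ hM1
  have hd5 : (1 : ℝ) ≤ (M : ℝ) ^ (D + 5) := one_le_pow₀ hM1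
  have hDD : (0 : ℝ) ≤ (M : ℝ) ^ D := by positivity
  calc (D : ℝ) + (M : ℝ) ^ D * ((WX.KW M D : ℝ) + D ^ 2)
      ≤ D * (M : ℝ) ^ (D + 5) + (M : ℝ) ^ D *
        (((((D + 3) + (D + 2) * (1 + D) + 1 + 5 * D + 6) + 2 * D : ℕ) : ℝ) * (M : ℝ) ^ 5 +
          D ^ 2 * (M : ℝ) ^ 5) := by
        apply add_le_add
        · exact le_mul_of_one_le_right (Nat.cast_nonneg _) hd5
        · apply mul_le_mul_of_nonneg_left _ hDD
          apply add_le_add hk
          exact le_mul_of_one_le_right (by positivity) h5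
    _ = _ := by ring

end Pool.Agent.Helper491_Inf
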