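import Mathlib

/-!
# Partitions into blocks with different images
-/

set_option autoImplicit false
set_option linter.unusedSectionVars false

namespace Pool.Agent.Helper491_Inf.Cone

open Finset Classical

variable {X B : Type} [Fintype X]

/-- A block: `m` points with different images. -/
def Blk (π : X → B) (m : ℕ) (T : Finset X) : Prop := T.card = m ∧ Set.InjOn π (T : Set X)

/-- A partition of `Y` into blocks. -/
def Part (π : X → B) (m : ℕ) (Y : Finset X) (P : Finset (Finset X)) : Prop :=
  (∀ T ∈ P, Blk π m T ∧ T ⊆ Y) ∧ ∀ x ∈ Y, ∃! T, T ∈ P ∧ x ∈ T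

theorem exists_part (π : X → B) {m : ℕ} (hm : 0 < m) (r : ℕ) : ∀ Y : Finset X, Y.card = r * m →
    (∀ b, (Y.filter (fun x => π x = b)).card ≤ r) → ∃ P, Part π m Y P := by
  induction r with
  | zero =>
    intro Y hY _
    rw [zero_mul, card_eq_zero] at hY
    subst hY
    exact ⟨∅, fun T hT => absurd hT (notMem_empty _), fun x hx => absurd hx (notMem_empty _)⟩
  | succ r ih =>
    intro Y hY hfib
    set Im := Y.image π with hIm
    have hsum : Y.card = ∑ b ∈ Im, (Y.filter (fun x => π x = b)).card :=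
      card_eq_sum_card_image π Y
    set Z := Im.filter (fun b => (Y.filter (fun x => π x = b)).card = r + 1) with hZ
    have h1 : Z.card ≤ m := by
      have h2 : ∑ b ∈ Z, (Y.filter (fun x => π x = b)).card ≤
          ∑ b ∈ Im, (Y.filter (fun x => π x = b)).card :=
        sum_le_sum_of_subset (filter_subset _ _)
      rw [sum_congr rfl (fun b hb => (mem_filter.1 hb).2), sum_const, smul_eq_mul, ← hsum, hY,
        mul_comm] at h2
      exact Nat.le_of_mul_le_mul_left h2 (Nat.succ_pos r)
    have h2 : m ≤ Im.card := by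
      have h3 : ∑ b ∈ Im, (Y.filter (fun x => π x = b)).card ≤ ∑ b ∈ Im, (r + 1) :=
        sum_le_sum fun b _ => hfib b
      rw [← hsum, sum_const, smul_eq_mul, hY, mul_comm] at h3
      exact Nat.le_of_mul_le_mul_right h3 (Nat.succ_pos r)
    obtain ⟨W, hZW, hWI, hWm⟩ := exists_subsuperset_card_eq (filter_subset _ _ : Z ⊆ Im) h1 h2
    have hch : ∀ b ∈ W, ∃ x ∈ Y, π x = b := fun b hb => mem_image.1 (hWI hb)
    have hneX : Nonempty X := by
      obtain ⟨b, hb⟩ := card_pos.1 (by omega : 0 < W.card)
      obtain ⟨x, -, -⟩ := hch b hb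
      exact ⟨x⟩
    choose! f hfY hfπ using hch
    set T := W.image f with hT
    have hfinj : Set.InjOn f (W : Set B) := by
      intro b hb b' hb' h
      rw [← hfπ b hb, ← hfπ b' hb', h]
    have hTm : T.card = m := by rw [hT, card_image_of_injOn hfinj, hWm]
    have hTY : T ⊆ Y := by
      intro x hx
      obtain ⟨b, hb, rfl⟩ := mem_image.1 hx
      exact hfY b hb
    have hTB : Blk π m T := by
      refine ⟨hTm, ?_⟩
      intro x hx y hy hxy
      obtain ⟨b, hb, rfl⟩ := mem_image.1 (mem_coe.1 hx)
      obtain ⟨b', hb', rfl⟩ := mem_image.1 (mem_coe.1 hy)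
      rw [hfπ b hb, hfπ b' hb'] at hxy
      rw [hxy]
    obtain ⟨P, hP1, hP2⟩ := ih (Y \ T) (by
      have := card_sdiff_add_card_eq_card hTY
      rw [hY, hTm] at this
      have h3 : (r + 1) * m = r * m + m := by ring
      omega) (by
      intro b
      by_cases hb : b ∈ W
      · have hsub : (Y \ T).filter (fun x => π x = b) ⊆ (Y.filter (fun x => π x = b)).erase (f b) := by
          intro x hx
          rw [mem_filter, mem_sdiff] at hx
          rw [mem_erase, mem_filter]
          refine ⟨?_, hx.1.1, hx.2⟩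
          rintro rfl
          exact hx.1.2 (mem_image_of_mem _ hb)
        have h3 := card_le_card hsub
        rw [card_erase_of_mem (mem_filter.2 ⟨hfY b hb, hfπ b hb⟩)] at h3
        have := hfib b
        omega
      · have hsub : (Y \ T).filter (fun x => π x = b) ⊆ Y.filter (fun x => π x = b) :=
          filter_subset_filter _ sdiff_subset
        have h3 := card_le_card hsub
        by_cases hbI : b ∈ Im
        · have h4 : (Y.filter (fun x => π x = b)).card ≠ r + 1 := fun h =>
            hb (hZW (mem_filter.2 ⟨hbI, h⟩))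
          have := hfib b
          omega
        · have h4 : Y.filter (fun x => π x = b) = ∅ := by
            rw [filter_eq_empty_iff]
            intro x hx hxb
            exact hbI (mem_image.2 ⟨x, hx, hxb⟩)
          rw [h4] at h3
          simp only [card_empty] at h3
          omega)
    refine ⟨insert T P, ?_, ?_⟩
    · intro T' hT'
      rcases mem_insert.1 hT' with rfl | h
      · exact ⟨hTB, hTY⟩
      · exact ⟨(hP1 T' h).1, (hP1 T' h).2.trans sdiff_subset⟩
    · intro x hx
      by_cases hxT : x ∈ T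
      · refine ⟨T, ⟨mem_insert_self _ _, hxT⟩, ?_⟩
        rintro T' ⟨hT', hxT'⟩
        rcases mem_insert.1 hT' with h | h
        · exact h
        · exact absurd hxT (mem_sdiff.1 ((hP1 T' h).2 hxT')).2
      · obtain ⟨T', ⟨h1', h2'⟩, hu⟩ := hP2 x (mem_sdiff.2 ⟨hx, hxT⟩)
        refine ⟨T', ⟨mem_insert_of_mem h1', h2'⟩, ?_⟩
        rintro T'' ⟨hT'', hxT''⟩
        rcases mem_insert.1 hT'' with h | h
        · rw [h] at hxT''
          exact absurd hxT'' hxT
        · exact hu T'' ⟨h, hxT''⟩

/-- A matching. -/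
def Mat (π : X → B) (m : ℕ) (P : Finset (Finset X)) : Prop := Part π m univ P

/-- The sum of the matchings with given coefficients. -/
noncomputable def Phi (π : X → B) (m : ℕ) : (Finset (Finset X) → ℤ) →+ (Finset X → ℤ) where
  toFun c T := ∑ P ∈ univ.filter (fun P => Mat π m P ∧ T ∈ P), c P
  map_zero' := by
    funext T
    simp
  map_add' c c' := by
    funext T
    simp [sum_add_distrib]

theorem Phi_apply (π : X → B) (m : ℕ) (c : Finset (Finset X) → ℤ) (T : Finset X) :
    Phi π m c T = ∑ P ∈ univ.filter (fun P => Mat π m P ∧ T ∈ P), c P := rfl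

theorem Phi_single (π : X → B) (m : ℕ) {P : Finset (Finset X)} (hP : Mat π m P) :
    Phi π m (Pi.single P 1) = ∑ T ∈ P, Pi.single T 1 := by
  funext T
  rw [Phi_apply, Finset.sum_apply]
  by_cases hT : T ∈ P
  · rw [Finset.sum_eq_single P, Finset.sum_eq_single T]
    · simp
    · intro T' _ hT'
      rw [Pi.single_eq_of_ne hT'.symm]
    · intro h; exact absurd hT h
    · intro P' _ hP'
      rw [Pi.single_eq_of_ne hP']
    · intro h
      exact absurd (mem_filter.2 ⟨mem_univ _, hP, hT⟩) h
  · rw [Finset.sum_eq_zero, Finset.sum_eq_zero]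
    · intro T' hT'
      rw [Pi.single_eq_of_ne]
      rintro rfl
      exact hT hT'
    · intro P' hP'
      rw [Pi.single_eq_of_ne]
      rintro rfl
      exact hT (mem_filter.1 hP').2.2

/-- The class of a set in the quotient. -/
noncomputable def br (π : X → B) (m : ℕ) (T : Finset X) :
    (Finset X → ℤ) ⧸ (Phi π m).range := QuotientAddGroup.mk (Pi.single T 1)

theorem sum_br {π : X → B} {m : ℕ} {P : Finset (Finset X)} (hP : Mat π m P) :
    ∑ T ∈ P, br π m T = 0 := by
  have h1 : ∑ T ∈ P, br π m T =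
      QuotientAddGroup.mk' (Phi π m).range (∑ T ∈ P, Pi.single T 1) := by
    rw [map_sum]
    rfl
  rw [h1, ← Phi_single π m hP]
  exact (QuotientAddGroup.eq_zero_iff _).2 ⟨_, rfl⟩

/-- The hypotheses. -/
structure Hyp (π : X → B) (m s F : ℕ) : Prop where
  hm : 2 ≤ m
  hF : 0 < F
  hX : Fintype.card X = s * m
  hfib : ∀ b, (univ.filter (fun x => π x = b)).card = F
  hs : F + 2 ≤ s
  hB : 3 * m ≤ (univ.image π).card

variable {π : X → B} {m s F : ℕ}

theorem blk_insert {S : Finset X} {a : X} (hS : S.card + 1 = m) (hi : Set.InjOn π (S : Set X))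
    (ha : ∀ x ∈ S, π x ≠ π a) : a ∉ S ∧ Blk π m (insert a S) := by
  have haS : a ∉ S := fun h => ha a h rfl
  refine ⟨haS, by rw [card_insert_of_notMem haS, hS], ?_⟩
  rw [coe_insert]
  rw [Set.injOn_insert (by exact_mod_cast haS)]
  refine ⟨hi, ?_⟩
  rintro ⟨x, hx, hxa⟩
  exact ha x (mem_coe.1 hx) hxa

/-- The rest of two disjoint blocks. -/
theorem rest (H : Hyp π m s F) {U : Finset X} (hU : U.card = 2 * m) :
    ∃ P, Part π m (univ \ U) P := by
  apply exists_part π (by have := H.hm; omega) (s - 2)
  · have h1 := card_sdiff_add_card_eq_card (subset_univ U)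
    rw [card_univ, H.hX, hU] at h1
    have h2 : s * m = (s - 2) * m + 2 * m := by
      rw [← add_mul]
      congr 1
      have := H.hs
      omega
    omega
  · intro b
    have h1 : (univ \ U).filter (fun x => π x = b) ⊆ univ.filter (fun x => π x = b) :=
      filter_subset_filter _ (subset_univ _)
    have h2 := card_le_card h1
    rw [H.hfib b] at h2
    have := H.hs
    omega

theorem mat_of_rest {U : Finset X} {P : Finset (Finset X)}
    (hP : Part π m (univ \ U) P) {T T' : Finset X} (hT : Blk π m T) (hT' : Blk π m T')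
    (hd : Disjoint T T') (hu : T ∪ T' = U) (hm : 0 < m) :
    Mat π m (insert T (insert T' P)) ∧ T' ∉ P ∧ T ∉ insert T' P := by
  have hne : T.Nonempty := card_pos.1 (by rw [hT.1]; exact hm)
  have hne' : T'.Nonempty := card_pos.1 (by rw [hT'.1]; exact hm)
  have hnot : ∀ T'' ∈ P, ∀ x ∈ T'', x ∉ U := fun T'' h x hx => (mem_sdiff.1 ((hP.1 T'' h).2 hx)).2
  have h1 : T' ∉ P := by
    intro h
    obtain ⟨x, hx⟩ := hne'
    exact hnot T' h x hx (by rw [← hu]; exact mem_union_right _ hx)
  have h2 : T ∉ insert T' P := by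
    intro h
    obtain ⟨x, hx⟩ := hne
    rcases mem_insert.1 h with h | h
    · rw [h] at hx
      have : x ∈ T := by rw [h]; exact hx
      exact disjoint_left.1 hd this hx
    · exact hnot T h x hx (by rw [← hu]; exact mem_union_left _ hx)
  refine ⟨⟨?_, ?_⟩, h1, h2⟩
  · intro T'' h
    refine ⟨?_, subset_univ _⟩
    rcases mem_insert.1 h with rfl | h
    · exact hT
    · rcases mem_insert.1 h with rfl | h
      · exact hT'
      · exact (hP.1 T'' h).1
  · intro x _
    by_cases hxT : x ∈ T
    · refine ⟨T, ⟨mem_insert_self _ _, hxT⟩, ?_⟩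
      rintro T'' ⟨h, hx⟩
      rcases mem_insert.1 h with h | h
      · exact h
      · rcases mem_insert.1 h with h | h
        · rw [h] at hx
          exact absurd hx (disjoint_left.1 hd hxT)
        · exact absurd (by rw [← hu]; exact mem_union_left _ hxT) (hnot T'' h x hx)
    · by_cases hxT' : x ∈ T'
      · refine ⟨T', ⟨mem_insert_of_mem (mem_insert_self _ _), hxT'⟩, ?_⟩
        rintro T'' ⟨h, hx⟩
        rcases mem_insert.1 h with h | h
        · rw [h] at hx
          exact absurd hx hxT
        · rcases mem_insert.1 h with h | h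
          · exact h
          · exact absurd (by rw [← hu]; exact mem_union_right _ hxT') (hnot T'' h x hx)
      · have hxU : x ∈ univ \ U := by
          rw [mem_sdiff]
          refine ⟨mem_univ _, ?_⟩
          rw [← hu, mem_union]
          tauto
        obtain ⟨T'', ⟨h3, h4⟩, h5⟩ := hP.2 x hxU
        refine ⟨T'', ⟨mem_insert_of_mem (mem_insert_of_mem h3), h4⟩, ?_⟩
        rintro T3 ⟨h, hx⟩
        rcases mem_insert.1 h with h | h
        · rw [h] at hx
          exact absurd hx hxT
        · rcases mem_insert.1 h with h | h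
          · rw [h] at hx
            exact absurd hx hxT'
          · exact h5 T3 ⟨h, hx⟩

theorem swap (H : Hyp π m s F) {T T' T1 T1' : Finset X} (hT : Blk π m T) (hT' : Blk π m T')
    (hT1 : Blk π m T1) (hT1' : Blk π m T1') (hd : Disjoint T T') (hd1 : Disjoint T1 T1')
    (hu : T ∪ T' = T1 ∪ T1') : br π m T + br π m T' = br π m T1 + br π m T1' := by
  have hm : 0 < m := by have := H.hm; omega
  obtain ⟨P, hP⟩ := rest H (U := T ∪ T') (by rw [card_union_of_disjoint hd, hT.1, hT'.1]; ring)
  obtain ⟨h1, h2, h3⟩ := mat_of_rest hP hT hT' hd rfl hm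
  obtain ⟨g1, g2, g3⟩ := mat_of_rest hP hT1 hT1' hd1 hu.symm hm
  have e1 := sum_br h1
  have e2 := sum_br g1
  rw [sum_insert h3, sum_insert h2, ← add_assoc] at e1
  rw [sum_insert g3, sum_insert g2, ← add_assoc] at e2
  exact add_right_cancel (e1.trans e2.symm)

/-- A set of `m - 1` points which can be completed by `a` and by `b`. -/
def Val (π : X → B) (m : ℕ) (S : Finset X) (a b : X) : Prop :=
  S.card + 1 = m ∧ Set.InjOn π (S : Set X) ∧ (∀ x ∈ S, π x ≠ π a) ∧ ∀ x ∈ S, π x ≠ π b

theorem avoid (H : Hyp π m s F) {Z : Finset B} (hZ : Z.card ≤ 2 * m) :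
    ∃ S : Finset X, S.card + 1 = m ∧ Set.InjOn π (S : Set X) ∧ ∀ x ∈ S, π x ∉ Z := by
  have h1 : m - 1 ≤ ((univ.image π) \ Z).card := by
    have h2 := le_card_sdiff Z (univ.image π)
    have := H.hB
    omega
  obtain ⟨W, hW, hWm⟩ := exists_subset_card_eq h1
  have hch : ∀ b ∈ W, ∃ x, π x = b := by
    intro b hb
    obtain ⟨x, -, hx⟩ := mem_image.1 (mem_sdiff.1 (hW hb)).1
    exact ⟨x, hx⟩
  have hne : Nonempty X := by
    have h3 : 0 < (univ.image π).card := by
      have := H.hB
      have := H.hm
      omega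
    obtain ⟨b, hb⟩ := card_pos.1 h3
    obtain ⟨x, -, -⟩ := mem_image.1 hb
    exact ⟨x⟩
  choose! f hf using hch
  have hfinj : Set.InjOn f (W : Set B) := by
    intro b hb b' hb' h
    rw [← hf b hb, ← hf b' hb', h]
  refine ⟨W.image f, ?_, ?_, ?_⟩
  · rw [card_image_of_injOn hfinj, hWm]
    have := H.hm
    omega
  · intro x hx y hy hxy
    obtain ⟨b, hb, rfl⟩ := mem_image.1 (mem_coe.1 hx)
    obtain ⟨b', hb', rfl⟩ := mem_image.1 (mem_coe.1 hy)
    rw [hf b hb, hf b' hb'] at hxy
    rw [hxy]
  · intro x hx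
    obtain ⟨b, hb, rfl⟩ := mem_image.1 hx
    rw [hf b hb]
    exact (mem_sdiff.1 (hW hb)).2

/-- The difference. -/
noncomputable def del (π : X → B) (m : ℕ) (S : Finset X) (a b : X) :
    (Finset X → ℤ) ⧸ (Phi π m).range := br π m (insert a S) - br π m (insert b S)

theorem del_disj (H : Hyp π m s F) {S S' : Finset X} {a b : X} (h : Val π m S a b)
    (h' : Val π m S' a b) (hd : Disjoint S S') : del π m S a b = del π m S' a b := by
  by_cases hab : a = b
  · subst hab
    simp [del]
  · obtain ⟨a1, a2⟩ := blk_insert h.1 h.2.1 h.2.2.1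
    obtain ⟨b1, b2⟩ := blk_insert h.1 h.2.1 h.2.2.2
    obtain ⟨a1', a2'⟩ := blk_insert h'.1 h'.2.1 h'.2.2.1
    obtain ⟨b1', b2'⟩ := blk_insert h'.1 h'.2.1 h'.2.2.2
    have e := swap H a2 b2' b2 a2' (by
      rw [disjoint_left]
      intro x hx hx'
      rcases mem_insert.1 hx with rfl | hx
      · rcases mem_insert.1 hx' with h1 | h1
        · exact hab h1
        · exact a1' h1
      · rcases mem_insert.1 hx' with rfl | h1
        · exact b1 hx
        · exact disjoint_left.1 hd hx h1) (by
      rw [disjoint_left]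
      intro x hx hx'
      rcases mem_insert.1 hx with rfl | hx
      · rcases mem_insert.1 hx' with h1 | h1
        · exact hab h1.symm
        · exact b1' h1
      · rcases mem_insert.1 hx' with rfl | h1
        · exact a1 hx
        · exact disjoint_left.1 hd hx h1) (by
      ext x
      simp only [mem_union, mem_insert]
      tauto)
    unfold del
    rw [sub_eq_sub_iff_add_eq_add, e, add_comm]

theorem val_of_avoid {S : Finset X} (h1 : S.card + 1 = m) (h2 : Set.InjOn π (S : Set X))
    {Z : Finset B} (h3 : ∀ x ∈ S, π x ∉ Z) {a b : X} (ha : π a ∈ Z) (hb : π b ∈ Z) :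
    Val π m S a b :=
  ⟨h1, h2, fun x hx h => h3 x hx (by rw [h]; exact ha), fun x hx h => h3 x hx (by rw [h]; exact hb)⟩

theorem del_indep (H : Hyp π m s F) {S S' : Finset X} {a b : X} (h : Val π m S a b)
    (h' : Val π m S' a b) : del π m S a b = del π m S' a b := by
  obtain ⟨S2, h1, h2, h3⟩ := avoid H (Z := (S.image π ∪ S'.image π) ∪ {π a, π b}) (by
    refine (card_union_le _ _).trans ?_
    have e1 := card_union_le (S.image π) (S'.image π)
    have e2 : (S.image π).card ≤ S.card := card_image_le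
    have e3 : (S'.image π).card ≤ S'.card := card_image_le
    have e4 : ({π a, π b} : Finset B).card ≤ 2 := card_le_two
    have := h.1
    have := h'.1
    omega)
  have hv : Val π m S2 a b := val_of_avoid h1 h2 h3 (by simp) (by simp)
  have hd : Disjoint S S2 := by
    rw [disjoint_left]
    intro x hx hx'
    exact h3 x hx' (mem_union_left _ (mem_union_left _ (mem_image_of_mem _ hx)))
  have hd' : Disjoint S' S2 := by
    rw [disjoint_left]
    intro x hx hx'
    exact h3 x hx' (mem_union_left _ (mem_union_right _ (mem_image_of_mem _ hx)))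
  rw [del_disj H h hv hd, del_disj H h' hv hd']

theorem exists_phi (H : Hyp π m s F) : ∃ φ : X → (Finset X → ℤ) ⧸ (Phi π m).range,
    ∀ S a b, Val π m S a b → del π m S a b = φ a - φ b := by
  have hne : Nonempty X := by
    rw [← Fintype.card_pos_iff, H.hX]
    have := H.hm
    have := H.hs
    exact Nat.mul_pos (by omega) (by omega)
  obtain ⟨o⟩ := hne
  have hex : ∀ x : X, ∃ S : Finset X, Val π m S x o := by
    intro x
    obtain ⟨S, h1, h2, h3⟩ := avoid H (Z := {π x, π o}) (by
      have e4 : ({π x, π o} : Finset B).card ≤ 2 := card_le_two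
      have := H.hm
      omega)
    exact ⟨S, val_of_avoid h1 h2 h3 (by simp) (by simp)⟩
  choose Sx hSx using hex
  refine ⟨fun x => del π m (Sx x) x o, ?_⟩
  intro S a b h
  obtain ⟨S2, h1, h2, h3⟩ := avoid H (Z := {π a, π b, π o}) (by
    have e4 : ({π a, π b, π o} : Finset B).card ≤ 3 := card_le_three
    have := H.hm
    omega)
  have v1 : Val π m S2 a b := val_of_avoid h1 h2 h3 (by simp) (by simp)
  have v2 : Val π m S2 a o := val_of_avoid h1 h2 h3 (by simp) (by simp)
  have v3 : Val π m S2 b o := val_of_avoid h1 h2 h3 (by simp) (by simp)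
  show del π m S a b = del π m (Sx a) a o - del π m (Sx b) b o
  rw [del_indep H h v1, del_indep H (hSx a) v2, del_indep H (hSx b) v3]
  unfold del
  abel

/-- Connectivity. -/
theorem conn {A : Type} (g : Finset X → A)
    (hg : ∀ S a b, Val π m S a b → g (insert a S) = g (insert b S)) :
    ∀ (n : ℕ) (T T' : Finset X), (T \ T').card = n → Blk π m T → Blk π m T' → g T = g T' := by
  intro n
  induction n with
  | zero =>
    intro T T' h hT hT'
    rw [card_eq_zero, sdiff_eq_empty_iff_subset] at h
    rw [eq_of_subset_of_card_le h (by rw [hT.1, hT'.1])]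
  | succ n ih =>
    intro T T' h hT hT'
    have hc : (T' \ T).card = n + 1 := by
      have e1 := card_sdiff_add_card_inter T T'
      have e2 := card_sdiff_add_card_inter T' T
      rw [inter_comm] at e2
      have := hT.1
      have := hT'.1
      omega
    obtain ⟨b, hb⟩ := card_pos.1 (by rw [hc]; exact Nat.succ_pos n : 0 < (T' \ T).card)
    rw [mem_sdiff] at hb
    obtain ⟨a, ha, hab⟩ : ∃ a ∈ T \ T', ∀ x ∈ T, x ≠ a → π x ≠ π b := by
      by_cases hex : ∃ a ∈ T, π a = π b
      · obtain ⟨a, ha, hab⟩ := hex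
        refine ⟨a, ?_, ?_⟩
        · rw [mem_sdiff]
          refine ⟨ha, fun ha' => ?_⟩
          have := hT'.2 (mem_coe.2 ha') (mem_coe.2 hb.1) hab
          rw [this] at ha
          exact hb.2 ha
        · intro x hx hxa hxb
          exact hxa (hT.2 (mem_coe.2 hx) (mem_coe.2 ha) (hxb.trans hab.symm))
      · obtain ⟨a, ha⟩ := card_pos.1 (by rw [h]; exact Nat.succ_pos n : 0 < (T \ T').card)
        exact ⟨a, ha, fun x hx _ hxb => hex ⟨x, hx, hxb⟩⟩
    rw [mem_sdiff] at ha
    have hv : Val π m (T.erase a) a b := by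
      refine ⟨?_, ?_, ?_, ?_⟩
      · rw [card_erase_of_mem ha.1, hT.1]
        have := card_pos.2 ⟨a, ha.1⟩
        rw [hT.1] at this
        omega
      · exact hT.2.mono (by exact_mod_cast erase_subset a T)
      · intro x hx hxa
        rw [mem_erase] at hx
        exact hx.1 (hT.2 (mem_coe.2 hx.2) (mem_coe.2 ha.1) hxa)
      · intro x hx
        rw [mem_erase] at hx
        exact hab x hx.2 hx.1
    have h1 := hg _ _ _ hv
    rw [insert_erase ha.1] at h1
    rw [h1]
    obtain ⟨hbS, hblk⟩ := blk_insert hv.1 hv.2.1 hv.2.2.2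
    apply ih _ T' _ hblk hT'
    have : (insert b (T.erase a)) \ T' = (T \ T').erase a := by
      ext x
      simp only [mem_sdiff, mem_insert, mem_erase]
      constructor
      · rintro ⟨rfl | ⟨h1, h2⟩, h3⟩
        · exact absurd hb.1 h3
        · exact ⟨h1, h2, h3⟩
      · rintro ⟨h1, h2, h3⟩
        exact ⟨Or.inr ⟨h1, h2⟩, h3⟩
    rw [this, card_erase_of_mem (mem_sdiff.2 ha), h]
    rfl

/-- The class of a block. -/
theorem exists_br (H : Hyp π m s F) : ∃ (φ : X → (Finset X → ℤ) ⧸ (Phi π m).range)
    (c : (Finset X → ℤ) ⧸ (Phi π m).range), ∀ T, Blk π m T → br π m T = ∑ x ∈ T, φ x + c := by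
  obtain ⟨φ, hφ⟩ := exists_phi H
  obtain ⟨S, h1, h2, h3⟩ := avoid H (Z := ∅) (by simp)
  have hne : Nonempty X := by
    rw [← Fintype.card_pos_iff, H.hX]
    have := H.hm
    have := H.hs
    exact Nat.mul_pos (by omega) (by omega)
  set g : Finset X → (Finset X → ℤ) ⧸ (Phi π m).range := fun T => br π m T - ∑ x ∈ T, φ x with hg
  have hconn := conn (π := π) (m := m) g (by
    intro S a b hv
    have e := hφ S a b hv
    unfold del at e
    have ha : a ∉ S := fun h => hv.2.2.1 a h rfl
    have hb : b ∉ S := fun h => hv.2.2.2 b h rfl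
    simp only [hg]
    rw [sum_insert ha, sum_insert hb, sub_eq_sub_iff_add_eq_add]
    rw [sub_eq_sub_iff_add_eq_add] at e
    calc br π m (insert a S) + (φ b + ∑ x ∈ S, φ x) =
        (br π m (insert a S) + φ b) + ∑ x ∈ S, φ x := by abel
      _ = (φ a + br π m (insert b S)) + ∑ x ∈ S, φ x := by rw [e]
      _ = _ := by abel)
  by_cases hT0 : ∃ T0, Blk π m T0
  · obtain ⟨T0, hT0⟩ := hT0
    refine ⟨φ, g T0, ?_⟩
    intro T hT
    rw [← hconn _ T T0 rfl hT hT0]
    simp only [hg]
    abel
  · exact ⟨φ, 0, fun T hT => absurd ⟨T, hT⟩ hT0⟩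

end Pool.Agent.Helper491_Inf.Cone
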