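import Pool.Agent.Helper491_Inf.Cone1

/-!
# Near-uniform regular multisets of blocks are sums of partitions
-/

set_option autoImplicit false
set_option linter.unusedSectionVars false

namespace Pool.Agent.Helper491_Inf.Cone

open Finset Classical

variable {X B : Type} [Fintype X] {π : X → B} {m s F : ℕ}

theorem exists_mat (H : Hyp π m s F) : ∃ P, Mat π m P := by
  apply exists_part π (by have := H.hm; omega) s
  · rw [card_univ, H.hX]
  · intro b
    rw [H.hfib b]
    have := H.hs
    omega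

theorem exists_a (H : Hyp π m s F) : ∃ (φ : X → Finset X → ℤ) (ct : Finset X → ℤ)
    (a : Finset X → Finset (Finset X) → ℤ) (b : Finset (Finset X) → ℤ),
    (∀ T, Blk π m T → Phi π m (a T) = Pi.single T 1 - ∑ x ∈ T, φ x - ct) ∧
    Phi π m b = ∑ x, φ x + s • ct := by
  obtain ⟨φ0, c0, h⟩ := exists_br H
  have hsurj : ∀ y : (Finset X → ℤ) ⧸ (Phi π m).range, ∃ z : Finset X → ℤ,
      QuotientAddGroup.mk' (Phi π m).range z = y := QuotientAddGroup.mk'_surjective _
  choose lift hlift using hsurj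
  have ha : ∀ T, ∃ a, Blk π m T → Phi π m a = Pi.single T 1 - ∑ x ∈ T, lift (φ0 x) - lift c0 := by
    intro T
    by_cases hT : Blk π m T
    · have h1 : QuotientAddGroup.mk' (Phi π m).range
          (Pi.single T 1 - ∑ x ∈ T, lift (φ0 x) - lift c0) = 0 := by
        rw [map_sub, map_sub, map_sum]
        simp only [hlift]
        have h2 := h T hT
        unfold br at h2
        rw [QuotientAddGroup.mk'_apply, h2]
        abel
      obtain ⟨a, ha⟩ := (QuotientAddGroup.eq_zero_iff _).1 h1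
      exact ⟨a, fun _ => ha⟩
    · exact ⟨0, fun h => absurd h hT⟩
  choose a ha using ha
  obtain ⟨P, hP⟩ := exists_mat H
  have hPs : P.card = s := by
    have h1 : (univ : Finset X).card = ∑ T ∈ P, T.card := by
      rw [← card_biUnion]
      · congr 1
        ext x
        rw [mem_biUnion]
        obtain ⟨T, ⟨h1, h2⟩, -⟩ := hP.2 x (mem_univ _)
        exact ⟨fun _ => ⟨T, h1, h2⟩, fun _ => mem_univ _⟩
      · intro T hT T' hT' hne
        show Disjoint T T'
        rw [disjoint_left]
        intro x hx hx'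
        obtain ⟨T0, -, hu⟩ := hP.2 x (mem_univ _)
        exact hne ((hu T ⟨hT, hx⟩).trans (hu T' ⟨hT', hx'⟩).symm)
    rw [sum_congr rfl (fun T hT => (hP.1 T hT).1.1), sum_const, smul_eq_mul, card_univ, H.hX] at h1
    exact (Nat.eq_of_mul_eq_mul_right (by have := H.hm; omega) h1).symm
  have hb : QuotientAddGroup.mk' (Phi π m).range (∑ x, lift (φ0 x) + s • lift c0) = 0 := by
    rw [map_add, map_sum, map_nsmul]
    simp only [hlift]
    have h1 := sum_br hP
    rw [sum_congr rfl (fun T hT => h T (hP.1 T hT).1), sum_add_distrib, sum_const, hPs] at h1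
    rw [← h1]
    congr 1
    rw [← sum_biUnion]
    · apply sum_congr _ (fun _ _ => rfl)
      ext x
      rw [mem_biUnion]
      obtain ⟨T, ⟨h1, h2⟩, -⟩ := hP.2 x (mem_univ _)
      exact ⟨fun _ => ⟨T, h1, h2⟩, fun _ => mem_univ _⟩
    · intro T hT T' hT' hne
      show Disjoint T T'
      rw [disjoint_left]
      intro x hx hx'
      obtain ⟨T0, -, hu⟩ := hP.2 x (mem_univ _)
      exact hne ((hu T ⟨hT, hx⟩).trans (hu T' ⟨hT', hx'⟩).symm)
  obtain ⟨b, hb⟩ := (QuotientAddGroup.eq_zero_iff _).1 hb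
  exact ⟨fun x => lift (φ0 x), lift c0, a, b, ha, hb⟩

/-- Bounded coefficients. -/
theorem bounded (H : Hyp π m s F) : ∃ C : ℝ, 0 ≤ C ∧ ∀ (r : Finset X → ℤ) (D : ℤ) (R : ℝ),
    (∀ T, ¬ Blk π m T → r T = 0) → (∀ x, ∑ T ∈ univ.filter (fun T => x ∈ T), r T = D) →
    (∀ T, |(r T : ℝ)| ≤ R) → ∃ c, Phi π m c = r ∧ ∀ P, |(c P : ℝ)| ≤ C * R := by
  obtain ⟨φ, ct, a, b, ha, hb⟩ := exists_a H
  refine ⟨∑ T, ∑ P, |(a T P : ℝ)| + (Fintype.card (Finset X) : ℝ) * ∑ P, |(b P : ℝ)|,
    by positivity, ?_⟩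
  intro r D R hr hD hR
  have hm0 : 0 < m := by have := H.hm; omega
  have hne : Nonempty X := by
    rw [← Fintype.card_pos_iff, H.hX]
    have := H.hs
    exact Nat.mul_pos (by omega) hm0
  have hR0 : 0 ≤ R := (abs_nonneg _).trans (hR ∅)
  have hDR : |(D : ℝ)| ≤ Fintype.card (Finset X) * R := by
    obtain ⟨x⟩ := hne
    rw [← hD x]
    push_cast
    refine (abs_sum_le_sum_abs _ _).trans ?_
    refine (sum_le_sum (fun T _ => hR T)).trans ?_
    rw [sum_const, nsmul_eq_mul]
    apply mul_le_mul_of_nonneg_right _ hR0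
    exact_mod_cast card_le_univ _
  refine ⟨∑ T ∈ univ.filter (fun T => Blk π m T), r T • a T + D • b, ?_, ?_⟩
  · rw [map_add, map_sum, map_zsmul, hb]
    have h1 : ∑ T ∈ univ.filter (fun T => Blk π m T), Phi π m (r T • a T) =
        ∑ T ∈ univ.filter (fun T => Blk π m T), (r T • (Pi.single T (1 : ℤ) : Finset X → ℤ) -
          r T • ∑ x ∈ T, φ x - r T • ct) := by
      refine sum_congr rfl fun T hT => ?_
      rw [map_zsmul, ha T (mem_filter.1 hT).2, smul_sub, smul_sub]
    rw [h1, sum_sub_distrib, sum_sub_distrib]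
    have h2 : ∑ T ∈ univ.filter (fun T => Blk π m T), r T • (Pi.single T (1 : ℤ) : Finset X → ℤ) = r := by
      funext T
      rw [Finset.sum_apply]
      by_cases hT : Blk π m T
      · rw [Finset.sum_eq_single T]
        · simp
        · intro T' _ hT'
          rw [Pi.smul_apply, Pi.single_eq_of_ne hT'.symm, smul_zero]
        · intro h
          exact absurd (mem_filter.2 ⟨mem_univ _, hT⟩) h
      · rw [hr T hT]
        apply sum_eq_zero
        intro T' hT'
        rw [Pi.smul_apply, Pi.single_eq_of_ne, smul_zero]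
        rintro rfl
        exact hT (mem_filter.1 hT').2
    have h3 : ∑ T ∈ univ.filter (fun T => Blk π m T), r T • ∑ x ∈ T, φ x = D • ∑ x, φ x := by
      have e1 : ∀ T, r T • ∑ x ∈ T, φ x = ∑ x, if x ∈ T then r T • φ x else 0 := by
        intro T
        rw [smul_sum, ← sum_filter]
        apply sum_congr _ (fun _ _ => rfl)
        ext x
        simp
      rw [sum_congr rfl (fun T _ => e1 T), sum_comm, smul_sum]
      refine sum_congr rfl fun x _ => ?_
      rw [← hD x, sum_smul, sum_filter, sum_filter]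
      refine sum_congr rfl fun T _ => ?_
      by_cases hT : Blk π m T
      · rw [if_pos hT]
      · rw [if_neg hT]
        split_ifs
        · rw [hr T hT, zero_smul]
        · rfl
    have h4 : ∑ T ∈ univ.filter (fun T => Blk π m T), r T = D * s := by
      have e1 : (m : ℤ) * ∑ T ∈ univ.filter (fun T => Blk π m T), r T = m * (D * s) := by
        have e2 : (m : ℤ) * ∑ T ∈ univ.filter (fun T => Blk π m T), r T =
            ∑ T, ∑ x, if x ∈ T then r T else 0 := by
          rw [mul_sum, sum_filter]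
          refine sum_congr rfl fun T _ => ?_
          rw [← sum_filter, sum_const, nsmul_eq_mul]
          by_cases hT : Blk π m T
          · rw [if_pos hT]
            congr 2
            rw [← hT.1]
            congr 1
            ext x
            simp
          · rw [if_neg hT, hr T hT, mul_zero]
        rw [e2, sum_comm]
        have e3 : ∀ x : X, ∑ T : Finset X, (if x ∈ T then r T else 0) = D := by
          intro x
          rw [← sum_filter]
          exact hD x
        rw [sum_congr rfl (fun x _ => e3 x), sum_const, card_univ, H.hX, nsmul_eq_mul]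
        push_cast
        ring
      exact mul_left_cancel₀ (by exact_mod_cast hm0.ne') e1
    rw [h2, h3, ← sum_smul, h4, smul_add, mul_smul]
    have e5 : (s : ℤ) • ct = s • ct := natCast_zsmul _ _
    rw [e5]
    abel
  · intro P
    have hval : ((∑ T ∈ univ.filter (fun T => Blk π m T), r T • a T + D • b) P : ℤ) =
        ∑ T ∈ univ.filter (fun T => Blk π m T), r T * a T P + D * b P := by
      rw [Pi.add_apply, Finset.sum_apply]
      simp only [Pi.smul_apply, smul_eq_mul]
    rw [hval]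
    push_cast
    refine (abs_add_le _ _).trans ?_
    rw [add_mul]
    apply add_le_add
    · refine (abs_sum_le_sum_abs _ _).trans ?_
      calc ∑ T ∈ univ.filter (fun T => Blk π m T), |(r T : ℝ) * a T P|
          ≤ ∑ T ∈ univ.filter (fun T => Blk π m T), R * |(a T P : ℝ)| := by
            refine sum_le_sum fun T _ => ?_
            rw [abs_mul]
            exact mul_le_mul_of_nonneg_right (hR T) (abs_nonneg _)
        _ ≤ ∑ T, R * |(a T P : ℝ)| :=
            sum_le_sum_of_subset_of_nonneg (filter_subset _ _) fun T _ _ => by positivity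
        _ ≤ ∑ T, R * ∑ P', |(a T P' : ℝ)| := by
            refine sum_le_sum fun T _ => mul_le_mul_of_nonneg_left ?_ hR0
            exact single_le_sum (f := fun P' => |(a T P' : ℝ)|) (fun _ _ => abs_nonneg _) (mem_univ P)
        _ = _ := by rw [← mul_sum, mul_comm]
    · rw [abs_mul]
      calc |(D : ℝ)| * |(b P : ℝ)| ≤ (Fintype.card (Finset X) * R) * ∑ P', |(b P' : ℝ)| := by
            apply mul_le_mul hDR _ (abs_nonneg _) (by positivity)
            exact single_le_sum (f := fun P' => |(b P' : ℝ)|) (fun _ _ => abs_nonneg _) (mem_univ P)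
        _ = _ := by ring

/-- Permutations move blocks to blocks. -/
theorem exists_perm [Fintype B] (H : Hyp π m s F) {T T' : Finset X} (hT : Blk π m T)
    (hT' : Blk π m T') : ∃ g : Equiv.Perm X, (∀ x y, π (g x) = π (g y) ↔ π x = π y) ∧
      T.map g.toEmbedding = T' := by
  have hfe : ∀ b : B, Nonempty ({x // π x = b} ≃ Fin F) := by
    intro b
    refine ⟨Fintype.equivFinOfCardEq ?_⟩
    rw [Fintype.card_subtype]
    exact H.hfib b
  let ef : ∀ b : B, {x // π x = b} ≃ Fin F := fun b => (hfe b).some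
  let E : X ≃ B × Fin F := (Equiv.sigmaFiberEquiv π).symm.trans
    ((Equiv.sigmaCongrRight ef).trans (Equiv.sigmaEquivProd B (Fin F)))
  have hE : ∀ x, (E x).1 = π x := fun x => rfl
  have hE' : ∀ p, π (E.symm p) = p.1 := by
    intro p
    rw [← hE, Equiv.apply_symm_apply]
  let e : {x // x ∈ T} ≃ {x // x ∈ T'} := Finset.equivOfCardEq (hT.1.trans hT'.1.symm)
  -- the images
  have hbij : ∀ T : Finset X, Blk π m T → Function.Bijective
      (fun x : {x // x ∈ T} => (⟨π x, mem_image_of_mem _ x.2⟩ : {b // b ∈ T.image π})) := by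
    intro T hT
    constructor
    · intro x y h
      exact Subtype.ext (hT.2 (mem_coe.2 x.2) (mem_coe.2 y.2) (congrArg Subtype.val h))
    · rintro ⟨b, hb⟩
      obtain ⟨x, hx, rfl⟩ := mem_image.1 hb
      exact ⟨⟨x, hx⟩, rfl⟩
  let α := Equiv.ofBijective _ (hbij T hT)
  let α' := Equiv.ofBijective _ (hbij T' hT')
  let τ0 : {b // b ∈ T.image π} ≃ {b // b ∈ T'.image π} := α.symm.trans (e.trans α')
  let τ : Equiv.Perm B := τ0.extendSubtype
  have hτ : ∀ x : {x // x ∈ T}, τ (π x) = π (e x) := by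
    intro x
    have h1 : τ (π x) = τ0 ⟨π x, mem_image_of_mem _ x.2⟩ :=
      Equiv.extendSubtype_apply_of_mem τ0 (π x) (mem_image_of_mem _ x.2)
    rw [h1]
    have h2 : α.symm ⟨π x, mem_image_of_mem _ x.2⟩ = x := by
      rw [Equiv.symm_apply_eq]
      rfl
    show ((α' (e (α.symm _))) : B) = _
    rw [h2]
    rfl
  let θ : B → Equiv.Perm (Fin F) := fun b =>
    if h : ∃ x : {x // x ∈ T}, π x = b then Equiv.swap (E h.choose).2 (E (e h.choose)).2 else 1
  have hθ : ∀ x : {x // x ∈ T}, θ (π x) (E x).2 = (E (e x)).2 := by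
    intro x
    have hex : ∃ y : {x // x ∈ T}, π y = π x := ⟨x, rfl⟩
    have h1 : θ (π x) = Equiv.swap (E hex.choose).2 (E (e hex.choose)).2 := dif_pos hex
    have h2 : hex.choose = x :=
      Subtype.ext (hT.2 (mem_coe.2 hex.choose.2) (mem_coe.2 x.2) hex.choose_spec)
    rw [h1, h2, Equiv.swap_apply_left]
  refine ⟨(E.trans (Equiv.prodShear τ θ)).trans E.symm, ?_, ?_⟩
  · intro x y
    have h1 : ∀ x, π (((E.trans (Equiv.prodShear τ θ)).trans E.symm) x) = τ (π x) := by
      intro x
      simp only [Equiv.trans_apply]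
      rw [hE']
      rfl
    rw [h1, h1]
    exact τ.injective.eq_iff
  · apply Finset.eq_of_subset_of_card_le
    · intro y hy
      obtain ⟨x, hx, rfl⟩ := mem_map.1 hy
      have h1 : ((E.trans (Equiv.prodShear τ θ)).trans E.symm) x = e ⟨x, hx⟩ := by
        simp only [Equiv.trans_apply]
        rw [Equiv.symm_apply_eq]
        refine Prod.ext ?_ ?_
        · show τ (π x) = π (e ⟨x, hx⟩)
          exact hτ ⟨x, hx⟩
        · show θ (π x) (E x).2 = (E (e ⟨x, hx⟩)).2
          exact hθ ⟨x, hx⟩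
      show ((E.trans (Equiv.prodShear τ θ)).trans E.symm) x ∈ T'
      rw [h1]
      exact (e ⟨x, hx⟩).2
    · rw [card_map, hT.1, hT'.1]

/-- The number of matchings containing a block. -/
noncomputable def c1 (π : X → B) (m : ℕ) (T : Finset X) : ℕ :=
  (univ.filter (fun P : Finset (Finset X) => Mat π m P ∧ T ∈ P)).card

theorem c1_le [Fintype B] (H : Hyp π m s F) {T T' : Finset X} (hT : Blk π m T)
    (hT' : Blk π m T') : c1 π m T ≤ c1 π m T' := by
  obtain ⟨g, hg, hgT⟩ := exists_perm H hT hT'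
  unfold c1
  refine card_le_card_of_injOn (fun P => P.image (fun U => U.map g.toEmbedding)) ?_ ?_
  · intro P hP
    obtain ⟨-, hP1, hP2⟩ := mem_filter.1 (mem_coe.1 hP)
    refine mem_coe.2 (mem_filter.2 ⟨mem_univ _, ⟨?_, ?_⟩, ?_⟩)
    · intro U hU
      obtain ⟨U', hU', rfl⟩ := mem_image.1 hU
      refine ⟨⟨by rw [card_map]; exact (hP1.1 U' hU').1.1, ?_⟩, subset_univ _⟩
      intro x hx y hy hxy
      obtain ⟨x', hx', rfl⟩ := mem_map.1 (mem_coe.1 hx)
      obtain ⟨y', hy', rfl⟩ := mem_map.1 (mem_coe.1 hy)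
      have h1 := (hg x' y').1 hxy
      rw [(hP1.1 U' hU').1.2 (mem_coe.2 hx') (mem_coe.2 hy') h1]
    · intro x _
      obtain ⟨U, ⟨h1, h2⟩, h3⟩ := hP1.2 (g.symm x) (mem_univ _)
      refine ⟨U.map g.toEmbedding, ⟨mem_image_of_mem _ h1, mem_map.2 ⟨_, h2, by simp⟩⟩, ?_⟩
      rintro V ⟨hV, hxV⟩
      obtain ⟨U', hU', rfl⟩ := mem_image.1 hV
      obtain ⟨y, hy, hyx⟩ := mem_map.1 hxV
      have : y = g.symm x := by
        rw [← hyx]
        simp
      rw [h3 U' ⟨hU', by rw [← this]; exact hy⟩]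
    · exact mem_image.2 ⟨T, hP2, hgT⟩
  · intro P _ P' _ h
    have hinj : Function.Injective (fun U : Finset X => U.map g.toEmbedding) :=
      Finset.map_injective _
    exact Finset.image_injective hinj h

/-- **The decomposition.** -/
theorem main [Fintype B] (H : Hyp π m s F) : ∃ ε N0 : ℝ, 0 < ε ∧ 0 < N0 ∧
    ∀ (n : Finset X → ℕ) (Nb : ℝ) (D : ℕ), N0 ≤ Nb →
    (∀ T, Blk π m T → |(n T : ℝ) - Nb| ≤ ε * Nb) →
    (∀ x, ∑ T ∈ univ.filter (fun T => Blk π m T ∧ x ∈ T), n T = D) →
    ∃ c : Finset (Finset X) → ℕ, ∀ T, Blk π m T →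
      n T = ∑ P ∈ univ.filter (fun P => Mat π m P ∧ T ∈ P), c P := by
  obtain ⟨C, hC0, hC⟩ := bounded H
  obtain ⟨P0, hP0⟩ := exists_mat H
  have hm0 : 0 < m := by have := H.hm; omega
  have hne : Nonempty X := by
    rw [← Fintype.card_pos_iff, H.hX]
    have := H.hs
    exact Nat.mul_pos (by omega) hm0
  obtain ⟨x0⟩ := hne
  obtain ⟨T0, ⟨hT0P, hx0⟩, -⟩ := hP0.2 x0 (mem_univ _)
  have hT0 : Blk π m T0 := (hP0.1 T0 hT0P).1
  obtain ⟨w, hw⟩ : ∃ w, w = c1 π m T0 := ⟨_, rfl⟩
  have hw1 : 1 ≤ w := by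
    rw [hw]
    exact card_pos.2 ⟨P0, mem_filter.2 ⟨mem_univ _, hP0, hT0P⟩⟩
  have hwT : ∀ T, Blk π m T → c1 π m T = w := fun T hT => by
    rw [hw]; exact le_antisymm (c1_le H hT hT0) (c1_le H hT0 hT)
  have hwR : (1 : ℝ) ≤ w := by exact_mod_cast hw1
  refine ⟨1 / (4 * w * (C + 1)), 2 * w * (1 + C * w), by positivity, by positivity, ?_⟩
  intro n Nb D hNb hn hD
  have hNb0 : 0 < Nb := lt_of_lt_of_le (by positivity) hNb
  obtain ⟨N1, hN1⟩ : ∃ N1 : ℕ, N1 = ⌊Nb / w⌋₊ := ⟨_, rfl⟩
  have hN1a : (N1 : ℝ) ≤ Nb / w := by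
    rw [hN1]; exact Nat.floor_le (by positivity)
  have hN1b : Nb / w < N1 + 1 := by
    rw [hN1]; exact Nat.lt_floor_add_one _
  have hw0 : (0 : ℝ) < w := by linarith
  have hN1a' : (N1 : ℝ) * w ≤ Nb := by rwa [le_div_iff₀ hw0] at hN1a
  have hN1b' : Nb < (N1 + 1) * w := by rwa [div_lt_iff₀ hw0] at hN1b
  set r : Finset X → ℤ := fun T => if Blk π m T then (n T : ℤ) - N1 * w else 0 with hr
  have hdeg : ∀ x : X, ∑ T ∈ univ.filter (fun T => x ∈ T), r T =
      D - N1 * (univ.filter (fun P : Finset (Finset X) => Mat π m P)).card := by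
    intro x
    have e1 : ∑ T ∈ univ.filter (fun T => x ∈ T), r T =
        ∑ T ∈ univ.filter (fun T => Blk π m T ∧ x ∈ T), ((n T : ℤ) - N1 * w) := by
      simp only [hr]
      rw [← sum_filter, filter_filter]
      apply sum_congr _ (fun _ _ => rfl)
      ext T
      simp only [mem_filter, mem_univ, true_and]
      tauto
    have e2 : ∑ T ∈ univ.filter (fun T => Blk π m T ∧ x ∈ T), w =
        (univ.filter (fun P : Finset (Finset X) => Mat π m P)).card := by
      have e3 : ∑ T ∈ univ.filter (fun T => Blk π m T ∧ x ∈ T), w =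
          ∑ T ∈ univ.filter (fun T => Blk π m T ∧ x ∈ T),
            (univ.filter (fun P : Finset (Finset X) => Mat π m P ∧ T ∈ P)).card := by
        refine sum_congr rfl fun T hT => ?_
        rw [← hwT T (mem_filter.1 hT).2.1]
        rfl
      rw [e3]
      have e4 : ∀ T : Finset X, (univ.filter (fun P : Finset (Finset X) => Mat π m P ∧ T ∈ P)).card =
          ∑ P ∈ univ.filter (fun P : Finset (Finset X) => Mat π m P), if T ∈ P then 1 else 0 := by
        intro T
        rw [← card_filter, filter_filter]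
      rw [sum_congr rfl (fun T _ => e4 T), sum_comm, card_eq_sum_ones]
      refine sum_congr rfl fun P hP => ?_
      have hP' := (mem_filter.1 hP).2
      rw [← card_filter, card_eq_one]
      obtain ⟨T, ⟨h1, h2⟩, h3⟩ := hP'.2 x (mem_univ _)
      refine ⟨T, ?_⟩
      ext T'
      simp only [mem_filter, mem_univ, true_and, mem_singleton]
      constructor
      · rintro ⟨⟨h4, h5⟩, h6⟩
        exact h3 T' ⟨h6, h5⟩
      · rintro rfl
        exact ⟨⟨(hP'.1 T' h1).1, h2⟩, h1⟩
    have e5 := hD x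
    rw [e1, sum_sub_distrib, ← mul_sum]
    have e6 : ∑ T ∈ univ.filter (fun T => Blk π m T ∧ x ∈ T), (w : ℤ) =
        (univ.filter (fun P : Finset (Finset X) => Mat π m P)).card := by
      exact_mod_cast e2
    have e7 : ∑ T ∈ univ.filter (fun T => Blk π m T ∧ x ∈ T), (n T : ℤ) = D := by
      exact_mod_cast e5
    rw [e6, e7]
  obtain ⟨cz, hcz1, hcz2⟩ := hC r _ (1 / (4 * w * (C + 1)) * Nb + w)
    (fun T hT => by simp only [hr, if_neg hT]) hdeg (by
      intro T
      simp only [hr]
      by_cases hT : Blk π m T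
      · rw [if_pos hT]
        push_cast
        have h1 := hn T hT
        rw [abs_le] at h1 ⊢
        constructor <;> nlinarith [h1.1, h1.2]
      · rw [if_neg hT]
        simp only [Int.cast_zero, abs_zero]
        positivity)
  have hpos : ∀ P, 0 ≤ (N1 : ℤ) + cz P := by
    intro P
    have h1 := (abs_le.1 (hcz2 P)).1
    have h2 : C * (1 / (4 * w * (C + 1)) * Nb + w) ≤ N1 := by
      have h3 : C * (1 / (4 * w * (C + 1)) * Nb) ≤ Nb / (4 * w) := by
        have e1 : C * (1 / (4 * w * (C + 1)) * Nb) = (C / (C + 1)) * (Nb / (4 * w)) := by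
          field_simp
        rw [e1]
        have e2 : C / (C + 1) ≤ 1 := by
          rw [div_le_one (by linarith)]; linarith
        have e3 : 0 ≤ Nb / (4 * w) := by positivity
        nlinarith
      have h4 : Nb / w ≥ 2 * (1 + C * w) := by
        rw [ge_iff_le, le_div_iff₀ hw0]
        nlinarith
      have h5 : Nb / (4 * w) = (Nb / w) / 4 := by
        field_simp
      rw [h5] at h3
      nlinarith
    have h3 : (0 : ℝ) ≤ (N1 : ℝ) + (cz P : ℝ) := by linarith
    exact_mod_cast h3
  refine ⟨fun P => ((N1 : ℤ) + cz P).toNat, ?_⟩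
  intro T hT
  have h1 : Phi π m cz T = r T := by rw [hcz1]
  rw [Phi_apply] at h1
  have h2 : ((∑ P ∈ univ.filter (fun P => Mat π m P ∧ T ∈ P), ((N1 : ℤ) + cz P).toNat : ℕ) : ℤ) =
      (n T : ℤ) := by
    push_cast
    rw [sum_congr rfl (fun P _ => Int.toNat_of_nonneg (hpos P)), sum_add_distrib, h1, sum_const]
    have h3 : (univ.filter (fun P : Finset (Finset X) => Mat π m P ∧ T ∈ P)).card = w := hwT T hT
    rw [h3]
    simp only [hr, if_pos hT, nsmul_eq_mul]
    ring
  exact_mod_cast h2.symm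

end Pool.Agent.Helper491_Inf.Cone
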