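import Pool.Agent.Helper491_Inf.Sub

/-!
# Infinitely many dimensions
-/

set_option autoImplicit false
set_option linter.unusedSectionVars false

namespace Pool.Agent.Helper491_Inf

open Module Finset Pool.Agent.Helper491_Par NT Classical

/-- Numbers with few coprime residues. -/
theorem exists_totient_small (c : ℕ) (hc : 0 < c) : ∃ P : ℕ, 0 < P ∧ c * P.totient ≤ P := by
  have hns := Nat.Primes.not_summable_one_div
  -- a finite set of primes with a large sum of reciprocals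
  obtain ⟨s, hs⟩ : ∃ s : Finset Nat.Primes, Real.log c ≤ ∑ p ∈ s, (1 / (p : ℝ)) := by
    by_contra hcon
    push Not at hcon
    apply hns
    exact summable_of_sum_le (fun p => by positivity) (fun s => (hcon s).le)
  refine ⟨∏ p ∈ s, (p : ℕ), Finset.prod_pos fun p _ => p.2.pos, ?_⟩
  have h1 : ∀ s : Finset Nat.Primes, ((∏ p ∈ s, (p : ℕ)).totient : ℝ) =
      ∏ p ∈ s, ((p : ℝ) - 1) := by
    intro s
    induction s using Finset.induction_on with
    | empty => simp
    | insert p s hps ih =>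
      rw [prod_insert hps, prod_insert hps, Nat.totient_mul, Nat.totient_prime p.2, Nat.cast_mul, ih,
        Nat.cast_sub p.2.one_le, Nat.cast_one]
      apply Nat.Coprime.prod_right
      intro p' hp'
      rw [Nat.coprime_primes p.2 p'.2]
      intro h
      apply hps
      have : p = p' := Subtype.ext h
      rw [this]
      exact hp'
  have h2 : ∏ p ∈ s, ((p : ℝ) - 1) ≤ (∏ p ∈ s, (p : ℝ)) * Real.exp (-∑ p ∈ s, (1 / (p : ℝ))) := by
    rw [← sum_neg_distrib, Real.exp_sum, ← prod_mul_distrib]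
    apply prod_le_prod
    · intro p _
      have : (1 : ℝ) ≤ (p : ℕ) := by exact_mod_cast p.2.one_le
      linarith
    · intro p _
      have hp : (0 : ℝ) < (p : ℕ) := by exact_mod_cast p.2.pos
      have h3 := Real.add_one_le_exp (-(1 / ((p : ℕ) : ℝ)))
      calc ((p : ℕ) : ℝ) - 1 = (p : ℕ) * (-(1 / ((p : ℕ) : ℝ)) + 1) := by field_simp; ring
        _ ≤ _ := mul_le_mul_of_nonneg_left h3 hp.le
  have hcR : (0 : ℝ) < c := by exact_mod_cast hc
  have h3 : (c : ℝ) * Real.exp (-∑ p ∈ s, (1 / (p : ℝ))) ≤ 1 := by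
    rw [Real.exp_neg, ← div_eq_mul_inv, div_le_one (Real.exp_pos _)]
    calc (c : ℝ) = Real.exp (Real.log c) := (Real.exp_log hcR).symm
      _ ≤ _ := Real.exp_le_exp.2 hs
  have h4 : (c : ℝ) * ((∏ p ∈ s, (p : ℕ)).totient : ℝ) ≤ ((∏ p ∈ s, (p : ℕ) : ℕ) : ℝ) := by
    rw [h1]
    have hpos : (0 : ℝ) ≤ ∏ p ∈ s, (p : ℝ) := prod_nonneg fun p _ => Nat.cast_nonneg _
    calc (c : ℝ) * ∏ p ∈ s, ((p : ℝ) - 1)
        ≤ c * ((∏ p ∈ s, (p : ℝ)) * Real.exp (-∑ p ∈ s, (1 / (p : ℝ)))) :=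
          mul_le_mul_of_nonneg_left h2 hcR.le
      _ = (∏ p ∈ s, (p : ℝ)) * (c * Real.exp (-∑ p ∈ s, (1 / (p : ℝ)))) := by ring
      _ ≤ (∏ p ∈ s, (p : ℝ)) * 1 := mul_le_mul_of_nonneg_left h3 hpos
      _ = _ := by push_cast; rw [mul_one]
  exact_mod_cast h4

/-- The tower of a smooth number. -/
theorem tower_smooth {x P ρ s : ℕ} (hP : 0 < P) (hρ : 0 < ρ)
    (hρx : ∀ p : ℕ, p.Prime → p ∣ ρ → p ≤ x) (hsx : ∀ p : ℕ, p.Prime → p ∣ s → p ≤ x) :
    Tower x P (fun j => P * ρ * (s.primeFactorsList.take j).prod) s.primeFactorsList.length := by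
  have hprime : ∀ p ∈ s.primeFactorsList, p.Prime ∧ p ∣ s := fun p hp =>
    ⟨Nat.prime_of_mem_primeFactorsList hp, Nat.dvd_of_mem_primeFactorsList hp⟩
  have hpos : ∀ j, 0 < (s.primeFactorsList.take j).prod := by
    intro j
    apply List.prod_pos
    intro p hp
    exact (hprime p (List.mem_of_mem_take hp)).1.pos
  refine ⟨?_, ?_⟩
  · intro j hj
    have h1 : (s.primeFactorsList.take (j + 1)).prod =
        (s.primeFactorsList.take j).prod * s.primeFactorsList[j] := by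
      rw [List.take_add_one, List.prod_append]
      simp [List.getElem?_eq_getElem hj]
    obtain ⟨h2, h3⟩ := hprime _ (List.getElem_mem hj)
    simp only [h1]
    refine ⟨⟨s.primeFactorsList[j], by ring⟩, ?_, ?_⟩
    · calc 2 * (P * ρ * (s.primeFactorsList.take j).prod)
          = P * ρ * ((s.primeFactorsList.take j).prod * 2) := by ring
        _ ≤ _ := Nat.mul_le_mul_left _ (Nat.mul_le_mul_left _ h2.two_le)
    · calc P * ρ * ((s.primeFactorsList.take j).prod * s.primeFactorsList[j])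
          ≤ P * ρ * ((s.primeFactorsList.take j).prod * x) :=
            Nat.mul_le_mul_left _ (Nat.mul_le_mul_left _ (hsx _ h2 h3))
        _ = _ := by ring
  · intro j _
    refine ⟨ρ * (s.primeFactorsList.take j).prod, by ring, Nat.mul_pos hρ (hpos j), ?_⟩
    intro p hp hpd
    rcases (hp.dvd_mul).1 hpd with h | h
    · exact hρx p hp h
    · obtain ⟨r, hr, hpr⟩ := (Prime.dvd_prod_iff hp.prime).1 h
      obtain ⟨h2, h3⟩ := hprime r (List.mem_of_mem_take hr)
      have : p = r := (Nat.prime_dvd_prime_iff_eq hp h2).1 hpr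
      rw [this]
      exact hsx r h2 h3

/-- **Dimensions divisible by a suitable number, with a smooth cofactor.** -/
theorem smooth (q k x : ℕ) (hq : 2 ≤ q) (hk : 1 ≤ k) (hx : 2 ≤ x) :
    ∃ ns : ℕ, 0 < ns ∧ k ∣ ns ∧ ∀ s : ℕ, 0 < s → (∀ p : ℕ, p.Prime → p ∣ s → p ≤ x) →
    ∀ (F L : Type) [Field F] [Fintype F] [Field L] [Fintype L] [Algebra F L],
    Fintype.card F = q → finrank F L = ns * s →
    Res k {W : Submodule F L | finrank F W = k} := by
  -- the constants for the divisors of `k`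
  have hc : ∀ d : ℕ, ∃ c : ℕ, 0 < c ∧ (0 < d → d ∣ k → 2 ≤ k / d → ∀ P, 0 < P → c ∣ P →
      c * P.totient ≤ P → ∃ R1 : ℕ, ∀ n0, R1 ≤ n0 → ∃ R2 : ℕ, ∀ (a : ℕ) (n : ℕ → ℕ),
      Tower x P n a → n 0 = n0 → R2 ≤ n a →
      ∀ (F L : Type) [Field F] [Fintype F] [Field L] [Fintype L] [Algebra F L],
      Fintype.card F = q ^ d → finrank F L = n a →
      Res (k / d) {W : Submodule F L | finrank F W = k / d ∧ triv W}) := by
    intro d
    by_cases h : 0 < d ∧ d ∣ k ∧ 2 ≤ k / d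
    · obtain ⟨c, hc0, hc⟩ := tow_main (q ^ d) (k / d) x
        (le_trans hq (Nat.le_self_pow (by omega) q)) h.2.2 hx
      exact ⟨c, hc0, fun _ _ _ => hc⟩
    · exact ⟨1, one_pos, fun h1 h2 h3 => absurd ⟨h1, h2, h3⟩ h⟩
  choose c hc0 hc using hc
  obtain ⟨cc, hcc⟩ : ∃ cc, cc = ∏ d ∈ k.divisors, c d := ⟨_, rfl⟩
  have hcc0 : 0 < cc := by rw [hcc]; exact prod_pos fun d _ => hc0 d
  obtain ⟨P', hP'0, hP'⟩ := exists_totient_small cc hcc0
  have hPd : ∀ d, d ∣ k → (k / d) * cc * P' * d = k * cc * P' := by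
    intro d hd
    have := Nat.div_mul_cancel hd
    calc (k / d) * cc * P' * d = (k / d * d) * cc * P' := by ring
      _ = _ := by rw [this]
  have hR1 : ∀ d : ℕ, ∃ R1 : ℕ, 0 < d → d ∣ k → 2 ≤ k / d → ∀ n0, R1 ≤ n0 → ∃ R2 : ℕ,
      ∀ (a : ℕ) (n : ℕ → ℕ), Tower x ((k / d) * cc * P') n a → n 0 = n0 → R2 ≤ n a →
      ∀ (F L : Type) [Field F] [Fintype F] [Field L] [Fintype L] [Algebra F L],
      Fintype.card F = q ^ d → finrank F L = n a →
      Res (k / d) {W : Submodule F L | finrank F W = k / d ∧ triv W} := by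
    intro d
    by_cases h : 0 < d ∧ d ∣ k ∧ 2 ≤ k / d
    · obtain ⟨h1, h2, h3⟩ := h
      have hdm : d ∈ k.divisors := Nat.mem_divisors.2 ⟨h2, by omega⟩
      have hcd : c d ∣ cc := by rw [hcc]; exact Finset.dvd_prod_of_mem c hdm
      have hle : c d ≤ cc := Nat.le_of_dvd hcc0 hcd
      have hpos : 0 < (k / d) * cc * P' := Nat.mul_pos (Nat.mul_pos (by omega) hcc0) hP'0
      obtain ⟨R1, hR1⟩ := hc d h1 h2 h3 _ hpos
        (hcd.trans (dvd_trans ⟨k / d, by ring⟩ (Dvd.intro _ rfl))) (by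
          have e1 := totient_mul_le P' (k / d * cc)
          calc c d * ((k / d * cc) * P').totient ≤ c d * ((k / d * cc) * P'.totient) :=
                Nat.mul_le_mul_left _ e1
            _ = (k / d * cc) * (c d * P'.totient) := by ring
            _ ≤ (k / d * cc) * (cc * P'.totient) := Nat.mul_le_mul_left _ (Nat.mul_le_mul_right _ hle)
            _ ≤ (k / d * cc) * P' := Nat.mul_le_mul_left _ hP')
      exact ⟨R1, fun _ _ _ => hR1⟩
    · exact ⟨0, fun h1 h2 h3 => absurd ⟨h1, h2, h3⟩ h⟩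
  choose R1 hR1 using hR1
  obtain ⟨e1, he1⟩ : ∃ e1, e1 = ∑ d ∈ k.divisors, R1 d := ⟨_, rfl⟩
  have hR2 : ∀ d : ℕ, ∃ R2 : ℕ, 0 < d → d ∣ k → 2 ≤ k / d →
      ∀ (a : ℕ) (n : ℕ → ℕ), Tower x ((k / d) * cc * P') n a → n 0 = (k / d) * cc * P' * 2 ^ e1 →
      R2 ≤ n a →
      ∀ (F L : Type) [Field F] [Fintype F] [Field L] [Fintype L] [Algebra F L],
      Fintype.card F = q ^ d → finrank F L = n a →
      Res (k / d) {W : Submodule F L | finrank F W = k / d ∧ triv W} := by
    intro d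
    by_cases h : 0 < d ∧ d ∣ k ∧ 2 ≤ k / d
    · obtain ⟨h1, h2, h3⟩ := h
      have hdm : d ∈ k.divisors := Nat.mem_divisors.2 ⟨h2, by omega⟩
      have hle : R1 d ≤ e1 := by
        rw [he1]
        exact single_le_sum (f := R1) (fun _ _ => Nat.zero_le _) hdm
      have hpos : 0 < (k / d) * cc * P' := Nat.mul_pos (Nat.mul_pos (by omega) hcc0) hP'0
      obtain ⟨R2, hR2⟩ := hR1 d h1 h2 h3 ((k / d) * cc * P' * 2 ^ e1)
        (hle.trans ((Nat.lt_pow_self (by norm_num : 1 < 2)).le.trans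
          (Nat.le_mul_of_pos_left _ hpos)))
      exact ⟨R2, fun _ _ _ => hR2⟩
    · exact ⟨0, fun h1 h2 h3 => absurd ⟨h1, h2, h3⟩ h⟩
  choose R2 hR2 using hR2
  obtain ⟨e2, he2⟩ : ∃ e2, e2 = ∑ d ∈ k.divisors, R2 d := ⟨_, rfl⟩
  refine ⟨k * cc * P' * 2 ^ e1 * 2 ^ e2, by positivity, ⟨cc * P' * 2 ^ e1 * 2 ^ e2, by ring⟩, ?_⟩
  intro s hs hsx F L _ _ _ _ _ hcF hfL
  apply res_all (by omega)
  intro E d k' hd hkd
  have hfd : FiniteDimensional F L := Module.Finite.of_finite
  have hd0 : 0 < d := by rw [← hd]; exact finrank_pos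
  have hdk : d ∣ k := ⟨k', hkd⟩
  have hk' : k' = k / d := by rw [hkd]; exact (Nat.mul_div_cancel_left k' hd0).symm
  rcases Nat.lt_or_ge k' 2 with hlt | hge
  · have h1 : k' = 1 := by
      rcases Nat.eq_zero_or_pos k' with h | h
      · rw [h, mul_zero] at hkd; omega
      · omega
    rw [h1]
    exact res_one
  · have hdm : d ∈ k.divisors := Nat.mem_divisors.2 ⟨hdk, by omega⟩
    have hle : R2 d ≤ e2 := by
      rw [he2]
      exact single_le_sum (f := R2) (fun _ _ => Nat.zero_le _) hdm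
    have hpos : 0 < (k / d) * cc * P' := Nat.mul_pos (Nat.mul_pos (by omega) hcc0) hP'0
    have hcE : Fintype.card E = q ^ d := by
      rw [Module.card_eq_pow_finrank (K := F) (V := E), hcF, hd]
    have hprod : ((2 ^ e2 * s).primeFactorsList.take (2 ^ e2 * s).primeFactorsList.length).prod =
        2 ^ e2 * s := by
      rw [List.take_length]
      exact Nat.prod_primeFactorsList (Nat.mul_pos (by positivity) hs).ne'
    have hfE : finrank E L = (k / d) * cc * P' * 2 ^ e1 * (2 ^ e2 * s) := by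
      have h2 := Module.finrank_mul_finrank F E L
      rw [hd, hfL] at h2
      have h3 : d * finrank E L = d * ((k / d) * cc * P' * 2 ^ e1 * (2 ^ e2 * s)) := by
        rw [h2]
        calc k * cc * P' * 2 ^ e1 * 2 ^ e2 * s = (k * cc * P') * (2 ^ e1 * 2 ^ e2 * s) := by ring
          _ = ((k / d) * cc * P' * d) * (2 ^ e1 * 2 ^ e2 * s) := by rw [hPd d hdk]
          _ = _ := by ring
      exact Nat.eq_of_mul_eq_mul_left hd0 h3
    rw [hk']
    have hsmooth2 : ∀ (e p : ℕ), p.Prime → p ∣ 2 ^ e → p ≤ x := by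
      intro e p hp hpd
      have := hp.dvd_of_dvd_pow hpd
      exact (Nat.le_of_dvd (by norm_num) this).trans hx
    apply hR2 d hd0 hdk (by omega) _ _ (tower_smooth (x := x) (P := (k / d) * cc * P') (ρ := 2 ^ e1)
      (s := 2 ^ e2 * s) hpos (by positivity) (hsmooth2 e1) (by
        intro p hp hpd
        rcases (hp.dvd_mul).1 hpd with h | h
        · exact hsmooth2 e2 p hp h
        · exact hsx p hp h))
    · simp
    · simp only [hprod]
      calc R2 d ≤ 2 ^ e2 := hle.trans (Nat.lt_pow_self (by norm_num : 1 < 2)).le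
        _ ≤ 2 ^ e2 * s := Nat.le_mul_of_pos_right _ hs
        _ ≤ _ := Nat.le_mul_of_pos_left _ (Nat.mul_pos hpos (by positivity))
    · exact hcE
    · simp only [hprod]
      exact hfE

end Pool.Agent.Helper491_Inf
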