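import Pool.Agent.Helper491_Inf.Cls
import Pool.Agent.Helper491_Inf.Cone2

/-!
# Families with nearly uniform types can be partitioned into spreads
-/

set_option autoImplicit false
set_option linter.unusedSectionVars false

namespace Pool.Agent.Helper491_Inf

open Module Finset Pool.Agent.Helper491_Par Classical

section

variable {F L : Type} [Field F] [Fintype F] [Field L] [Fintype L] [Algebra F L] {M : ℕ}

/-- The orbits of type `T` in `A`. -/
def OT (M : ℕ) (A : Set (Submodule F L)) (T : Finset (ZMod M)) : Set (Set (Submodule F L)) :=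
  {O | ∃ W ∈ A, ty M W = (T : Set (ZMod M)) ∧ O = OrbH M W}

theorem leftover [NeZero M] (hM : M ∣ Fintype.card L - 1) {k : ℕ} {A : Set (Submodule F L)}
    (hk : ∀ W ∈ A, finrank F W = k) (hg : ∀ W ∈ A, good M W)
    (hinv : ∀ W ∈ A, ∀ g : Lˣ, gW g W ∈ A) {B : Type} (π : ZMod M → B) (m : ℕ)
    (hb : ∀ W ∈ A, ∀ T : Finset (ZMod M), ty M W = (T : Set (ZMod M)) → Cone.Blk π m T)
    (c : Finset (Finset (ZMod M)) → ℕ)
    (hc : ∀ T, Cone.Blk π m T → (OT M A T).ncard =
      ∑ P ∈ univ.filter (fun P => Cone.Mat π m P ∧ T ∈ P), c P) : Res k A := by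
  have he : ∀ T, Cone.Blk π m T → Nonempty ({O // O ∈ OT M A T} ≃
      Σ P : {P // P ∈ univ.filter (fun P => Cone.Mat π m P ∧ T ∈ P)}, Fin (c P.1)) := by
    intro T hT
    apply Finite.card_eq.1
    have h1 : Nat.card {O // O ∈ OT M A T} = (OT M A T).ncard := Nat.card_coe_set_eq _
    rw [h1, hc T hT, Nat.card_eq_fintype_card, Fintype.card_sigma]
    simp only [Fintype.card_fin]
    exact (Finset.sum_coe_sort _ _).symm
  let e := fun T (hT : Cone.Blk π m T) => (he T hT).some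
  let S : (Σ P : Finset (Finset (ZMod M)), Fin (c P)) → Set (Submodule F L) := fun j =>
    {X | ∃ (T : Finset (ZMod M)) (hT : Cone.Blk π m T)
      (h : j.1 ∈ univ.filter (fun P => Cone.Mat π m P ∧ T ∈ P)),
      X ∈ ((e T hT).symm ⟨⟨j.1, h⟩, j.2⟩).1}
  refine ⟨{Y | ∃ j, Cone.Mat π m j.1 ∧ Y = S j}, ?_, ?_⟩
  · rintro _ ⟨j, hj, rfl⟩
    have hch : ∀ T : {T // T ∈ j.1}, ∃ W ∈ A, ty M W = (T.1 : Set (ZMod M)) ∧
        ∃ (hT : Cone.Blk π m T.1) (h : j.1 ∈ univ.filter (fun P => Cone.Mat π m P ∧ T.1 ∈ P)),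
        ((e T.1 hT).symm ⟨⟨j.1, h⟩, j.2⟩).1 = OrbH M W := by
      intro T
      have hT : Cone.Blk π m T.1 := (hj.1 T.1 T.2).1
      have h : j.1 ∈ univ.filter (fun P => Cone.Mat π m P ∧ T.1 ∈ P) :=
        mem_filter.2 ⟨mem_univ _, hj, T.2⟩
      obtain ⟨W, hW, h1, h2⟩ := ((e T.1 hT).symm ⟨⟨j.1, h⟩, j.2⟩).2
      exact ⟨W, hW, h1, hT, h, h2⟩
    choose E hEA hEty hT hfil hEO using hch
    have hSE : S j = {X | ∃ T : {T // T ∈ j.1}, X ∈ OrbH M (E T)} := by
      ext X
      constructor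
      · rintro ⟨T, hT', h, hX⟩
        have hTj : T ∈ j.1 := (mem_filter.1 h).2.2
        refine ⟨⟨T, hTj⟩, ?_⟩
        rw [← hEO ⟨T, hTj⟩]
        exact hX
      · rintro ⟨T, hX⟩
        rw [← hEO T] at hX
        exact ⟨T.1, hT T, hfil T, hX⟩
    constructor
    · rw [hSE]
      apply orb_spread hM E (fun T => hk _ (hEA T)) (fun T => hg _ (hEA T))
      intro z
      obtain ⟨T, ⟨h1, h2⟩, h3⟩ := hj.2 z (mem_univ _)
      refine ⟨⟨T, h1⟩, ?_, ?_⟩
      · show z ∈ ty M (E ⟨T, h1⟩)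
        rw [hEty]
        exact h2
      · intro T' hT'
        rw [hEty] at hT'
        exact Subtype.ext (h3 T'.1 ⟨T'.2, hT'⟩)
    · intro X hX
      rw [hSE] at hX
      obtain ⟨T, g, -, rfl⟩ := hX
      exact hinv _ (hEA T) g
  · intro W hW
    set T : Finset (ZMod M) := (ty M W).toFinset with hTdef
    have hTW : ty M W = (T : Set (ZMod M)) := by rw [hTdef, Set.coe_toFinset]
    have hT : Cone.Blk π m T := hb W hW T hTW
    have hO : OrbH M W ∈ OT M A T := ⟨W, hW, hTW, rfl⟩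
    set j := e T hT ⟨OrbH M W, hO⟩ with hj
    have hjm := (mem_filter.1 j.1.2).2
    refine ⟨S ⟨j.1.1, j.2⟩, ⟨⟨⟨j.1.1, j.2⟩, hjm.1, rfl⟩, T, hT, j.1.2, ?_⟩, ?_⟩
    · have h1 : (e T hT).symm ⟨⟨j.1.1, j.1.2⟩, j.2⟩ = ⟨OrbH M W, hO⟩ := by
        rw [Equiv.symm_apply_eq]
      show W ∈ ((e T hT).symm ⟨⟨j.1.1, j.1.2⟩, j.2⟩).1
      rw [h1]
      exact self_mem_OrbH hM W
    · rintro _ ⟨⟨j', hj', rfl⟩, T', hT', h', hW'⟩
      obtain ⟨W', hW'A, hty', hOW'⟩ := ((e T' hT').symm ⟨⟨j'.1, h'⟩, j'.2⟩).2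
      have hWO : W ∈ OrbH M W' := by
        rw [← hOW']
        exact hW'
      have hTT : T = T' := by
        have h1 := ty_eq hM hWO
        rw [hTW, hty'] at h1
        exact_mod_cast h1
      subst hTT
      have h2 : (e T hT').symm ⟨⟨j'.1, h'⟩, j'.2⟩ = ⟨OrbH M W, hO⟩ := by
        apply Subtype.ext
        exact hOW'.trans (OrbH_eq hM hWO).symm
      rw [Equiv.symm_apply_eq] at h2
      have h3 : (⟨⟨j'.1, h'⟩, j'.2⟩ : Σ P : {P // P ∈ univ.filter (fun P => Cone.Mat π m P ∧ T ∈ P)},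
          Fin (c P.1)) = j := h2
      have h4 := congrArg (fun x : Σ P : {P // P ∈ univ.filter (fun P => Cone.Mat π m P ∧ T ∈ P)},
          Fin (c P.1) => (⟨x.1.1, x.2⟩ : Σ P : Finset (Finset (ZMod M)), Fin (c P))) h3
      have h5 : j' = ⟨j.1.1, j.2⟩ := h4
      rw [h5]

/-- The nonzero elements of a subspace. -/
noncomputable def nz (W : Submodule F L) : Finset L := univ.filter (fun x => x ∈ W ∧ x ≠ 0)

theorem card_nz {W : Submodule F L} {k : ℕ} (hk : finrank F W = k) :
    (nz W).card = Fintype.card F ^ k - 1 := by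
  have h1 : (nz W) = (univ.filter (fun x : L => x ∈ W)).erase 0 := by
    ext x
    simp [nz, and_comm]
  rw [h1, card_erase_of_mem (mem_filter.2 ⟨mem_univ _, W.zero_mem⟩)]
  congr 1
  have h2 : Fintype.card W = Fintype.card F ^ finrank F W := Module.card_eq_pow_finrank
  rw [hk] at h2
  rw [← h2, Fintype.card_subtype]

/-- The number of classes of a good subspace. -/
theorem ty_card (hM : M ∣ Fintype.card L - 1)
    (halg : ∀ l : F, l ≠ 0 → cl M (algebraMap F L l) = 0) {W : Submodule F L} {k : ℕ}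
    (hk : finrank F W = k) (hg : good M W) {T : Finset (ZMod M)} (hT : ty M W = (T : Set (ZMod M))) :
    T.card * (Fintype.card F - 1) = Fintype.card F ^ k - 1 := by
  rw [← card_nz hk]
  have h1 : (nz W).card = ∑ z ∈ T, ((nz W).filter (fun x => cl M x = z)).card := by
    apply card_eq_sum_card_fiberwise
    intro x hx
    obtain ⟨-, hx1, hx2⟩ := mem_filter.1 (mem_coe.1 hx)
    rw [← hT]
    exact ⟨x, hx1, hx2, rfl⟩
  rw [h1]
  have h2 : ∀ z ∈ T, ((nz W).filter (fun x => cl M x = z)).card = Fintype.card F - 1 := by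
    intro z hz
    have hz' : z ∈ ty M W := by rw [hT]; exact hz
    obtain ⟨x0, hx0, hx00, hx0z⟩ := hz'
    rw [← Fintype.card_units, ← card_univ]
    symm
    apply card_bij (fun (l : Fˣ) _ => (l : F) • x0)
    · intro l _
      have hl : algebraMap F L (l : F) ≠ 0 := by rw [Ne, map_eq_zero]; exact l.ne_zero
      rw [mem_filter]
      refine ⟨mem_filter.2 ⟨mem_univ _, W.smul_mem _ hx0, ?_⟩, ?_⟩
      · exact smul_ne_zero l.ne_zero hx00
      · rw [Algebra.smul_def, cl_mul hM hl hx00, halg _ l.ne_zero, zero_add, hx0z]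
    · intro l _ l' _ h
      have := smul_left_injective F hx00 h
      exact Units.ext this
    · intro x hx
      rw [mem_filter] at hx
      obtain ⟨-, hx1, hx2⟩ := mem_filter.1 hx.1
      obtain ⟨l, hl⟩ := hg x0 hx0 x hx1 hx00 hx2 (hx0z.trans hx.2.symm)
      have hl0 : l ≠ 0 := by
        rintro rfl
        rw [zero_smul] at hl
        exact hx2 hl
      exact ⟨Units.mk0 l hl0, mem_univ _, hl.symm⟩
  rw [sum_congr rfl h2, sum_const, smul_eq_mul]

/-- The size of an orbit. -/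
theorem card_OrbH (hM : M ∣ Fintype.card L - 1)
    (halg : ∀ l : F, l ≠ 0 → cl M (algebraMap F L l) = 0) {W : Submodule F L} (hW : W ≠ ⊥)
    (hg : good M W) :
    (OrbH M W).ncard * (Fintype.card F - 1) = Nat.card {g : Lˣ // cl M (g : L) = 0} := by
  obtain ⟨x, hx, hx0⟩ := (Submodule.ne_bot_iff W).1 hW
  set K : Finset Lˣ := univ.filter (fun g => cl M (g : L) = 0) with hK
  have hKc : Nat.card {g : Lˣ // cl M (g : L) = 0} = K.card := by
    rw [Nat.card_eq_fintype_card, Fintype.card_subtype]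
  have hO : (OrbH M W).ncard = (K.image (fun g => gW g W)).card := by
    rw [← Set.ncard_coe_finset]
    congr 1
    ext X
    simp only [coe_image, Set.mem_image, mem_coe, hK, mem_filter, mem_univ, true_and]
    constructor
    · rintro ⟨g, hg, rfl⟩
      exact ⟨g, hg, rfl⟩
    · rintro ⟨g, hg, rfl⟩
      exact ⟨g, hg, rfl⟩
  rw [hO, hKc, card_eq_sum_card_image (fun g => gW g W) K]
  rw [← smul_eq_mul, ← sum_const]
  apply sum_congr rfl
  intro X hX
  obtain ⟨g0, hg0, rfl⟩ := mem_image.1 hX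
  have hg0' : cl M (g0 : L) = 0 := (mem_filter.1 hg0).2
  rw [← Fintype.card_units, ← card_univ]
  apply card_bij (fun (l : Fˣ) _ => g0 * Units.map (algebraMap F L) l)
  · intro l _
    have hl : algebraMap F L (l : F) ≠ 0 := by rw [Ne, map_eq_zero]; exact l.ne_zero
    rw [mem_filter]
    refine ⟨mem_filter.2 ⟨mem_univ _, ?_⟩, ?_⟩
    · rw [Units.val_mul, cl_mul hM g0.ne_zero (Units.ne_zero _), hg0', zero_add]
      exact halg _ l.ne_zero
    · rw [← gW_mul]
      congr 1
      ext y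
      rw [mem_gW]
      constructor
      · rintro ⟨w, hw, rfl⟩
        have : ((Units.map (algebraMap F L : F →* L) l : Lˣ) : L) * w = (l : F) • w := by
          rw [Algebra.smul_def]; rfl
        rw [this]
        exact W.smul_mem _ hw
      · intro hy
        refine ⟨(l : F)⁻¹ • y, W.smul_mem _ hy, ?_⟩
        have : ((Units.map (algebraMap F L : F →* L) l : Lˣ) : L) * ((l : F)⁻¹ • y) =
            (l : F) • ((l : F)⁻¹ • y) := by
          rw [Algebra.smul_def (l : F)]; rfl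
        rw [this, smul_smul, mul_inv_cancel₀ l.ne_zero, one_smul]
  · intro l _ l' _ h
    have h1 := mul_left_cancel h
    have h2 := congrArg (fun u : Lˣ => (u : L)) h1
    exact Units.ext ((algebraMap F L).injective h2)
  · intro g hg'
    obtain ⟨hg1, hg2⟩ := mem_filter.1 hg'
    have hg1' : cl M (g : L) = 0 := (mem_filter.1 hg1).2
    rw [gW_eq_iff] at hg2
    have h1 : ((g0⁻¹ * g : Lˣ) : L) * x ∈ W := by
      have : ((g0⁻¹ * g : Lˣ) : L) * x ∈ gW (g0⁻¹ * g) W := mem_gW.2 ⟨x, hx, rfl⟩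
      rwa [hg2] at this
    have hcl : cl M ((g0⁻¹ * g : Lˣ) : L) = 0 := by
      rw [Units.val_mul, cl_mul hM (g0⁻¹).ne_zero g.ne_zero, cl_inv hM, hg0', hg1']
      simp
    obtain ⟨l, hl⟩ := hg x hx _ h1 hx0 (mul_ne_zero (Units.ne_zero _) hx0) (by
      rw [cl_mul hM (Units.ne_zero _) hx0, hcl, zero_add])
    rw [Algebra.smul_def] at hl
    have h2 := mul_right_cancel₀ hx0 hl
    have hl0 : l ≠ 0 := by
      rintro rfl
      rw [map_zero] at h2
      exact (Units.ne_zero _) h2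
    refine ⟨Units.mk0 l hl0, mem_univ _, ?_⟩
    have h3 : Units.map (algebraMap F L : F →* L) (Units.mk0 l hl0) = g0⁻¹ * g := by
      ext
      exact h2.symm
    show g0 * Units.map (algebraMap F L : F →* L) (Units.mk0 l hl0) = g
    rw [h3]
    group

/-- The number of subspaces of a given type. -/
theorem card_type (hM : M ∣ Fintype.card L - 1)
    (halg : ∀ l : F, l ≠ 0 → cl M (algebraMap F L l) = 0) {A : Set (Submodule F L)}
    (hne : ∀ W ∈ A, W ≠ ⊥) (hg : ∀ W ∈ A, good M W) (hinv : ∀ W ∈ A, ∀ g : Lˣ, gW g W ∈ A)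
    (T : Finset (ZMod M)) :
    {W ∈ A | ty M W = (T : Set (ZMod M))}.ncard * (Fintype.card F - 1) =
      (OT M A T).ncard * Nat.card {g : Lˣ // cl M (g : L) = 0} := by
  set w : Finset (Submodule F L) := univ.filter (fun W => W ∈ A ∧ ty M W = (T : Set (ZMod M))) with hw
  have h1 : {W ∈ A | ty M W = (T : Set (ZMod M))}.ncard = w.card := by
    rw [← Set.ncard_coe_finset]
    congr 1
    ext W
    simp [hw]
  have h2 : (OT M A T).ncard = (w.image (OrbH M)).card := by
    rw [← Set.ncard_coe_finset]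
    congr 1
    ext O
    simp only [coe_image, Set.mem_image, mem_coe, hw, mem_filter, mem_univ, true_and]
    constructor
    · rintro ⟨W, h1, h2, rfl⟩
      exact ⟨W, ⟨h1, h2⟩, rfl⟩
    · rintro ⟨W, ⟨h1, h2⟩, rfl⟩
      exact ⟨W, h1, h2, rfl⟩
  rw [h1, h2, card_eq_sum_card_image (OrbH M) w, sum_mul, ← smul_eq_mul, ← sum_const]
  apply sum_congr rfl
  intro O hO
  obtain ⟨W, hW, rfl⟩ := mem_image.1 hO
  obtain ⟨-, hWA, hWT⟩ := mem_filter.1 hW
  rw [← card_OrbH hM halg (hne W hWA) (hg W hWA)]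
  congr 1
  rw [← Set.ncard_coe_finset]
  congr 1
  ext X
  rw [mem_coe, mem_filter, hw, mem_filter]
  constructor
  · rintro ⟨-, h⟩
    rw [← h]
    exact self_mem_OrbH hM X
  · intro hX
    refine ⟨⟨mem_univ _, ?_, ?_⟩, OrbH_eq hM hX⟩
    · obtain ⟨g, -, rfl⟩ := hX
      exact hinv W hWA g
    · rw [ty_eq hM hX, hWT]

/-- Translates of a type occur equally often. -/
theorem card_shift_le (hM : M ∣ Fintype.card L - 1) {A : Set (Submodule F L)}
    (hinv : ∀ W ∈ A, ∀ g : Lˣ, gW g W ∈ A) (T : Finset (ZMod M)) (t : ZMod M) :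
    {W ∈ A | ty M W = (T : Set (ZMod M))}.ncard ≤
      {W ∈ A | ty M W = ((T.map (Equiv.addRight t).toEmbedding : Finset (ZMod M)) :
        Set (ZMod M))}.ncard := by
  obtain ⟨g, hg⟩ := cl_surj hM t
  apply Set.ncard_le_ncard_of_injOn (fun W => gW g W)
  · rintro W ⟨hW, hT⟩
    refine ⟨hinv W hW g, ?_⟩
    ext z
    rw [mem_ty_gW hM, hg, hT]
    simp only [mem_coe, mem_map, Equiv.coe_toEmbedding, Equiv.coe_addRight]
    constructor
    · intro h
      exact ⟨_, h, by ring⟩
    · rintro ⟨y, hy, rfl⟩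
      rw [add_sub_cancel_right]
      exact hy
  · intro W _ W' _ h
    have := congrArg (gW g⁻¹) h
    simp only [gW_mul] at this
    simpa [gW_one] using this

end

/-- The reduction map. -/
def red {M' M : ℕ} (h : M' ∣ M) : ZMod M →+* ZMod M' := ZMod.castHom h (ZMod M')

theorem red_cl {L : Type} [Field L] [Fintype L] {M' M : ℕ} (h : M' ∣ M) (x : L) :
    red h (cl M x) = cl M' x := by
  unfold red cl
  rw [map_natCast]

theorem hyp_red {m M M' : ℕ} (hMM : M' ∣ M) (hm : 2 ≤ m) (hmM : m ∣ M) (hM' : 3 * m ≤ M')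
    (hM0 : 0 < M) [NeZero M] : Cone.Hyp (red hMM : ZMod M → ZMod M') m (M / m) (M / M') := by
  have hM'0 : 0 < M' := by omega
  have : NeZero M' := ⟨hM'0.ne'⟩
  have hsurj : Function.Surjective (red hMM) := ZMod.castHom_surjective hMM
  obtain ⟨f, hf⟩ := hMM
  have hf0 : 0 < f := by
    rcases Nat.eq_zero_or_pos f with h | h
    · rw [h, mul_zero] at hf; omega
    · exact h
  have hdiv : M / M' = f := by rw [hf]; exact Nat.mul_div_cancel_left f hM'0
  have hfib : ∀ b : ZMod M', (univ.filter (fun x : ZMod M => red ⟨f, hf⟩ x = b)).card = f := by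
    intro b
    have h1 : ∀ b' : ZMod M', (univ.filter (fun x : ZMod M => red ⟨f, hf⟩ x = b')).card =
        (univ.filter (fun x : ZMod M => red ⟨f, hf⟩ x = b)).card := fun b' =>
      AddMonoidHom.card_fiber_eq_of_mem_range ((red ⟨f, hf⟩ : ZMod M →+* ZMod M') : ZMod M →+ ZMod M')
        (hsurj b') (hsurj b)
    have h2 : (univ : Finset (ZMod M)).card =
        ∑ b' : ZMod M', (univ.filter (fun x : ZMod M => red ⟨f, hf⟩ x = b')).card :=
      card_eq_sum_card_fiberwise fun x _ => mem_coe.2 (mem_univ _)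
    rw [sum_congr rfl (fun b' _ => h1 b'), sum_const, card_univ, card_univ, ZMod.card, ZMod.card,
      smul_eq_mul] at h2
    exact (Nat.eq_of_mul_eq_mul_left hM'0 (hf.symm.trans h2)).symm
  refine ⟨hm, by rw [hdiv]; exact hf0, ?_, ?_, ?_, ?_⟩
  · rw [ZMod.card, Nat.div_mul_cancel hmM]
  · intro b
    rw [hdiv]
    exact (congrArg Finset.card (Finset.ext fun x => by simp only [mem_filter])).trans (hfib b)
  · rw [hdiv]
    obtain ⟨s, hs⟩ := hmM
    have h1 : M / m = s := by rw [hs]; exact Nat.mul_div_cancel_left s (by omega)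
    rw [h1]
    have h2 : m * (3 * f) ≤ m * s := by
      rw [← hs, hf]
      nlinarith
    have h3 := Nat.le_of_mul_le_mul_left h2 (by omega)
    omega
  · have h1 : univ.image (red ⟨f, hf⟩ : ZMod M → ZMod M') = univ := by
      ext z
      simp only [mem_image, mem_univ, true_and, iff_true]
      exact hsurj z
    have h2 : (univ.image (red ⟨f, hf⟩ : ZMod M → ZMod M')).card = M' := by
      rw [h1, card_univ, ZMod.card]
    have h3 : 3 * m ≤ (univ.image (red ⟨f, hf⟩ : ZMod M → ZMod M')).card := by rw [h2]; exact hM'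
    exact h3.trans (le_of_eq (congrArg Finset.card (Finset.ext fun x => by simp only [mem_image])))

/-- **The tier lemma.** -/
theorem tier (m M M' : ℕ) (hMM : M' ∣ M) (hm : 2 ≤ m) (hmM : m ∣ M) (hM' : 3 * m ≤ M')
    (hM0 : 0 < M) : ∃ ε N0 : ℝ, 0 < ε ∧ 0 < N0 ∧ ∀ (F L : Type) [Field F] [Fintype F] [Field L]
    [Fintype L] [Algebra F L] (k : ℕ) (A : Set (Submodule F L)),
    M * (Fintype.card F - 1) ∣ Fintype.card L - 1 → 0 < k →
    m * (Fintype.card F - 1) = Fintype.card F ^ k - 1 →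
    (∀ W ∈ A, finrank F W = k) → (∀ W ∈ A, good M' W) → (∀ W ∈ A, ∀ g : Lˣ, gW g W ∈ A) →
    ∀ R : ℝ, N0 * Fintype.card L ≤ R →
    (∀ T : Finset (ZMod M), Cone.Blk (red hMM : ZMod M → ZMod M') m T →
      |({W ∈ A | ty M W = (T : Set (ZMod M))}.ncard : ℝ) - R| ≤ ε * R) → Res k A := by
  have : NeZero M := ⟨hM0.ne'⟩
  have hM'0 : 0 < M' := by omega
  have : NeZero M' := ⟨hM'0.ne'⟩
  obtain ⟨ε, N0, hε, hN0, hmain⟩ := Cone.main (hyp_red hMM hm hmM hM' hM0)
  refine ⟨ε, N0, hε, hN0, ?_⟩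
  intro F L _ _ _ _ _ k A hML hk0 hmk hk hg' hinv R hR hw
  have hML' : M ∣ Fintype.card L - 1 := (Dvd.intro _ rfl).trans hML
  have hML'' : M' ∣ Fintype.card L - 1 := hMM.trans hML'
  have halg : ∀ l : F, l ≠ 0 → cl M (algebraMap F L l) = 0 := fun l hl => cl_alg hML hl
  have hgood : ∀ W ∈ A, good M W := by
    intro W hW x hx y hy hx0 hy0 hxy
    apply hg' W hW x hx y hy hx0 hy0
    rw [← red_cl hMM, ← red_cl hMM, hxy]
  have hne : ∀ W ∈ A, W ≠ ⊥ := by
    rintro W hW rfl
    have := hk _ hW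
    rw [finrank_bot] at this
    omega
  have hq : 0 < Fintype.card F - 1 := by
    have : 1 < Fintype.card F := Fintype.one_lt_card
    omega
  have hblk : ∀ W ∈ A, ∀ T : Finset (ZMod M), ty M W = (T : Set (ZMod M)) →
      Cone.Blk (red hMM : ZMod M → ZMod M') m T := by
    intro W hW T hT
    refine ⟨?_, ?_⟩
    · have h1 := ty_card hML' halg (hk W hW) (hgood W hW) hT
      rw [← hmk] at h1
      exact Nat.eq_of_mul_eq_mul_right hq h1
    · intro z hz z' hz' h
      rw [← hT] at hz hz'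
      obtain ⟨x, hx, hx0, rfl⟩ := hz
      obtain ⟨y, hy, hy0, rfl⟩ := hz'
      rw [red_cl, red_cl] at h
      obtain ⟨l, rfl⟩ := hg' W hW x hx y hy hx0 hy0 h
      have hl0 : l ≠ 0 := by
        rintro rfl
        rw [zero_smul] at hy0
        exact hy0 rfl
      have hl : algebraMap F L l ≠ 0 := by rwa [Ne, map_eq_zero]
      rw [Algebra.smul_def, cl_mul hML' hl hx0, halg l hl0, zero_add]
  -- sizes
  have hcard := fun T => card_type hML' halg hne hgood hinv T
  have hkerpos : 0 < Nat.card {g : Lˣ // cl M (g : L) = 0} := by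
    have h1 := card_ker hML'
    rcases Nat.eq_zero_or_pos (Nat.card {g : Lˣ // cl M (g : L) = 0}) with h | h
    · rw [h, zero_mul] at h1
      have : 1 < Fintype.card L := Fintype.one_lt_card
      omega
    · exact h
  obtain ⟨κ, hκ⟩ : ∃ κ, κ = Nat.card {g : Lˣ // cl M (g : L) = 0} := ⟨_, rfl⟩
  have hκpos : 0 < κ := by rw [hκ]; exact hkerpos
  have hκL : κ ≤ Fintype.card L := by
    have h1 := card_ker hML'
    rw [← hκ] at h1
    have : κ * 1 ≤ κ * M := Nat.mul_le_mul_left _ hM0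
    omega
  simp only [← hκ] at hcard
  -- translation invariance
  have hshift : ∀ (T : Finset (ZMod M)) (t : ZMod M),
      (OT M A T).ncard = (OT M A (T.map (Equiv.addRight t).toEmbedding)).ncard := by
    intro T t
    have h1 := card_shift_le hML' hinv T t
    have h2 := card_shift_le hML' hinv (T.map (Equiv.addRight t).toEmbedding) (-t)
    have h3 : (T.map (Equiv.addRight t).toEmbedding).map (Equiv.addRight (-t)).toEmbedding = T := by
      ext z
      simp
    rw [h3] at h2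
    have h4 := le_antisymm h1 h2
    have h5 := hcard T
    have h6 := hcard (T.map (Equiv.addRight t).toEmbedding)
    rw [← h4, h5] at h6
    exact Nat.eq_of_mul_eq_mul_right hκpos h6
  have hdeg : ∀ x : ZMod M, ∑ T ∈ univ.filter (fun T =>
      Cone.Blk (red hMM : ZMod M → ZMod M') m T ∧ x ∈ T), (OT M A T).ncard =
      ∑ T ∈ univ.filter (fun T => Cone.Blk (red hMM : ZMod M → ZMod M') m T ∧ (0 : ZMod M) ∈ T),
        (OT M A T).ncard := by
    intro x
    have hB : ∀ (T : Finset (ZMod M)) (t : ZMod M), Cone.Blk (red hMM : ZMod M → ZMod M') m T →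
        Cone.Blk (red hMM : ZMod M → ZMod M') m (T.map (Equiv.addRight t).toEmbedding) := by
      intro T t hT
      refine ⟨by rw [card_map]; exact hT.1, ?_⟩
      intro z hz z' hz' h
      obtain ⟨y, hy, rfl⟩ := mem_map.1 (mem_coe.1 hz)
      obtain ⟨y', hy', rfl⟩ := mem_map.1 (mem_coe.1 hz')
      simp only [Equiv.coe_toEmbedding, Equiv.coe_addRight, map_add, add_left_inj] at h ⊢
      exact hT.2 (mem_coe.2 hy) (mem_coe.2 hy') h
    refine Finset.sum_nbij' (fun T => T.map (Equiv.addRight (-x)).toEmbedding)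
      (fun T => T.map (Equiv.addRight x).toEmbedding) ?_ ?_ ?_ ?_ ?_
    · intro T hT
      obtain ⟨-, h1, h2⟩ := mem_filter.1 hT
      refine mem_filter.2 ⟨mem_univ _, hB T _ h1, mem_map.2 ⟨x, h2, by simp⟩⟩
    · intro T hT
      obtain ⟨-, h1, h2⟩ := mem_filter.1 hT
      refine mem_filter.2 ⟨mem_univ _, hB T _ h1, mem_map.2 ⟨0, h2, by simp⟩⟩
    · intro T _
      ext z
      simp
    · intro T _
      ext z
      simp
    · intro T _
      exact hshift T (-x)
  -- apply the decomposition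
  obtain ⟨D, hD⟩ : ∃ D, D = ∑ T ∈ univ.filter (fun T =>
      Cone.Blk (red hMM : ZMod M → ZMod M') m T ∧ (0 : ZMod M) ∈ T), (OT M A T).ncard := ⟨_, rfl⟩
  rw [← hD] at hdeg
  obtain ⟨c, hc⟩ := hmain (fun T => (OT M A T).ncard) (R * (Fintype.card F - 1 : ℕ) / κ) D (by
      have hκR : (0 : ℝ) < κ := by exact_mod_cast hκpos
      rw [le_div_iff₀ hκR]
      have h1 : (κ : ℝ) ≤ Fintype.card L := by exact_mod_cast hκL
      have h2 : (1 : ℝ) ≤ (Fintype.card F - 1 : ℕ) := by exact_mod_cast hq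
      have h3 : 0 ≤ R := le_trans (by positivity) hR
      calc N0 * κ ≤ N0 * Fintype.card L := mul_le_mul_of_nonneg_left h1 hN0.le
        _ ≤ R := hR
        _ ≤ R * (Fintype.card F - 1 : ℕ) := le_mul_of_one_le_right h3 h2) (by
      intro T hT
      have hκR : (0 : ℝ) < κ := by exact_mod_cast hκpos
      have h1 : ((OT M A T).ncard : ℝ) = ({W ∈ A | ty M W = (T : Set (ZMod M))}.ncard : ℝ) *
          (Fintype.card F - 1 : ℕ) / κ := by
        rw [eq_div_iff hκR.ne']
        have := hcard T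
        exact_mod_cast this.symm
      rw [h1, ← sub_div, ← sub_mul, abs_div, abs_mul, Nat.abs_cast, Nat.abs_cast]
      have h2 := hw T hT
      rw [← mul_div_assoc, ← mul_assoc]
      apply div_le_div_of_nonneg_right _ hκR.le
      exact mul_le_mul_of_nonneg_right h2 (Nat.cast_nonneg _)) (by
      intro x
      convert hdeg x)
  exact leftover hML' hk hgood hinv _ m hblk c (fun T hT => by
    convert hc T hT)

end Pool.Agent.Helper491_Inf
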