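import Pool.Agent.Helper491_Inf.Cnt
import Pool.Agent.Helper491_Inf.Tier

/-!
# Counting subspaces by their bases
-/

set_option autoImplicit false
set_option linter.unusedSectionVars false

namespace Pool.Agent.Helper491_Inf

open Module Finset Pool.Agent.Helper491_Par Pool.Agent.Helper491_Par.Equi Classical

open scoped LinearAlgebra.Projectivization

section

variable {F L : Type} [Field F] [Fintype F] [Field L] [Fintype L] [Algebra F L] {k M : ℕ}

/-- The span. -/
abbrev sp (F : Type) {L : Type} [Field F] [Field L] [Algebra F L] {k : ℕ} (x : Fin k → L) :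
    Submodule F L := Submodule.span F (Set.range x)

theorem frames {A : Set (Submodule F L)} (hk : ∀ W ∈ A, finrank F W = k) :
    {x : Fin k → L | LinearIndependent F x ∧ sp F x ∈ A}.ncard = BB F k * A.ncard := by
  set SA : Finset (Submodule F L) := univ.filter (fun W => W ∈ A) with hSA
  set X : Finset (Fin k → L) := univ.filter (fun x => LinearIndependent F x ∧ sp F x ∈ A) with hX
  have h1 : {x : Fin k → L | LinearIndependent F x ∧ sp F x ∈ A}.ncard = X.card := by
    rw [← Set.ncard_coe_finset]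
    congr 1
    ext x
    simp [hX]
  have h2 : A.ncard = SA.card := by
    rw [← Set.ncard_coe_finset]
    congr 1
    ext W
    simp [hSA]
  have h3 : X.card = ∑ W ∈ SA, (X.filter (fun x => sp F x = W)).card := by
    apply card_eq_sum_card_fiberwise
    intro x hx
    obtain ⟨-, -, h⟩ := mem_filter.1 (mem_coe.1 hx)
    exact mem_coe.2 (mem_filter.2 ⟨mem_univ _, h⟩)
  rw [h1, h2, h3, mul_comm, ← smul_eq_mul, ← sum_const]
  apply sum_congr rfl
  intro W hW
  have hWA : W ∈ A := (mem_filter.1 hW).2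
  have hWk : finrank F W = k := hk W hWA
  have hBB : Nat.card {s : Fin k → W // LinearIndependent F s} = BB F k := by
    rw [card_linearIndependent (by rw [hWk]), hWk]
    rfl
  rw [← hBB, ← Fintype.card_coe, ← Nat.card_eq_fintype_card]
  symm
  have hli : ∀ s : {s : Fin k → W // LinearIndependent F s},
      LinearIndependent F (fun i => (s.1 i : L)) := fun s =>
    s.2.map' W.subtype (Submodule.ker_subtype W)
  have hspan : ∀ s : {s : Fin k → W // LinearIndependent F s}, sp F (fun i => (s.1 i : L)) = W := by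
    intro s
    apply Submodule.eq_of_le_of_finrank_eq
    · rw [Submodule.span_le]
      rintro _ ⟨i, rfl⟩
      exact (s.1 i).2
    · have h4 := finrank_span_eq_card (hli s)
      rw [Fintype.card_fin] at h4
      rw [hWk]
      exact h4
  apply Nat.card_eq_of_bijective (fun s : {s : Fin k → W // LinearIndependent F s} =>
    (⟨fun i => (s.1 i : L), mem_filter.2 ⟨mem_filter.2 ⟨mem_univ _, hli s, by rw [hspan s]; exact hWA⟩,
      hspan s⟩⟩ : {x // x ∈ X.filter (fun x => sp F x = W)}))
  constructor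
  · intro s s' h
    apply Subtype.ext
    funext i
    apply Subtype.ext
    exact congrFun (congrArg Subtype.val h) i
  · rintro ⟨x, hx⟩
    obtain ⟨hx1, hx2⟩ := mem_filter.1 hx
    obtain ⟨-, hx3, -⟩ := mem_filter.1 hx1
    have hmem : ∀ i, x i ∈ W := fun i => by
      rw [← hx2]
      exact Submodule.subset_span ⟨i, rfl⟩
    refine ⟨⟨fun i => ⟨x i, hmem i⟩, ?_⟩, rfl⟩
    exact LinearIndependent.of_comp W.subtype hx3

theorem lf_sum (b : Fin k → F) (x : Fin k → L) : lf b x = ∑ i, b i • x i := by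
  unfold lf
  exact sum_congr rfl fun i _ => (Algebra.smul_def _ _).symm

theorem lf_ne {x : Fin k → L} (h : LinearIndependent F x) {b : Fin k → F} (hb : b ≠ 0) :
    lf b x ≠ 0 := by
  intro h0
  rw [lf_sum] at h0
  exact hb (funext (Fintype.linearIndependent_iff.1 h b h0))

theorem lf_mk (b : Fin k → F) (hb : b ≠ 0) (x : Fin k → L) : ∃ u : F, u ≠ 0 ∧
    lf (Projectivization.mk F b hb).rep x = algebraMap F L u * lf b x := by
  obtain ⟨u, hu⟩ := Projectivization.exists_smul_eq_mk_rep F b hb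
  refine ⟨u, u.ne_zero, ?_⟩
  rw [← hu]
  exact lf_smul (u : F) b x

theorem li_iff {x : Fin k → L} :
    LinearIndependent F x ↔ ∀ a : ℙ F (Fin k → F), lf a.rep x ≠ 0 := by
  constructor
  · exact fun h a => lf_ne h a.rep_nonzero
  · intro h
    rw [Fintype.linearIndependent_iff]
    intro b hb
    by_contra hcon
    push Not at hcon
    obtain ⟨i, hi⟩ := hcon
    have hb0 : b ≠ 0 := fun h => hi (by rw [h]; rfl)
    obtain ⟨u, -, hu⟩ := lf_mk b hb0 x
    apply h (Projectivization.mk F b hb0)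
    rw [hu, lf_sum, hb, mul_zero]

theorem mem_sp {x : Fin k → L} {y : L} : y ∈ sp F x ↔ ∃ b : Fin k → F, y = lf b x := by
  rw [Submodule.mem_span_range_iff_exists_fun]
  constructor
  · rintro ⟨c, hc⟩
    exact ⟨c, by rw [lf_sum, hc]⟩
  · rintro ⟨c, hc⟩
    exact ⟨c, by rw [hc, lf_sum]⟩

/-- The pattern. -/
noncomputable def pat (M : ℕ) (x : Fin k → L) : ℙ F (Fin k → F) → ZMod M := fun a => cl M (lf a.rep x)

theorem cl_lf (hM : M ∣ Fintype.card L - 1)
    (halg : ∀ l : F, l ≠ 0 → cl M (algebraMap F L l) = 0) {x : Fin k → L}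
    (h : LinearIndependent F x) {b : Fin k → F} (hb : b ≠ 0) :
    cl M (lf b x) = pat M x (Projectivization.mk F b hb) := by
  obtain ⟨u, hu0, hu⟩ := lf_mk b hb x
  have hu' : algebraMap F L u ≠ 0 := by rwa [Ne, map_eq_zero]
  unfold pat
  rw [hu, cl_mul hM hu' (lf_ne h hb), halg u hu0, zero_add]

theorem lf_inj {x : Fin k → L} (h : LinearIndependent F x) {b b' : Fin k → F}
    (hbb : lf b x = lf b' x) : b = b' := by
  by_contra hne
  have h1 : lf (b - b') x = 0 := by rw [lf_sub, hbb, sub_self]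
  exact lf_ne h (sub_ne_zero.2 hne) h1

theorem good_iff (hM : M ∣ Fintype.card L - 1)
    (halg : ∀ l : F, l ≠ 0 → cl M (algebraMap F L l) = 0) {x : Fin k → L}
    (h : LinearIndependent F x) :
    good M (sp F x) ↔ Function.Injective (pat (F := F) M x) := by
  constructor
  · intro hg a b hab
    obtain ⟨l, hl⟩ := hg _ (mem_sp.2 ⟨a.rep, rfl⟩) _ (mem_sp.2 ⟨b.rep, rfl⟩) (lf_ne h a.rep_nonzero)
      (lf_ne h b.rep_nonzero) hab
    have h1 : b.rep = l • a.rep := by
      apply lf_inj h
      rw [hl, lf_smul, Algebra.smul_def]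
    rw [← Projectivization.mk_rep a, ← Projectivization.mk_rep b]
    symm
    rw [Projectivization.mk_eq_mk_iff' F _ _ b.rep_nonzero a.rep_nonzero]
    exact ⟨l, h1.symm⟩
  · intro hinj y hy y' hy' hy0 hy0' hyy
    obtain ⟨b, rfl⟩ := mem_sp.1 hy
    obtain ⟨b', rfl⟩ := mem_sp.1 hy'
    have hz : lf (0 : Fin k → F) x = 0 := by rw [lf_sum]; simp
    have hb : b ≠ 0 := by
      rintro rfl
      exact hy0 hz
    have hb' : b' ≠ 0 := by
      rintro rfl
      exact hy0' hz
    rw [cl_lf hM halg h hb, cl_lf hM halg h hb'] at hyy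
    have h1 := hinj hyy
    obtain ⟨u, hu⟩ := (Projectivization.mk_eq_mk_iff' F b' b hb' hb).1 h1.symm
    refine ⟨u, ?_⟩
    rw [← hu, lf_smul, Algebra.smul_def]

theorem ty_iff (hM : M ∣ Fintype.card L - 1)
    (halg : ∀ l : F, l ≠ 0 → cl M (algebraMap F L l) = 0) {x : Fin k → L}
    (h : LinearIndependent F x) : ty M (sp F x) = Set.range (pat (F := F) M x) := by
  ext z
  constructor
  · rintro ⟨y, hy, hy0, rfl⟩
    obtain ⟨b, rfl⟩ := mem_sp.1 hy
    have hz : lf (0 : Fin k → F) x = 0 := by rw [lf_sum]; simp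
    have hb : b ≠ 0 := by
      rintro rfl
      exact hy0 hz
    exact ⟨_, (cl_lf hM halg h hb).symm⟩
  · rintro ⟨a, rfl⟩
    exact ⟨lf a.rep x, mem_sp.2 ⟨_, rfl⟩, lf_ne h a.rep_nonzero, rfl⟩

end

/-- **The number of subspaces with patterns in a set.** -/
theorem count (m : ℕ) : ∃ C : ℝ, 0 ≤ C ∧ ∀ (M k : ℕ) (F L : Type) [Field F] [Fintype F] [Field L]
    [Fintype L] [Algebra F L], M ∣ Fintype.card L - 1 → Nat.card (ℙ F (Fin k → F)) = m →
    ∀ (S : Set (ℙ F (Fin k → F) → ZMod M)) (A : Set (Submodule F L)), (∀ W ∈ A, finrank F W = k) →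
    (∀ x : Fin k → L, LinearIndependent F x → (sp F x ∈ A ↔ pat M x ∈ S)) →
    |(M : ℝ) ^ m * (BB F k * A.ncard) - S.ncard * (Fintype.card L : ℝ) ^ k| ≤
      S.ncard * (C * (M : ℝ) ^ (m + 5) * ((Fintype.card L : ℝ) ^ k / Real.sqrt (Fintype.card L))) := by
  obtain ⟨C, hC0, hC⟩ := cnt m
  refine ⟨C, hC0, ?_⟩
  intro M k F L _ _ _ _ _ hM hm S A hA hS
  have hM0 := pos_of_dvd hM
  have : NeZero M := ⟨hM0.ne'⟩
  have : Fintype (ℙ F (Fin k → F)) := Fintype.ofFinite _
  rw [Nat.card_eq_fintype_card] at hm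
  set SF : Finset (ℙ F (Fin k → F) → ZMod M) := univ.filter (fun κ => κ ∈ S) with hSF
  have hSc : S.ncard = SF.card := by
    rw [← Set.ncard_coe_finset]
    congr 1
    ext κ
    simp [hSF]
  have h1 := frames (F := F) (L := L) hA
  have h2 : {x : Fin k → L | LinearIndependent F x ∧ sp F x ∈ A}.ncard =
      ∑ κ ∈ SF, {x : Fin k → L | ∀ a : ℙ F (Fin k → F), lf a.rep x ≠ 0 ∧
        cl M (lf a.rep x) = κ a}.ncard := by
    set X : Finset (Fin k → L) := univ.filter (fun x => LinearIndependent F x ∧ sp F x ∈ A) with hX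
    have h3 : {x : Fin k → L | LinearIndependent F x ∧ sp F x ∈ A}.ncard = X.card := by
      rw [← Set.ncard_coe_finset]
      congr 1
      ext x
      simp [hX]
    have h4 : X.card = ∑ κ ∈ SF, (X.filter (fun x => pat M x = κ)).card := by
      apply card_eq_sum_card_fiberwise
      intro x hx
      obtain ⟨-, hx1, hx2⟩ := mem_filter.1 (mem_coe.1 hx)
      exact mem_coe.2 (mem_filter.2 ⟨mem_univ _, (hS x hx1).1 hx2⟩)
    rw [h3, h4]
    apply sum_congr rfl
    intro κ hκ
    rw [← Set.ncard_coe_finset]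
    congr 1
    ext x
    simp only [coe_filter, hX, mem_filter, mem_univ, true_and, Set.mem_setOf_eq]
    constructor
    · rintro ⟨⟨hx1, -⟩, rfl⟩ a
      exact ⟨li_iff.1 hx1 a, rfl⟩
    · intro hx
      have hx1 : LinearIndependent F x := li_iff.2 fun a => (hx a).1
      have hx2 : pat M x = κ := funext fun a => (hx a).2
      refine ⟨⟨hx1, ?_⟩, hx2⟩
      rw [hS x hx1, hx2]
      exact (mem_filter.1 hκ).2
  have h3 : ∀ κ ∈ SF, |(M : ℝ) ^ m * ({x : Fin k → L | ∀ a : ℙ F (Fin k → F), lf a.rep x ≠ 0 ∧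
        cl M (lf a.rep x) = κ a}.ncard : ℝ) - (Fintype.card L : ℝ) ^ k| ≤
      C * (M : ℝ) ^ (m + 5) * ((Fintype.card L : ℝ) ^ k / Real.sqrt (Fintype.card L)) := by
    intro κ _
    apply hC M k F L (ℙ F (Fin k → F)) hM hm (fun a => a.rep) (fun a => a.rep_nonzero)
    intro a b hab c hc
    apply hab
    rw [← Projectivization.mk_rep a, ← Projectivization.mk_rep b,
      Projectivization.mk_eq_mk_iff' F _ _ (Projectivization.rep_nonzero a)
        (Projectivization.rep_nonzero b)]
    exact ⟨c, hc.symm⟩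
  have h4 : (BB F k * A.ncard : ℝ) = ∑ κ ∈ SF, ({x : Fin k → L | ∀ a : ℙ F (Fin k → F),
      lf a.rep x ≠ 0 ∧ cl M (lf a.rep x) = κ a}.ncard : ℝ) := by
    rw [h2] at h1
    exact_mod_cast h1.symm
  rw [h4, mul_sum, hSc]
  have h5 : (SF.card : ℝ) * (Fintype.card L : ℝ) ^ k = ∑ κ ∈ SF, (Fintype.card L : ℝ) ^ k := by
    rw [sum_const, nsmul_eq_mul]
  rw [h5, ← sum_sub_distrib]
  refine (abs_sum_le_sum_abs _ _).trans ((sum_le_sum h3).trans (le_of_eq ?_))
  rw [sum_const, nsmul_eq_mul]

section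

variable {F L : Type} [Field F] [Fintype F] [Field L] [Fintype L] [Algebra F L] {k M : ℕ}

/-- **Few subspaces are not good.** -/
theorem bad_card (hM : M ∣ Fintype.card L - 1)
    (halg : ∀ l : F, l ≠ 0 → cl M (algebraMap F L l) = 0) (m : ℕ)
    (hm : Nat.card (ℙ F (Fin k → F)) = m) :
    BB F k * {W : Submodule F L | finrank F W = k ∧ ¬ good M W}.ncard * M ≤
      m ^ 2 * Fintype.card L ^ k := by
  have : Fintype (ℙ F (Fin k → F)) := Fintype.ofFinite _
  rw [Nat.card_eq_fintype_card] at hm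
  rw [← frames (F := F) (L := L) (A := {W : Submodule F L | finrank F W = k ∧ ¬ good M W})
    (fun W hW => hW.1)]
  set K : Finset Lˣ := univ.filter (fun g => cl M (g : L) = 0) with hK
  have hKc : K.card * M = Fintype.card L - 1 := by
    rw [← card_ker hM, Nat.card_eq_fintype_card, Fintype.card_subtype]
  set cf : (ℙ F (Fin k → F) × ℙ F (Fin k → F)) × Lˣ → Fin k → L := fun p i =>
    algebraMap F L (p.1.1.rep i) - p.2 * algebraMap F L (p.1.2.rep i) with hcf
  have hcf0 : ∀ p : (ℙ F (Fin k → F) × ℙ F (Fin k → F)) × Lˣ, p.1.1 ≠ p.1.2 → cf p ≠ 0 := by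
    rintro ⟨⟨a, b⟩, h⟩ hab h0
    have h1 : ∀ i, algebraMap F L (a.rep i) = h * algebraMap F L (b.rep i) := fun i =>
      sub_eq_zero.1 (congrFun h0 i)
    obtain ⟨i, hi⟩ : ∃ i, b.rep i ≠ 0 := by
      by_contra hcon
      push Not at hcon
      exact b.rep_nonzero (funext hcon)
    have hi' : algebraMap F L (b.rep i) ≠ 0 := by rwa [Ne, map_eq_zero]
    have h2 : (h : L) = algebraMap F L (a.rep i / b.rep i) := by
      rw [map_div₀, h1 i]
      field_simp
    apply hab
    show a = b
    rw [← Projectivization.mk_rep a, ← Projectivization.mk_rep b,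
      Projectivization.mk_eq_mk_iff' F _ _ (Projectivization.rep_nonzero a)
        (Projectivization.rep_nonzero b)]
    refine ⟨a.rep i / b.rep i, ?_⟩
    funext j
    apply (algebraMap F L).injective
    rw [h1 j, h2, Pi.smul_apply, smul_eq_mul, map_mul]
  set I : Finset ((ℙ F (Fin k → F) × ℙ F (Fin k → F)) × Lˣ) :=
    (univ.filter (fun p : ℙ F (Fin k → F) × ℙ F (Fin k → F) => p.1 ≠ p.2)) ×ˢ K with hI
  have hsub : {x : Fin k → L | LinearIndependent F x ∧
      sp F x ∈ {W : Submodule F L | finrank F W = k ∧ ¬ good M W}} ⊆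
      ((I.biUnion (fun p => univ.filter (fun x : Fin k → L => lf (cf p) x = 0)) :
        Finset (Fin k → L)) : Set (Fin k → L)) := by
    rintro x ⟨hx, -, hbad⟩
    rw [good_iff hM halg hx] at hbad
    unfold Function.Injective at hbad
    push Not at hbad
    obtain ⟨a, b, hab, hne⟩ := hbad
    have ha := lf_ne hx a.rep_nonzero
    have hb := lf_ne hx b.rep_nonzero
    rw [mem_coe, mem_biUnion]
    refine ⟨⟨⟨a, b⟩, Units.mk0 _ (div_ne_zero ha hb)⟩, ?_, ?_⟩
    · rw [hI, mem_product, mem_filter, hK, mem_filter]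
      refine ⟨⟨mem_univ _, hne⟩, mem_univ _, ?_⟩
      rw [Units.val_mk0, cl_div hM ha hb]
      exact sub_eq_zero.2 hab
    · rw [mem_filter]
      refine ⟨mem_univ _, ?_⟩
      have : lf (cf ⟨⟨a, b⟩, Units.mk0 _ (div_ne_zero ha hb)⟩) x =
          lf a.rep x - (lf a.rep x / lf b.rep x) * lf b.rep x := by
        conv_rhs => rw [lf, lf.eq_def b.rep x, mul_sum, ← sum_sub_distrib]
        unfold lf
        refine sum_congr rfl fun i _ => ?_
        simp only [hcf, Units.val_mk0, Algebra.algebraMap_self, RingHom.id_apply]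
        unfold lf
        ring
      rw [this]
      field_simp
      ring
  have h1 := (Set.ncard_le_ncard hsub (Finset.finite_toSet _)).trans
    (le_of_eq (Set.ncard_coe_finset _))
  have h2 := h1.trans card_biUnion_le
  have hQ : 0 < Fintype.card L := Fintype.card_pos
  have h3 : Fintype.card L * {x : Fin k → L | LinearIndependent F x ∧
      sp F x ∈ {W : Submodule F L | finrank F W = k ∧ ¬ good M W}}.ncard ≤
      I.card * Fintype.card L ^ k := by
    refine (Nat.mul_le_mul_left _ h2).trans ?_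
    rw [mul_sum]
    rw [sum_congr rfl (fun p hp => card_zero (F := L) (L := L) (hcf0 p
      (mem_filter.1 (mem_product.1 hp).1).2)), sum_const, smul_eq_mul]
  have h4 : I.card ≤ m ^ 2 * K.card := by
    rw [hI, card_product]
    apply Nat.mul_le_mul_right
    refine (card_le_univ _).trans ?_
    rw [Fintype.card_prod, hm, sq]
  have h5 : Fintype.card L * ({x : Fin k → L | LinearIndependent F x ∧
      sp F x ∈ {W : Submodule F L | finrank F W = k ∧ ¬ good M W}}.ncard * M) ≤
      Fintype.card L * (m ^ 2 * Fintype.card L ^ k) := by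
    calc _ = (Fintype.card L * {x : Fin k → L | LinearIndependent F x ∧
      sp F x ∈ {W : Submodule F L | finrank F W = k ∧ ¬ good M W}}.ncard) * M := by ring
      _ ≤ (m ^ 2 * K.card * Fintype.card L ^ k) * M :=
          Nat.mul_le_mul_right _ (h3.trans (Nat.mul_le_mul_right _ h4))
      _ = (m ^ 2 * Fintype.card L ^ k) * (K.card * M) := by ring
      _ ≤ (m ^ 2 * Fintype.card L ^ k) * Fintype.card L := by
          apply Nat.mul_le_mul_left
          rw [hKc]
          exact Nat.sub_le _ _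
      _ = _ := by ring
  exact Nat.le_of_mul_le_mul_left h5 hQ

/-- The order of an element fixing a subspace. -/
theorem pow_of_fix {W : Submodule F L} (hk : finrank F W = k) {g : Lˣ} (hg : gW g W = W) :
    g ^ (Fintype.card F ^ k - 1) = 1 := by
  have h1 : ∏ w ∈ nz W, w ≠ 0 := Finset.prod_ne_zero_iff.2 fun w hw => (mem_filter.1 hw).2.2
  have hmem : ∀ (h : Lˣ), gW h W = W → ∀ w ∈ nz W, (h : L) * w ∈ nz W := by
    intro h hh w hw
    obtain ⟨-, hw1, hw2⟩ := mem_filter.1 hw
    refine mem_filter.2 ⟨mem_univ _, ?_, mul_ne_zero h.ne_zero hw2⟩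
    have : (h : L) * w ∈ gW h W := mem_gW.2 ⟨w, hw1, rfl⟩
    rwa [hh] at this
  have hg' : gW g⁻¹ W = W := by
    conv_lhs => rw [← hg]
    rw [gW_mul]
    simp [gW_one]
  have h2 : ∏ w ∈ nz W, ((g : L) * w) = ∏ w ∈ nz W, w := by
    apply Finset.prod_nbij' (fun w => (g : L) * w) (fun w => ((g⁻¹ : Lˣ) : L) * w)
    · exact fun w hw => hmem g hg w hw
    · exact fun w hw => hmem g⁻¹ hg' w hw
    · intro w _
      simp
    · intro w _
      simp
    · intro w _
      rfl
  rw [prod_mul_distrib, prod_const, card_nz hk] at h2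
  have h3 : (g : L) ^ (Fintype.card F ^ k - 1) = 1 := by
    apply mul_right_cancel₀ h1
    rw [h2, one_mul]
  ext
  rw [Units.val_pow_eq_pow_val, h3, Units.val_one]

/-- **Few subspaces have a nontrivial stabiliser.** -/
theorem nontriv_card (hk0 : 0 < k) :
    BB F k * {W : Submodule F L | finrank F W = k ∧ ¬ triv W}.ncard * Fintype.card L ≤
      Fintype.card F ^ (2 * k) * Fintype.card L ^ k := by
  rw [← frames (F := F) (L := L) (A := {W : Submodule F L | finrank F W = k ∧ ¬ triv W})
    (fun W hW => hW.1)]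
  set K : Finset Lˣ := univ.filter (fun g => g ^ (Fintype.card F ^ k - 1) = 1 ∧
    ∀ l : F, (g : L) ≠ algebraMap F L l) with hK
  have hqk : 0 < Fintype.card F ^ k - 1 := by
    have h1 : 1 < Fintype.card F := Fintype.one_lt_card
    have h2 : 1 < Fintype.card F ^ k := Nat.one_lt_pow hk0.ne' h1
    omega
  have hKc : K.card ≤ Fintype.card F ^ k := by
    have h1 : K ⊆ univ.filter (fun g : Lˣ => g ^ (Fintype.card F ^ k - 1) = 1) := by
      intro g hg
      exact mem_filter.2 ⟨mem_univ _, (mem_filter.1 hg).2.1⟩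
    have h2 := IsCyclic.card_pow_eq_one_le (α := Lˣ) hqk
    have h3 := card_le_card h1
    have h4 : (univ.filter (fun g : Lˣ => g ^ (Fintype.card F ^ k - 1) = 1)).card ≤
        Fintype.card F ^ k - 1 := by
      convert h2
    omega
  set i0 : Fin k := ⟨0, hk0⟩ with hi0
  set cf : (Fin k → F) × Lˣ → Fin k → L := fun p i =>
    algebraMap F L (p.1 i) - if i = i0 then (p.2 : L) else 0 with hcf
  set I : Finset ((Fin k → F) × Lˣ) := univ ×ˢ K with hI
  have hsub : {x : Fin k → L | LinearIndependent F x ∧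
      sp F x ∈ {W : Submodule F L | finrank F W = k ∧ ¬ triv W}} ⊆
      ((I.biUnion (fun p => univ.filter (fun x : Fin k → L => lf (cf p) x = 0)) :
        Finset (Fin k → L)) : Set (Fin k → L)) := by
    rintro x ⟨hx, hxk, hbad⟩
    unfold triv at hbad
    push Not at hbad
    obtain ⟨g, hg, hgne⟩ := hbad
    have h1 : (g : L) * x i0 ∈ sp F x := by
      have : (g : L) * x i0 ∈ gW g (sp F x) :=
        mem_gW.2 ⟨x i0, Submodule.subset_span ⟨i0, rfl⟩, rfl⟩
      rwa [hg] at this
    obtain ⟨c, hc⟩ := mem_sp.1 h1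
    rw [mem_coe, mem_biUnion]
    refine ⟨⟨c, g⟩, ?_, ?_⟩
    · rw [hI, mem_product, hK, mem_filter]
      exact ⟨mem_univ _, mem_univ _, pow_of_fix hxk hg, hgne⟩
    · rw [mem_filter]
      refine ⟨mem_univ _, ?_⟩
      have : lf (cf ⟨c, g⟩) x = lf c x - (g : L) * x i0 := by
        unfold lf
        simp only [hcf, Algebra.algebraMap_self, RingHom.id_apply, sub_mul, sum_sub_distrib]
        congr 1
        rw [Finset.sum_eq_single i0]
        · rw [if_pos rfl]
        · intro j _ hj
          rw [if_neg hj, zero_mul]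
        · intro h; exact absurd (mem_univ _) h
      rw [this, hc, sub_self]
  have h1 := (Set.ncard_le_ncard hsub (Finset.finite_toSet _)).trans
    (le_of_eq (Set.ncard_coe_finset _))
  have h2 := h1.trans card_biUnion_le
  have hcf0 : ∀ p ∈ I, cf p ≠ 0 := by
    rintro ⟨c, g⟩ hp h0
    have hg := (mem_filter.1 (mem_product.1 hp).2).2.2
    have h3 := congrFun h0 i0
    simp only [hcf, if_true, Pi.zero_apply] at h3
    exact hg (c i0) (sub_eq_zero.1 h3).symm
  rw [mul_comm]
  refine (Nat.mul_le_mul_left _ h2).trans ?_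
  rw [mul_sum, sum_congr rfl (fun p hp => card_zero (F := L) (L := L) (hcf0 p hp)), sum_const,
    smul_eq_mul]
  apply Nat.mul_le_mul_right
  rw [hI, card_product, card_univ, Fintype.card_fun, Fintype.card_fin]
  calc Fintype.card F ^ k * K.card ≤ Fintype.card F ^ k * Fintype.card F ^ k :=
        Nat.mul_le_mul_left _ hKc
    _ = _ := by rw [two_mul, pow_add]

end

end Pool.Agent.Helper491_Inf
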