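import Pool.Agent.Helper491_Inf.Assm

/-!
# The subspaces with trivial stabiliser can be partitioned into spreads: assembly
-/

set_option autoImplicit false
set_option linter.unusedSectionVars false

namespace Pool.Agent.Helper491_Inf

open Module Finset Pool.Agent.Helper491_Par Pool.Agent.Helper491_Par.Equi Classical

open scoped LinearAlgebra.Projectivization

theorem nt_le {bb nt Q q2k Qk Mm ε b : ℝ} (hbb : 0 < bb) (hQ : 0 < Q) (hQk : 0 < Qk) (hMm : 0 < Mm)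
    (hε : 0 < ε) (hb : 1 ≤ b) (h : bb * nt * Q ≤ q2k * Qk) (h2 : 3 * q2k * Mm / ε ≤ Q) :
    nt ≤ ε / 3 * (b * Qk / (Mm * bb)) := by
  have h3 : 3 * q2k * Mm ≤ Q * ε := (div_le_iff₀ hε).1 h2
  have h4 : nt * (3 * Mm * bb) * Q ≤ ε * Qk * Q := by
    calc nt * (3 * Mm * bb) * Q = (3 * Mm) * (bb * nt * Q) := by ring
      _ ≤ (3 * Mm) * (q2k * Qk) := mul_le_mul_of_nonneg_left h (by positivity)
      _ = (3 * q2k * Mm) * Qk := by ring
      _ ≤ (Q * ε) * Qk := mul_le_mul_of_nonneg_right h3 hQk.le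
      _ = _ := by ring
  have h5 := le_of_mul_le_mul_right h4 hQ
  have h6 : ε / 3 * (b * Qk / (Mm * bb)) = (ε * b * Qk) / (3 * Mm * bb) := by field_simp
  rw [h6, le_div_iff₀ (by positivity)]
  refine h5.trans ?_
  have : ε * Qk * 1 ≤ ε * Qk * b := mul_le_mul_of_nonneg_left hb (by positivity)
  nlinarith

theorem U_le {bb u Q c2 Qk Qk1 Mm ε b sy : ℝ} (hbb : 0 < bb) (hQ : 0 < Q) (hQk1 : 0 < Qk1)
    (hMm : 0 < Mm) (hε : 0 < ε) (hb : 1 ≤ b) (hsy : 0 < sy) (hQQ : Qk = Qk1 * Q)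
    (h : u ≤ 2 * (c2 * Qk1) / sy * Q) (h2 : 6 * c2 * Mm * bb / ε ≤ sy) :
    u ≤ ε / 3 * (b * Qk / (Mm * bb)) := by
  have h3 : 6 * c2 * Mm * bb ≤ sy * ε := (div_le_iff₀ hε).1 h2
  have h4 : u * (3 * Mm * bb) ≤ ε * Qk := by
    calc u * (3 * Mm * bb) ≤ (2 * (c2 * Qk1) / sy * Q) * (3 * Mm * bb) :=
          mul_le_mul_of_nonneg_right h (by positivity)
      _ = (6 * c2 * Mm * bb) * (Qk1 * Q / sy) := by field_simp; ring
      _ ≤ (sy * ε) * (Qk1 * Q / sy) := mul_le_mul_of_nonneg_right h3 (by positivity)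
      _ = ε * Qk := by rw [hQQ]; field_simp
  have h6 : ε / 3 * (b * Qk / (Mm * bb)) = (ε * b * Qk) / (3 * Mm * bb) := by field_simp
  rw [h6, le_div_iff₀ (by positivity)]
  refine h4.trans ?_
  have hQk : 0 < Qk := by rw [hQQ]; positivity
  have : ε * Qk * 1 ≤ ε * Qk * b := mul_le_mul_of_nonneg_left hb (by positivity)
  nlinarith

theorem R_ge {bb Q Qk Mm N b : ℝ} (hbb : 0 < bb) (hQ : 0 < Q) (hMm : 0 < Mm)
    (hb : 1 ≤ b) (hQQ : Q * Q ≤ Qk) (h : N * Mm * bb ≤ Q) : N * Q ≤ b * Qk / (Mm * bb) := by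
  rw [le_div_iff₀ (by positivity)]
  calc N * Q * (Mm * bb) = (N * Mm * bb) * Q := by ring
    _ ≤ Q * Q := mul_le_mul_of_nonneg_right h hQ.le
    _ ≤ Qk := hQQ
    _ ≤ b * Qk := by
      have : 0 < Qk := lt_of_lt_of_le (by positivity) hQQ
      nlinarith

theorem K_le {K ε Q : ℝ} (hε : 0 < ε) (hQ : 0 < Q) (h : (3 * K / ε) ^ 2 ≤ Q) :
    K / Real.sqrt Q ≤ ε / 3 := by
  have h1 : 3 * K / ε ≤ Real.sqrt Q := Real.le_sqrt_of_sq_le h
  have h2 : 0 < Real.sqrt Q := Real.sqrt_pos.2 hQ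
  rw [div_le_iff₀ h2]
  rw [div_le_iff₀ hε] at h1
  linarith

theorem assemble (q k m M0 : ℕ) (hq : 2 ≤ q) (hk : 2 ≤ k) (hmq : m * (q - 1) = q ^ k - 1)
    (hm2 : 2 ≤ m) (hM0 : 3 * m ≤ M0) :
    ∃ Cs Y1 : ℕ, 0 < Cs ∧ ∀ Mg, Y1 ≤ Mg → m ∣ Mg → Nat.Coprime Mg M0 → ∃ Q1 : ℕ,
    ∀ (F L : Type) [Field F] [Fintype F] [Field L] [Fintype L] [Algebra F L], Fintype.card F = q →
    Q1 ≤ Fintype.card L → ∀ (a : ℕ) (y Mt B : ℕ → ℕ), y 0 = Mg → (∀ j ≤ a, 4 ^ j * y 0 ≤ y j) →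
    (∀ j ≤ a, y j ∣ Mt j) → (∀ j ≤ a, Mt j * (q - 1) ∣ Fintype.card L - 1) →
    Mt a * (q - 1) = Fintype.card L - 1 → Mg * M0 ∣ Mt a → m * M0 ∣ Mt a →
    (∀ j ≤ a, ∀ p e : ℕ, p.Prime → p ^ e ∣ Mt j → p ^ e ≤ B j) → (∀ j ≤ a, 1 ≤ B j) →
    (∀ j ≤ a, (Cs * (m * M0 * B (min (j + 1) a) ^ (m ^ 2))) ^ (2 * (m + 6)) ≤ y j) →
    Res k {W : Submodule F L | finrank F W = k ∧ triv W} := by
  have hM0pos : 0 < M0 := by omega
  have hmpos : 0 < m := by omega
  have hMfpos : 0 < m * M0 := Nat.mul_pos hmpos hM0pos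
  obtain ⟨C, hC0, hC1, hC2⟩ := counts m
  obtain ⟨ε0, N0, hε0, hN0, htier0⟩ := tier m (m * M0) M0 (dvd_mul_left M0 m) hm2
    (dvd_mul_right m M0) hM0 hMfpos
  obtain ⟨bb, hbb⟩ : ∃ bb : ℕ, bb = ∏ i : Fin k, (q ^ k - q ^ (i : ℕ)) := ⟨_, rfl⟩
  have hbbpos : 0 < bb := by
    rw [hbb]
    apply Finset.prod_pos
    intro i _
    have := Nat.pow_lt_pow_right (show 1 < q by omega) i.2
    omega
  have hbbR : (0 : ℝ) < bb := by exact_mod_cast hbbpos
  have hqR : (0 : ℝ) < q := by exact_mod_cast (show 0 < q by omega)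
  have hmR : (0 : ℝ) < m := by exact_mod_cast hmpos
  obtain ⟨c2, hc2⟩ : ∃ c2 : ℝ, c2 = q * (m : ℝ) ^ 2 := ⟨_, rfl⟩
  have hc2pos : 0 < c2 := by rw [hc2]; positivity
  obtain ⟨Mf, hMf⟩ : ∃ Mf : ℝ, Mf = ((m * M0 : ℕ) : ℝ) ^ m := ⟨_, rfl⟩
  have hMfR : (0 : ℝ) < ((m * M0 : ℕ) : ℝ) := by exact_mod_cast hMfpos
  have hMfRpos : 0 < Mf := by rw [hMf]; positivity
  obtain ⟨w0, hw0⟩ : ∃ w0 : ℝ, w0 = 8 * c2 * bb + 6 * c2 * Mf * bb / ε0 := ⟨_, rfl⟩
  have hw0pos : 0 < w0 := by rw [hw0]; positivity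
  refine ⟨⌈2 * C⌉₊ + 4 * q ^ (2 * k) + 1, ⌈w0 ^ 2⌉₊ + 3 * m + 1, by omega, ?_⟩
  intro Mg hMgY hmMg hcoMg
  have hMgpos : 0 < Mg := by omega
  obtain ⟨ε1, N1, hε1, hN1, htier1⟩ := tier m Mg Mg (dvd_refl Mg) hm2 hmMg (by omega) hMgpos
  have hJ := noninj_pos hm2 hM0pos
  obtain ⟨J, hJe⟩ : ∃ J, J = {τ : Fin m → ZMod M0 | ¬ Function.Injective τ}.ncard := ⟨_, rfl⟩
  rw [← hJe] at hJ
  obtain ⟨Mh, hMh⟩ : ∃ Mh : ℝ, Mh = ((Mg * M0 : ℕ) : ℝ) ^ m := ⟨_, rfl⟩
  have hMhpos' : 0 < Mg * M0 := Nat.mul_pos hMgpos hM0pos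
  have hMhR : (0 : ℝ) < ((Mg * M0 : ℕ) : ℝ) := by exact_mod_cast hMhpos'
  have hMhpos : 0 < Mh := by rw [hMh]; positivity
  obtain ⟨x1, hx1⟩ : ∃ x : ℝ, x = (3 * (C * ((m * M0 : ℕ) : ℝ) ^ (m + 5)) / ε0) ^ 2 := ⟨_, rfl⟩
  obtain ⟨x2, hx2⟩ : ∃ x : ℝ, x = 3 * (q : ℝ) ^ (2 * k) * Mf / ε0 := ⟨_, rfl⟩
  obtain ⟨x3, hx3⟩ : ∃ x : ℝ, x = N0 * Mf * bb := ⟨_, rfl⟩
  obtain ⟨x4, hx4⟩ : ∃ x : ℝ, x = (3 * (C * ((Mg * M0 : ℕ) : ℝ) ^ (m + 5)) / ε1) ^ 2 := ⟨_, rfl⟩
  obtain ⟨x5, hx5⟩ : ∃ x : ℝ, x = 3 * (q : ℝ) ^ (2 * k) * Mh / ε1 := ⟨_, rfl⟩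
  obtain ⟨x6, hx6⟩ : ∃ x : ℝ, x = N1 * Mh * bb := ⟨_, rfl⟩
  have hx1' : 0 ≤ x1 := by rw [hx1]; positivity
  have hx2' : 0 ≤ x2 := by rw [hx2]; positivity
  have hx3' : 0 ≤ x3 := by rw [hx3]; positivity
  have hx4' : 0 ≤ x4 := by rw [hx4]; positivity
  have hx5' : 0 ≤ x5 := by rw [hx5]; positivity
  have hx6' : 0 ≤ x6 := by rw [hx6]; positivity
  refine ⟨⌈x1 + x2 + x3 + x4 + x5 + x6⌉₊, ?_⟩
  intro F L _ _ _ _ _ hcardF hQ1 a y Mt B hy0 hy4 hyMt hMtq hMta hMgM0 hmM0 hB hB1 hlev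
  -- basic facts
  have hBBe : BB F k = bb := by
    rw [hbb, BB, hcardF]
  have hm : Nat.card (ℙ F (Fin k → F)) = m := by
    have h1 := Projectivization.card F (Fin k → F)
    rw [Nat.card_eq_fintype_card (α := F), Nat.card_eq_fintype_card (α := Fin k → F),
      Fintype.card_fun, Fintype.card_fin, hcardF, ← hmq] at h1
    exact (Nat.eq_of_mul_eq_mul_right (by omega) h1).symm
  obtain ⟨Q, hQ⟩ : ∃ Q : ℝ, Q = (Fintype.card L : ℝ) := ⟨_, rfl⟩
  have hQ0 : 0 < Q := by rw [hQ]; exact_mod_cast Fintype.card_pos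
  have hQ1' : 1 ≤ Q := by rw [hQ]; exact_mod_cast (Fintype.card_pos : 0 < Fintype.card L)
  have hQx : x1 + x2 + x3 + x4 + x5 + x6 ≤ Q := by
    rw [hQ]
    exact (Nat.le_ceil _).trans (by exact_mod_cast hQ1)
  obtain ⟨Qk1, hQk1⟩ : ∃ x : ℝ, x = Q ^ (k - 1) := ⟨_, rfl⟩
  have hQk1pos : 0 < Qk1 := by rw [hQk1]; positivity
  have hQk : Q ^ k = Qk1 * Q := by
    rw [hQk1, ← pow_succ]
    congr 1
    omega
  have hQQ : Q * Q ≤ Q ^ k := by
    rw [hQk]
    apply mul_le_mul_of_nonneg_right _ hQ0.le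
    rw [hQk1]
    calc Q = Q ^ 1 := (pow_one _).symm
      _ ≤ Q ^ (k - 1) := pow_le_pow_right₀ hQ1' (by omega)
  have hQkpos : 0 < Q ^ k := by positivity
  have hfac : (1 : ℝ) ≤ m.factorial := by exact_mod_cast Nat.factorial_pos m
  have hsQ : 0 < Real.sqrt Q := Real.sqrt_pos.2 hQ0
  have hQL1 : 1 < Fintype.card L := Fintype.one_lt_card
  -- the sets
  set NT : Set (Submodule F L) := {W : Submodule F L | finrank F W = k ∧ ¬ triv W} with hNT
  set A0 : Set (Submodule F L) := {W : Submodule F L | finrank F W = k ∧ triv W ∧ good M0 W} with hA0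
  set A1 : Set (Submodule F L) := {W : Submodule F L | finrank F W = k ∧ triv W ∧ ¬ good M0 W ∧
    good Mg W} with hA1
  set AR : Set (Submodule F L) := {W : Submodule F L | finrank F W = k ∧ triv W ∧ ¬ good M0 W ∧
    ¬ good Mg W} with hAR
  have hMta' : Mt a ∣ Fintype.card L - 1 := Dvd.intro _ hMta
  have hM0d : M0 ∣ Fintype.card L - 1 := (Dvd.intro_left _ rfl).trans (hmM0.trans hMta')
  have hMgd : Mg ∣ Fintype.card L - 1 := (Dvd.intro _ rfl).trans (hMgM0.trans hMta')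
  have hqMt : ∀ b, b ∣ Mt a → b * (Fintype.card F - 1) ∣ Fintype.card L - 1 := by
    intro b hb
    rw [← hMta, hcardF]
    exact Nat.mul_dvd_mul_right hb _
  have hgW : ∀ (M : ℕ) (W : Submodule F L) (g : Lˣ), M ∣ Fintype.card L - 1 →
      (good M (gW g W) ↔ good M W) := by
    intro M W g hM
    constructor
    · intro h
      have := good_gW hM h g⁻¹
      rw [gW_mul] at this
      simpa [gW_one] using this
    · exact fun h => good_gW hM h g
  have hA0inv : ∀ W ∈ A0, ∀ g : Lˣ, gW g W ∈ A0 := by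
    rintro W ⟨h1, h2, h3⟩ g
    exact ⟨by rw [finrank_gW, h1], triv_gW h2 g, (hgW _ _ _ hM0d).2 h3⟩
  have hA1inv : ∀ W ∈ A1, ∀ g : Lˣ, gW g W ∈ A1 := by
    rintro W ⟨h1, h2, h3, h4⟩ g
    exact ⟨by rw [finrank_gW, h1], triv_gW h2 g, fun h => h3 ((hgW _ _ _ hM0d).1 h),
      (hgW _ _ _ hMgd).2 h4⟩
  have hARinv : ∀ W ∈ AR, ∀ g : Lˣ, gW g W ∈ AR := by
    rintro W ⟨h1, h2, h3, h4⟩ g
    exact ⟨by rw [finrank_gW, h1], triv_gW h2 g, fun h => h3 ((hgW _ _ _ hM0d).1 h),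
      fun h => h4 ((hgW _ _ _ hMgd).1 h)⟩
  have hnt := nontriv_card (F := F) (L := L) (k := k) (by omega)
  have hntR : (bb : ℝ) * NT.ncard * Q ≤ (q : ℝ) ^ (2 * k) * Q ^ k := by
    rw [← hNT, hcardF, hBBe] at hnt
    rw [hQ]
    exact_mod_cast hnt
  -- the square root
  have hy0R : w0 ^ 2 ≤ (y 0 : ℝ) := by
    rw [hy0]
    refine (Nat.le_ceil _).trans ?_
    exact_mod_cast (show ⌈w0 ^ 2⌉₊ ≤ Mg by omega)
  obtain ⟨sy, hsy⟩ : ∃ s : ℝ, s = Real.sqrt (y 0) := ⟨_, rfl⟩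
  have hsyw : w0 ≤ sy := by rw [hsy]; exact Real.le_sqrt_of_sq_le hy0R
  have hsypos : 0 < sy := lt_of_lt_of_le hw0pos hsyw
  have hw1 : 8 * c2 * bb ≤ sy := by
    have : 0 ≤ 6 * c2 * Mf * bb / ε0 := by positivity
    linarith [hw0 ▸ hsyw]
  have hw2 : 6 * c2 * Mf * bb / ε0 ≤ sy := by
    have : 0 ≤ 8 * c2 * bb := by positivity
    linarith [hw0 ▸ hsyw]
  -- the rare orbits
  obtain ⟨U, hUA, hUinv, hUc, hUres⟩ := rare (k := k) (m := m) (a := a) (y := y) (c := c2 * Qk1)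
    (V := Q ^ (k - 1) / (4 * BB F k)) (AR := AR) (A0 := A0)
    (fun W hW => hW.1) (fun W hW => hW.2.1) hARinv (fun W hW => hW.1) (fun W hW => hW.2.1) hA0inv
    (fun W h1 h2 => h1.2.2.1 h2.2.2) (by rw [hy0]; exact hMgpos) hy4 (by
      rintro W ⟨hWk, hWt, hW0, hWg⟩
      -- the level
      obtain ⟨j, hja, hjb, hjg⟩ : ∃ j ≤ a, ¬ good (y j) W ∧ good (Mt (min (j + 1) a)) W := by
        by_contra hcon
        push Not at hcon
        have hall : ∀ j ≤ a, ¬ good (y j) W := by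
          intro j
          induction j with
          | zero =>
            intro _
            rw [hy0]
            exact hWg
          | succ j ih =>
            intro hj h
            have h1 := hcon j (by omega) (ih (by omega))
            apply h1
            rw [min_eq_left hj]
            exact good_of_dvd (hyMt (j + 1) hj) h
        apply hcon a le_rfl (hall a le_rfl)
        rw [min_eq_right (Nat.le_succ a)]
        exact good_top (by rw [hcardF]; exact hMta) W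
      have hmin : min (j + 1) a ≤ a := min_le_right _ _
      obtain ⟨μ, hμ1, hμ2, hμ3, hμ4⟩ := exists_modulus (M' := Mt (min (j + 1) a))
        (B := B (min (j + 1) a)) (b0 := m * M0) hWk (by rw [hcardF]; exact hMtq _ hmin) hjg
        (hB _ hmin) (hB1 _ hmin) (hqMt _ hmM0) hm
      have hμd : μ ∣ Fintype.card L - 1 := (Dvd.intro _ rfl).trans hμ2
      have hμpos := pos_of_dvd hμd
      have : NeZero μ := ⟨hμpos.ne'⟩
      have hd : M0 ∣ μ := (Dvd.intro_left _ rfl).trans hμ1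
      have hmμ : m ∣ μ := (Dvd.intro _ rfl).trans hμ1
      have hyp := hyp_red hd hm2 hmμ hM0 hμpos
      -- the type
      set TW : Finset (ZMod μ) := (ty μ W).toFinset with hTW
      have hTW' : ty μ W = (TW : Set (ZMod μ)) := by rw [hTW, Set.coe_toFinset]
      have halg : ∀ l : F, l ≠ 0 → cl μ (algebraMap F L l) = 0 := fun l hl => cl_alg hμ2 hl
      have hTc : TW.card = m := by
        have h1 := ty_card hμd halg hWk hμ3 hTW'
        rw [hcardF, ← hmq] at h1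
        exact Nat.eq_of_mul_eq_mul_right (by omega) h1
      obtain ⟨P, hP⟩ := Cone.exists_part (red hd : ZMod μ → ZMod M0) hmpos (μ / m - 1) (univ \ TW) (by
          have h1 := card_sdiff_add_card_eq_card (subset_univ TW)
          rw [card_univ, ZMod.card, hTc] at h1
          obtain ⟨s, hs⟩ := hmμ
          have h2 : μ / m = s := by rw [hs]; exact Nat.mul_div_cancel_left s hmpos
          have hs1 : 1 ≤ s := by
            rcases Nat.eq_zero_or_pos s with h | h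
            · rw [h, mul_zero] at hs; omega
            · exact h
          rw [h2, Nat.sub_mul, one_mul, mul_comm s m, ← hs]
          omega) (by
          intro b
          have h1 : (univ \ TW).filter (fun x => red hd x = b) ⊆
              univ.filter (fun x => red hd x = b) := filter_subset_filter _ (subset_univ _)
          have h2 := card_le_card h1
          have h3 := hyp.hfib b
          have h4 := hyp.hs
          have h5 : (univ.filter (fun x => red hd x = b)).card = μ / M0 := by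
            convert h3
          have h6 : ((univ \ TW).filter (fun x => red hd x = b)).card ≤ μ / m - 1 := by omega
          convert h6)
      have hPblk : ∀ T ∈ P, Cone.Blk (red hd : ZMod μ → ZMod M0) m T := fun T hT => (hP.1 T hT).1
      -- sizes
      set Cs : ℕ := ⌈2 * C⌉₊ + 4 * q ^ (2 * k) + 1 with hCs
      have hCspos : 1 ≤ Cs := by omega
      have hlevj : (Cs * μ) ^ (2 * (m + 6)) ≤ y j := by
        refine le_trans ?_ (hlev j hja)
        apply Nat.pow_le_pow_left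
        exact Nat.mul_le_mul_left _ hμ4
      have hu1 : 1 ≤ Cs * μ := Nat.mul_pos hCspos hμpos
      have hyL : y j ≤ Fintype.card L := by
        have h1 : y j ∣ Fintype.card L - 1 :=
          (hyMt j hja).trans ((Dvd.intro _ rfl).trans (hMtq j hja))
        exact (Nat.le_of_dvd (by omega) h1).trans (Nat.sub_le _ _)
      have hlevQ : ((Cs * μ : ℕ) : ℝ) ^ (2 * (m + 6)) ≤ Q := by
        rw [hQ]
        exact_mod_cast hlevj.trans hyL
      have huR : (1 : ℝ) ≤ ((Cs * μ : ℕ) : ℝ) := by exact_mod_cast hu1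
      have hμR : (1 : ℝ) ≤ (μ : ℝ) := by exact_mod_cast hμpos
      have hCsR : (1 : ℝ) ≤ (Cs : ℝ) := by exact_mod_cast hCspos
      have hCs1 : 2 * C ≤ (Cs : ℝ) := by
        refine (Nat.le_ceil _).trans ?_
        exact_mod_cast (show ⌈2 * C⌉₊ ≤ Cs by omega)
      have hCs2 : 4 * (q : ℝ) ^ (2 * k) ≤ (Cs : ℝ) := by
        exact_mod_cast (show 4 * q ^ (2 * k) ≤ Cs by omega)
      have hs1 : 2 * C * (μ : ℝ) ^ (m + 5) ≤ Real.sqrt Q := by
        apply Real.le_sqrt_of_sq_le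
        refine le_trans ?_ hlevQ
        have h1 : 2 * C * (μ : ℝ) ^ (m + 5) ≤ ((Cs * μ : ℕ) : ℝ) ^ (m + 6) := by
          calc 2 * C * (μ : ℝ) ^ (m + 5) ≤ (Cs : ℝ) * (μ : ℝ) ^ (m + 5) :=
                mul_le_mul_of_nonneg_right hCs1 (by positivity)
            _ ≤ (Cs : ℝ) ^ (m + 5) * (μ : ℝ) ^ (m + 5) := by
                apply mul_le_mul_of_nonneg_right _ (by positivity)
                exact le_self_pow₀ hCsR (by omega)
            _ = ((Cs * μ : ℕ) : ℝ) ^ (m + 5) := by push_cast; rw [mul_pow]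
            _ ≤ _ := pow_le_pow_right₀ huR (by omega)
        have h2 : 0 ≤ 2 * C * (μ : ℝ) ^ (m + 5) := by positivity
        calc (2 * C * (μ : ℝ) ^ (m + 5)) ^ 2 ≤ (((Cs * μ : ℕ) : ℝ) ^ (m + 6)) ^ 2 :=
              pow_le_pow_left₀ h2 h1 2
          _ = _ := by rw [← pow_mul]; congr 1; ring
      have hs2 : 4 * (q : ℝ) ^ (2 * k) * (μ : ℝ) ^ m ≤ Q := by
        refine le_trans ?_ hlevQ
        calc 4 * (q : ℝ) ^ (2 * k) * (μ : ℝ) ^ m ≤ (Cs : ℝ) * (μ : ℝ) ^ m :=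
              mul_le_mul_of_nonneg_right hCs2 (by positivity)
          _ ≤ (Cs : ℝ) ^ m * (μ : ℝ) ^ m := by
              apply mul_le_mul_of_nonneg_right _ (by positivity)
              exact le_self_pow₀ hCsR (by omega)
          _ = ((Cs * μ : ℕ) : ℝ) ^ m := by push_cast; rw [mul_pow]
          _ ≤ _ := pow_le_pow_right₀ huR (by omega)
      refine ⟨μ, P, hμ2, hμ3, ?_, ?_, ?_, ?_, j, hja, hjb, ?_⟩
      · have := part_card_le hmpos hP
        rwa [ZMod.card] at this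
      · intro T hT z hz hz'
        rw [hTW'] at hz'
        have := (mem_sdiff.1 ((hP.1 T hT).2 hz)).2
        exact this hz'
      · intro z hz
        apply hP.2 z
        rw [mem_sdiff]
        refine ⟨mem_univ _, fun h => hz ?_⟩
        rw [hTW']
        exact h
      · intro T hT
        have h1 := supply_ge (q := q) (k := k) (m := m) (M0 := M0) (C := C) hk hC1 hcardF hm hμ2 hd
          (by rw [← hQ]; exact hs1) (by rw [← hQ]; exact hs2) (hPblk T hT)
        rw [← hQ] at h1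
        exact h1
      · refine le_trans ?_ hlevj
        calc (μ ^ (m + 1)) ^ 2 = μ ^ (2 * (m + 1)) := by rw [← pow_mul]; congr 1; ring
          _ ≤ (Cs * μ) ^ (2 * (m + 1)) := Nat.pow_le_pow_left (Nat.le_mul_of_pos_left _ hCspos) _
          _ ≤ _ := Nat.pow_le_pow_right hu1 (by omega)) (by
      intro j hj
      have hyj : y j * (Fintype.card F - 1) ∣ Fintype.card L - 1 := by
        rw [hcardF]
        exact (Nat.mul_dvd_mul_right (hyMt j hj) _).trans (hMtq j hj)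
      have h1 := orbit_count (F := F) (L := L) hyj (show 0 < k by omega) m hm (AR := AR)
        (fun W hW => hW.1) (fun W hW => hW.2.1)
      rw [hcardF] at h1
      rw [hc2, hQk1, hQ]
      exact_mod_cast h1) (by positivity) (by
      rw [← hsy, hBBe, ← hQk1, div_le_div_iff₀ hsypos (by positivity)]
      have h1 : 2 * (c2 * Qk1) * (4 * bb) = Qk1 * (8 * c2 * bb) := by ring
      rw [h1]
      exact mul_le_mul_of_nonneg_left hw1 hQk1pos.le)
  rw [← hsy, ← hQ] at hUc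
  -- the first tier
  have hres0 : Res k (A0 \ U) := by
    apply htier0 F L k (A0 \ U) (by
        rw [← hMta, hcardF]
        exact Nat.mul_dvd_mul_right hmM0 _) (by omega) (by rw [hcardF]; exact hmq)
      (fun W hW => hW.1.1) (fun W hW => hW.1.2.2) (by
        rintro W ⟨h1, h2⟩ g
        refine ⟨hA0inv W h1 g, fun h => h2 ?_⟩
        have := hUinv _ h g⁻¹
        rw [gW_mul] at this
        simpa [gW_one] using this)
      (m.factorial * Q ^ k / (Mf * bb))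
    · rw [← hQ]
      exact R_ge hbbR hQ0 hMfRpos hfac hQQ (by rw [← hx3]; linarith)
    · intro T hT
      have h1 := hC1 (m * M0) k F L (hqMt _ hmM0) hm T hT.1
      rw [← hQ, hBBe, ← hMf] at h1
      apply near hMfRpos hbbR (by linarith) hQkpos hsQ h1 (δ := NT.ncard + U.ncard)
      · have h2 : {W ∈ A0 \ U | ty (m * M0) W = (T : Set (ZMod (m * M0)))}.ncard ≤
            {W : Submodule F L | finrank F W = k ∧ good (m * M0) W ∧
              ty (m * M0) W = (T : Set (ZMod (m * M0)))}.ncard := by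
          apply Set.ncard_le_ncard _ (Set.toFinite _)
          rintro W ⟨⟨⟨h3, h4, h5⟩, -⟩, h6⟩
          exact ⟨h3, good_of_dvd (dvd_mul_left M0 m) h5, h6⟩
        exact_mod_cast h2
      · have h2 : {W : Submodule F L | finrank F W = k ∧ good (m * M0) W ∧
              ty (m * M0) W = (T : Set (ZMod (m * M0)))}.ncard ≤
              {W ∈ A0 \ U | ty (m * M0) W = (T : Set (ZMod (m * M0)))}.ncard +
              (NT.ncard + U.ncard) := by
          refine (Set.ncard_le_ncard (t := {W ∈ A0 \ U | ty (m * M0) W =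
            (T : Set (ZMod (m * M0)))} ∪ (NT ∪ U)) ?_ (Set.toFinite _)).trans
            ((Set.ncard_union_le _ _).trans (Nat.add_le_add_left (Set.ncard_union_le _ _) _))
          rintro W ⟨h3, h4, h5⟩
          by_cases hWU : W ∈ U
          · exact Or.inr (Or.inr hWU)
          · by_cases hWt : triv W
            · exact Or.inl ⟨⟨⟨h3, hWt, good_of_blk (dvd_mul_left M0 m) h4 h5 hT.2⟩, hWU⟩, h5⟩
            · exact Or.inr (Or.inl ⟨h3, hWt⟩)
        exact_mod_cast h2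
      · exact K_le hε0 hQ0 (by rw [← hx1]; linarith)
      · have h2 := nt_le (b := m.factorial) hbbR hQ0 hQkpos hMfRpos hε0 hfac hntR
          (by rw [← hx2]; linarith)
        have h3 := U_le (b := m.factorial) hbbR hQ0 hQk1pos hMfRpos hε0 hfac hsypos hQk hUc hw2
        linarith
  -- the second tier
  have hbJ : (1 : ℝ) ≤ ((m.factorial * J : ℕ) : ℝ) := by
    exact_mod_cast Nat.mul_pos (Nat.factorial_pos m) hJ
  have hres1 : Res k A1 := by
    apply htier1 F L k A1 (hqMt _ ((Dvd.intro _ rfl).trans hMgM0)) (by omega)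
      (by rw [hcardF]; exact hmq) (fun W hW => hW.1) (fun W hW => hW.2.2.2) hA1inv
      (((m.factorial * J : ℕ) : ℝ) * Q ^ k / (Mh * bb))
    · rw [← hQ]
      exact R_ge hbbR hQ0 hMhpos hbJ hQQ (by rw [← hx6]; linarith)
    · intro T hT
      have h1 := hC2 Mg M0 k F L (hqMt _ hMgM0) hcoMg hm T hT.1
      rw [← hQ, hBBe, ← hMh, ← hJe] at h1
      apply near hMhpos hbbR (by linarith) hQkpos hsQ h1 (δ := NT.ncard)
      · have h2 : {W ∈ A1 | ty Mg W = (T : Set (ZMod Mg))}.ncard ≤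
            {W : Submodule F L | finrank F W = k ∧ good Mg W ∧
              ty Mg W = (T : Set (ZMod Mg)) ∧ ¬ good M0 W}.ncard := by
          apply Set.ncard_le_ncard _ (Set.toFinite _)
          rintro W ⟨⟨h3, h4, h5, h6⟩, h7⟩
          exact ⟨h3, h6, h7, h5⟩
        exact_mod_cast h2
      · have h2 : {W : Submodule F L | finrank F W = k ∧ good Mg W ∧
              ty Mg W = (T : Set (ZMod Mg)) ∧ ¬ good M0 W}.ncard ≤
              {W ∈ A1 | ty Mg W = (T : Set (ZMod Mg))}.ncard + NT.ncard := by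
          refine (Set.ncard_le_ncard (t := {W ∈ A1 | ty Mg W = (T : Set (ZMod Mg))} ∪ NT) ?_
            (Set.toFinite _)).trans (Set.ncard_union_le _ _)
          rintro W ⟨h3, h4, h5, h6⟩
          by_cases hWt : triv W
          · exact Or.inl ⟨⟨h3, hWt, h6, h4⟩, h5⟩
          · exact Or.inr ⟨h3, hWt⟩
        exact_mod_cast h2
      · exact K_le hε1 hQ0 (by rw [← hx4]; linarith)
      · have h2 := nt_le (b := ((m.factorial * J : ℕ) : ℝ)) hbbR hQ0 hQkpos hMhpos hε1 hbJ hntR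
          (by rw [← hx5]; linarith)
        have h3 : 0 ≤ ε1 / 3 * (((m.factorial * J : ℕ) : ℝ) * Q ^ k / (Mh * bb)) := by positivity
        linarith
  -- together
  have h1 := (hres0.union hres1 (by
    rintro W ⟨h2, -⟩ h3
    exact h3.2.2.1 h2.2.2)).union hUres (by
    rintro W (h2 | h2) (h3 | h3)
    · exact h3.2.2.1 h2.1.2.2
    · exact h2.2 h3
    · exact h3.2.2.2 h2.2.2.2
    · exact h2.2.2.1 (hUA h3).2.2)
  have h2 : ((A0 \ U) ∪ A1) ∪ (AR ∪ U) = {W : Submodule F L | finrank F W = k ∧ triv W} := by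
    ext W
    constructor
    · rintro ((h | h) | (h | h))
      · exact ⟨h.1.1, h.1.2.1⟩
      · exact ⟨h.1, h.2.1⟩
      · exact ⟨h.1, h.2.1⟩
      · exact ⟨(hUA h).1, (hUA h).2.1⟩
    · rintro ⟨h3, h4⟩
      by_cases hU : W ∈ U
      · exact Or.inr (Or.inr hU)
      · by_cases h5 : good M0 W
        · exact Or.inl (Or.inl ⟨⟨h3, h4, h5⟩, hU⟩)
        · by_cases h6 : good Mg W
          · exact Or.inl (Or.inr ⟨h3, h4, h5, h6⟩)
          · exact Or.inr (Or.inl ⟨h3, h4, h5, h6⟩)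
  rw [← h2]
  exact h1

end Pool.Agent.Helper491_Inf
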