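import Mathlib

/-!
# Prime powers dividing the repunits
-/

set_option autoImplicit false

namespace Pool.Agent.Helper491_Inf.NT

open Finset Polynomial

/-- The repunit. -/
def G (q n : ℕ) : ℕ := ∑ i ∈ range n, q ^ i

theorem G_mul {q : ℕ} (hq : 2 ≤ q) (n : ℕ) : G q n * (q - 1) = q ^ n - 1 := by
  unfold G
  rw [Nat.geomSum_eq hq n]
  exact Nat.div_mul_cancel (by simpa using Nat.sub_dvd_pow_sub_pow q 1 n)

theorem G_dvd {q : ℕ} (hq : 2 ≤ q) {n n' : ℕ} (h : n ∣ n') : G q n ∣ G q n' := by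
  obtain ⟨c, rfl⟩ := h
  have h1 : G q n * (q - 1) ∣ G q (n * c) * (q - 1) := by
    rw [G_mul hq, G_mul hq, pow_mul]
    simpa using Nat.sub_dvd_pow_sub_pow (q ^ n) 1 c
  exact Nat.dvd_of_mul_dvd_mul_right (by omega) h1

theorem G_ge {q n : ℕ} (hn : 1 ≤ n) : q ^ n ≤ q * G q n := by
  obtain ⟨n', rfl⟩ : ∃ n', n = n' + 1 := ⟨n - 1, by omega⟩
  unfold G
  rw [sum_range_succ, pow_succ, mul_add, mul_comm q (q ^ n')]
  exact Nat.le_add_left _ _

theorem G_pos {q n : ℕ} (hq : 1 ≤ q) (hn : 1 ≤ n) : 1 ≤ G q n := by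
  obtain ⟨n', rfl⟩ : ∃ n', n = n' + 1 := ⟨n - 1, by omega⟩
  unfold G
  rw [sum_range_succ]
  have : 1 ≤ q ^ n' := Nat.one_le_pow _ _ hq
  omega

theorem G_mono {q n n' : ℕ} (h : n ≤ n') : G q n ≤ G q n' :=
  sum_le_sum_of_subset (range_subset_range.2 h)

theorem G_growth {q n n' : ℕ} (hq : 2 ≤ q) (hn : 2 ≤ n) (h : 2 * n ≤ n') : 4 * G q n ≤ G q n' := by
  refine le_trans ?_ (G_mono h)
  have h1 : G q (2 * n) = G q n + q ^ n * G q n := by
    unfold G
    rw [two_mul, sum_range_add, mul_sum]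
    congr 1
    refine sum_congr rfl fun i _ => ?_
    rw [pow_add]
  rw [h1]
  have h2 : 4 ≤ q ^ n := by
    calc 4 = 2 ^ 2 := by norm_num
      _ ≤ q ^ 2 := Nat.pow_le_pow_left hq 2
      _ ≤ q ^ n := Nat.pow_le_pow_right (by omega) hn
  have h3 : 4 * G q n ≤ q ^ n * G q n := Nat.mul_le_mul_right _ h2
  omega

/-- A prime power dividing `q ^ f - 1`, with `f` the order of `q`, is small. -/
theorem pow_le_cyclo {q r e f : ℕ} (hq : 2 ≤ q) (hr : r.Prime) (hf : 0 < f)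
    (hmin : ∀ d, 0 < d → d < f → d ∣ f → ¬ r ∣ q ^ d - 1) (he : r ^ e ∣ q ^ f - 1) :
    r ^ e ≤ (q + 1) ^ f.totient := by
  have h1 : ∏ d ∈ Nat.divisors f, (cyclotomic d ℤ).eval (q : ℤ) = (q : ℤ) ^ f - 1 := by
    have h2 := congrArg (eval (q : ℤ)) (prod_cyclotomic_eq_X_pow_sub_one hf ℤ)
    rw [eval_prod] at h2
    simpa using h2
  have hfm : f ∈ Nat.divisors f := Nat.mem_divisors_self f hf.ne'
  rw [← mul_prod_erase _ _ hfm] at h1
  have h3 : ((r ^ e : ℕ) : ℤ) ∣ (q : ℤ) ^ f - 1 := by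
    have : ((q ^ f - 1 : ℕ) : ℤ) = (q : ℤ) ^ f - 1 := by
      rw [Nat.cast_sub (Nat.one_le_pow _ _ (by omega))]
      push_cast
      rfl
    rw [← this]
    exact_mod_cast he
  rw [← h1] at h3
  have hcop : IsCoprime ((r ^ e : ℕ) : ℤ)
      (∏ d ∈ (Nat.divisors f).erase f, (cyclotomic d ℤ).eval (q : ℤ)) := by
    apply IsCoprime.prod_right
    intro d hd
    obtain ⟨hdf, hdd⟩ := mem_erase.1 hd
    rw [Nat.mem_divisors] at hdd
    have hd0 : 0 < d := Nat.pos_of_dvd_of_pos hdd.1 hf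
    have hdlt : d < f := lt_of_le_of_ne (Nat.le_of_dvd hf hdd.1) hdf
    push_cast
    apply IsCoprime.pow_left
    have hp : Prime (r : ℤ) := Nat.prime_iff_prime_int.1 hr
    rw [hp.coprime_iff_not_dvd]
    intro h4
    apply hmin d hd0 hdlt hdd.1
    have h5 : (cyclotomic d ℤ).eval (q : ℤ) ∣ (q : ℤ) ^ d - 1 := by
      have h6 : cyclotomic d ℤ ∣ X ^ d - 1 := cyclotomic.dvd_X_pow_sub_one d ℤ
      have h7 := eval_dvd (x := (q : ℤ)) h6
      simpa using h7
    have h8 := h4.trans h5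
    have : ((q ^ d - 1 : ℕ) : ℤ) = (q : ℤ) ^ d - 1 := by
      rw [Nat.cast_sub (Nat.one_le_pow _ _ (by omega))]
      push_cast
      rfl
    rw [← this] at h8
    exact_mod_cast h8
  have h4 : ((r ^ e : ℕ) : ℤ) ∣ (cyclotomic f ℤ).eval (q : ℤ) := hcop.dvd_of_dvd_mul_right h3
  have hpos : 0 < (cyclotomic f ℤ).eval (q : ℤ) := cyclotomic_pos' f (by exact_mod_cast hq)
  have h5 := Int.le_of_dvd hpos h4
  have h6 : (((cyclotomic f ℤ).eval (q : ℤ) : ℤ) : ℝ) = (cyclotomic f ℝ).eval (q : ℝ) := by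
    have := cyclotomic.eval_apply (q : ℤ) f (Int.castRingHom ℝ)
    simpa using this.symm
  have h7 : (cyclotomic f ℝ).eval (q : ℝ) ≤ ((q : ℝ) + 1) ^ f.totient :=
    cyclotomic_eval_le_add_one_pow_totient (by exact_mod_cast hq) f
  have h8 : ((r ^ e : ℕ) : ℝ) ≤ (((cyclotomic f ℤ).eval (q : ℤ) : ℤ) : ℝ) := by exact_mod_cast h5
  have h9 : ((r ^ e : ℕ) : ℝ) ≤ (((q + 1) ^ f.totient : ℕ) : ℝ) := by
    push_cast
    push_cast at h8
    linarith
  exact_mod_cast h9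

/-- The bound for an odd prime. -/
theorem odd_le {q r e n : ℕ} (hq : 2 ≤ q) (hr : r.Prime) (hodd : r ≠ 2) (hn : 0 < n)
    (hrq : ¬ r ∣ q) (he : r ^ e ∣ q ^ n - 1) : r ^ e ≤ n * (q + 1) ^ n.totient := by
  rcases Nat.eq_zero_or_pos e with rfl | he0
  · rw [pow_zero]
    exact Nat.mul_pos hn (Nat.pow_pos (by omega))
  have hrf : Fact r.Prime := ⟨hr⟩
  have hrn : r ∣ q ^ n - 1 := (dvd_pow_self r he0.ne').trans he
  have hq1 : ∀ d, 1 ≤ q ^ d := fun d => Nat.one_le_pow _ _ (by omega)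
  have hiff : ∀ d, r ∣ q ^ d - 1 ↔ orderOf (q : ZMod r) ∣ d := by
    intro d
    rw [orderOf_dvd_iff_pow_eq_one, ← Nat.cast_pow, ← (ZMod.natCast_eq_zero_iff _ _),
      Nat.cast_sub (hq1 d), Nat.cast_one, sub_eq_zero]
  set f := orderOf (q : ZMod r) with hf
  have hfn : f ∣ n := (hiff n).1 hrn
  have hf0 : 0 < f := Nat.pos_of_dvd_of_pos hfn hn
  obtain ⟨c, hc⟩ := hfn
  have hc0 : c ≠ 0 := by
    rintro rfl
    omega
  have hrf1 : r ∣ q ^ f - 1 := (hiff f).2 dvd_rfl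
  have hlt : 1 < q ^ f := Nat.one_lt_pow hf0.ne' (by omega)
  have hLTE := padicValNat.pow_sub_pow (p := r) (hr.odd_of_ne_two hodd) (x := q ^ f) (y := 1) hlt hrf1
    (fun h => hrq (hr.dvd_of_dvd_pow h)) hc0
  rw [one_pow, ← pow_mul, ← hc] at hLTE
  have hne : q ^ n - 1 ≠ 0 := by
    have := Nat.one_lt_pow hn.ne' (show 1 < q by omega)
    omega
  have hle : e ≤ padicValNat r (q ^ n - 1) := (padicValNat_dvd_iff_le hne).1 he
  have h1 : r ^ padicValNat r (q ^ f - 1) ≤ (q + 1) ^ f.totient := by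
    apply pow_le_cyclo hq hr hf0 _ pow_padicValNat_dvd
    intro d hd0 hdf _ hrd
    exact absurd (Nat.le_of_dvd hd0 ((hiff d).1 hrd)) (by omega)
  have h2 : r ^ padicValNat r c ≤ n := by
    have h3 : r ^ padicValNat r c ≤ c := Nat.le_of_dvd (Nat.pos_of_ne_zero hc0) pow_padicValNat_dvd
    refine h3.trans ?_
    rw [hc]
    exact Nat.le_mul_of_pos_left _ hf0
  have h3 : f.totient ≤ n.totient :=
    Nat.le_of_dvd (Nat.totient_pos.2 hn) (Nat.totient_dvd_of_dvd ⟨c, hc⟩)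
  calc r ^ e ≤ r ^ padicValNat r (q ^ n - 1) := Nat.pow_le_pow_right hr.pos hle
    _ = r ^ padicValNat r (q ^ f - 1) * r ^ padicValNat r c := by rw [hLTE, pow_add]
    _ ≤ (q + 1) ^ f.totient * n := Nat.mul_le_mul h1 h2
    _ ≤ (q + 1) ^ n.totient * n := Nat.mul_le_mul_right _ (Nat.pow_le_pow_right (by omega) h3)
    _ = _ := mul_comm _ _

/-- The bound. -/
theorem primepow_le {q r e n : ℕ} (hq : 2 ≤ q) (hr : r.Prime) (hn : 0 < n)
    (he : r ^ e ∣ G q n) : r ^ e ≤ n * (q + 1) ^ (1 + n.totient) := by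
  rcases Nat.eq_zero_or_pos e with rfl | he0
  · rw [pow_zero]
    exact Nat.mul_pos hn (Nat.pow_pos (by omega))
  have hrG : r ∣ G q n := (dvd_pow_self r he0.ne').trans he
  have hrq : ¬ r ∣ q := by
    intro h
    obtain ⟨n', rfl⟩ : ∃ n', n = n' + 1 := ⟨n - 1, by omega⟩
    unfold G at hrG
    rw [sum_range_succ', pow_zero] at hrG
    have h1 : r ∣ ∑ i ∈ range n', q ^ (i + 1) := dvd_sum fun i _ => by
      rw [pow_succ]
      exact Dvd.dvd.mul_left h _
    have h2 := (Nat.dvd_add_right h1).1 hrG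
    exact hr.one_lt.ne' (Nat.dvd_one.1 h2)
  have heq : r ^ e ∣ q ^ n - 1 := he.trans (Dvd.intro _ (G_mul hq n))
  by_cases h2 : r = 2
  · subst h2
    have hodd : Odd q := by
      rw [Nat.odd_iff]
      omega
    rcases Nat.even_or_odd n with hev | hno
    · have h3 := padicValNat.pow_two_sub_pow (x := q) (y := 1) (by omega) (by omega) hrq hn.ne' hev
      rw [one_pow] at h3
      have hG0 : G q n ≠ 0 := by
        have := G_pos (q := q) (by omega) hn
        omega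
      have hq10 : q - 1 ≠ 0 := by omega
      have h4 := padicValNat.mul (p := 2) hG0 hq10
      rw [G_mul hq] at h4
      have hle : e ≤ padicValNat 2 (G q n) := (padicValNat_dvd_iff_le hG0).1 he
      have h5 : e ≤ padicValNat 2 (q + 1) + padicValNat 2 n := by omega
      calc 2 ^ e ≤ 2 ^ (padicValNat 2 (q + 1) + padicValNat 2 n) := Nat.pow_le_pow_right (by norm_num) h5
        _ = 2 ^ padicValNat 2 (q + 1) * 2 ^ padicValNat 2 n := by rw [pow_add]
        _ ≤ (q + 1) * n := Nat.mul_le_mul (Nat.le_of_dvd (by omega) pow_padicValNat_dvd)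
            (Nat.le_of_dvd hn pow_padicValNat_dvd)
        _ = n * (q + 1) ^ 1 := by ring
        _ ≤ _ := Nat.mul_le_mul_left _ (Nat.pow_le_pow_right (by omega) (by omega))
    · exfalso
      have h3 : Odd (G q n) := by
        unfold G
        rw [Finset.odd_sum_iff_odd_card_odd]
        have : (range n).filter (fun x => Odd (q ^ x)) = range n := by
          rw [filter_eq_self]
          intro i _
          exact hodd.pow
        rw [this, card_range]
        exact hno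
      rw [Nat.odd_iff] at h3
      omega
  · refine (odd_le hq hr h2 hn hrq heq).trans ?_
    exact Nat.mul_le_mul_left _ (Nat.pow_le_pow_right (by omega) (by omega))

/-- The exact power of a large prime. -/
theorem val_G {q l P r : ℕ} (hq : 2 ≤ q) (hl : l.Prime) (hlq : q < l) (hl2 : l ≠ 2) (hP : 0 < P)
    (hlP : l ∣ q ^ P - 1) (hr : 0 < r) (hlr : ¬ l ∣ r) :
    padicValNat l (G q (P * r)) = padicValNat l (G q P) := by
  have hlf : Fact l.Prime := ⟨hl⟩
  have hlq' : ¬ l ∣ q := fun h => absurd (Nat.le_of_dvd (by omega) h) (by omega)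
  have hlq1 : ¬ l ∣ q - 1 := fun h => absurd (Nat.le_of_dvd (by omega) h) (by omega)
  have hv : ∀ n, 0 < n → padicValNat l (G q n) = padicValNat l (q ^ n - 1) := by
    intro n hn
    have hG0 : G q n ≠ 0 := by
      have := G_pos (q := q) (by omega) hn
      omega
    have h4 := padicValNat.mul (p := l) hG0 (show q - 1 ≠ 0 by omega)
    rw [G_mul hq, padicValNat.eq_zero_of_not_dvd hlq1, add_zero] at h4
    exact h4.symm
  rw [hv _ (Nat.mul_pos hP hr), hv _ hP]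
  have hlt : 1 < q ^ P := Nat.one_lt_pow hP.ne' (by omega)
  have hLTE := padicValNat.pow_sub_pow (p := l) (hl.odd_of_ne_two hl2) (x := q ^ P) (y := 1) hlt hlP
    (fun h => hlq' (hl.dvd_of_dvd_pow h)) hr.ne'
  rw [one_pow, ← pow_mul, padicValNat.eq_zero_of_not_dvd hlr, add_zero] at hLTE
  exact hLTE

/-- Exponentials dominate polynomials. -/
theorem exp_dom (K D : ℕ) : ∃ n0 : ℕ, ∀ n, n0 ≤ n → K * n ^ D ≤ 2 ^ n := by
  have h1 := tendsto_pow_const_div_const_pow_of_one_lt D (show (1 : ℝ) < 2 by norm_num)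
  have h2 := h1.eventually (gt_mem_nhds (show (0 : ℝ) < 1 / (K + 1) by positivity))
  obtain ⟨n0, hn0⟩ := Filter.eventually_atTop.1 h2
  refine ⟨n0, fun n hn => ?_⟩
  have h3 := hn0 n hn
  rw [div_lt_div_iff₀ (by positivity) (by positivity)] at h3
  have h4 : ((K * n ^ D : ℕ) : ℝ) ≤ ((2 ^ n : ℕ) : ℝ) := by
    push_cast
    have : (0 : ℝ) ≤ (n : ℝ) ^ D := by positivity
    nlinarith
  exact_mod_cast h4

end Pool.Agent.Helper491_Inf.NT
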