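import Pool.Agent.Helper491_Inf.Tier

/-!
# Rare orbits are completed one by one
-/

set_option autoImplicit false
set_option linter.unusedSectionVars false

namespace Pool.Agent.Helper491_Inf

open Module Finset Pool.Agent.Helper491_Par Classical

section

variable {F L : Type} [Field F] [Fintype F] [Field L] [Fintype L] [Algebra F L]

theorem ncard_OrbG_le (W : Submodule F L) : (OrbG W).ncard ≤ Fintype.card L := by
  have h1 : OrbG W = (univ.image (fun g : Lˣ => gW g W) : Finset (Submodule F L)) := by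
    ext X
    simp only [coe_image, coe_univ, Set.mem_image, Set.mem_univ, true_and]
    constructor
    · rintro ⟨g, rfl⟩
      exact ⟨g, rfl⟩
    · rintro ⟨g, rfl⟩
      exact ⟨g, rfl⟩
  rw [h1, Set.ncard_coe_finset]
  refine card_image_le.trans ?_
  rw [card_univ, Fintype.card_units]
  exact Nat.sub_le _ _

theorem rare {k m a : ℕ} {y : ℕ → ℕ} {c V : ℝ} {AR A0 : Set (Submodule F L)}
    (hRk : ∀ W ∈ AR, finrank F W = k) (hRt : ∀ W ∈ AR, triv W)
    (hRinv : ∀ W ∈ AR, ∀ g : Lˣ, gW g W ∈ AR)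
    (h0k : ∀ W ∈ A0, finrank F W = k) (h0t : ∀ W ∈ A0, triv W)
    (h0inv : ∀ W ∈ A0, ∀ g : Lˣ, gW g W ∈ A0)
    (hdisj : ∀ W, W ∈ AR → W ∈ A0 → False)
    (hy0 : 0 < y 0) (hy : ∀ j ≤ a, 4 ^ j * y 0 ≤ y j)
    (hex : ∀ W ∈ AR, ∃ (μ : ℕ) (P : Finset (Finset (ZMod μ))),
      μ * (Fintype.card F - 1) ∣ Fintype.card L - 1 ∧ good μ W ∧ P.card ≤ μ ∧
      (∀ T ∈ P, ∀ z ∈ T, z ∉ ty μ W) ∧ (∀ z, z ∉ ty μ W → ∃! T, T ∈ P ∧ z ∈ T) ∧
      (∀ T ∈ P, V ≤ (μ : ℝ) ^ m * ({O : Set (Submodule F L) | ∃ E ∈ A0, good μ E ∧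
        ty μ E = (T : Set (ZMod μ)) ∧ O = OrbG E}.ncard : ℝ)) ∧
      ∃ j ≤ a, ¬ good (y j) W ∧ (μ ^ (m + 1)) ^ 2 ≤ y j)
    (hcnt : ∀ j ≤ a, ({O : Set (Submodule F L) | ∃ W ∈ AR, ¬ good (y j) W ∧
      O = OrbG W}.ncard : ℝ) * y j ≤ c)
    (hc : 0 ≤ c) (hV : 2 * c / Real.sqrt (y 0) ≤ V) :
    ∃ U : Set (Submodule F L), U ⊆ A0 ∧ (∀ W ∈ U, ∀ g : Lˣ, gW g W ∈ U) ∧
      (U.ncard : ℝ) ≤ 2 * c / Real.sqrt (y 0) * Fintype.card L ∧ Res k (AR ∪ U) := by
  let ρ : Type := {O : Set (Submodule F L) // ∃ W ∈ AR, O = OrbG W}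
  have hρf : Finite ρ := inferInstanceAs (Finite {O : Set (Submodule F L) // ∃ W ∈ AR, O = OrbG W})
  have hρ : Fintype ρ := Fintype.ofFinite ρ
  choose rep hrepA hrepO using fun O : ρ => O.2
  choose μ P hμ hgood hPc hPd hPu hsup j hja hjb hjμ using fun O : ρ => hex (rep O) (hrepA O)
  have hμdvd : ∀ O, μ O ∣ Fintype.card L - 1 := fun O => (Dvd.intro _ rfl).trans (hμ O)
  have hμpos : ∀ O, 0 < μ O := fun O => pos_of_dvd (hμdvd O)
  have halg : ∀ O, ∀ l : F, l ≠ 0 → cl (μ O) (algebraMap F L l) = 0 := fun O l hl => cl_alg (hμ O) hl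
  have hy0R : (0 : ℝ) < y 0 := by exact_mod_cast hy0
  have hs0 : 0 < Real.sqrt (y 0) := Real.sqrt_pos.2 hy0R
  -- the sum
  have hsum : ∑ O : ρ, (μ O : ℝ) ^ (m + 1) ≤ 2 * c / Real.sqrt (y 0) := by
    have h1 : ∀ O : ρ, (μ O : ℝ) ^ (m + 1) ≤ Real.sqrt (y (j O)) := by
      intro O
      apply Real.le_sqrt_of_sq_le
      exact_mod_cast hjμ O
    have h2 : ∑ O : ρ, Real.sqrt (y (j O)) = ∑ i ∈ range (a + 1),
        ∑ O ∈ univ.filter (fun O : ρ => j O = i), Real.sqrt (y (j O)) := by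
      symm
      apply Finset.sum_fiberwise_of_maps_to
      intro O _
      exact mem_range.2 (by have := hja O; omega)
    have h3 : ∀ i ∈ range (a + 1), ∑ O ∈ univ.filter (fun O : ρ => j O = i), Real.sqrt (y (j O)) ≤
        c / Real.sqrt (y 0) * (1 / 2) ^ i := by
      intro i hi
      have hia : i ≤ a := by have := mem_range.1 hi; omega
      have hyi : 4 ^ i * y 0 ≤ y i := hy i hia
      have hyiR : (4 : ℝ) ^ i * y 0 ≤ y i := by exact_mod_cast hyi
      have hyi0 : (0 : ℝ) < y i := lt_of_lt_of_le (by positivity) hyiR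
      have hsi : 0 < Real.sqrt (y i) := Real.sqrt_pos.2 hyi0
      have h4 : ((univ.filter (fun O : ρ => j O = i)).card : ℝ) ≤
          ({O : Set (Submodule F L) | ∃ W ∈ AR, ¬ good (y i) W ∧ O = OrbG W}.ncard : ℝ) := by
        have h5 : (univ.filter (fun O : ρ => j O = i)).card ≤
            {O : Set (Submodule F L) | ∃ W ∈ AR, ¬ good (y i) W ∧ O = OrbG W}.ncard := by
          rw [← Set.ncard_coe_finset]
          apply Set.ncard_le_ncard_of_injOn (fun O : ρ => O.1)
          · intro O hO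
            have hji := (mem_filter.1 (mem_coe.1 hO)).2
            refine ⟨rep O, hrepA O, ?_, hrepO O⟩
            rw [← hji]
            exact hjb O
          · intro O _ O' _ h
            exact Subtype.ext h
        exact_mod_cast h5
      have h6 : ∑ O ∈ univ.filter (fun O : ρ => j O = i), Real.sqrt (y (j O)) =
          ((univ.filter (fun O : ρ => j O = i)).card : ℝ) * Real.sqrt (y i) := by
        rw [← nsmul_eq_mul, ← sum_const]
        exact sum_congr rfl fun O hO => by rw [(mem_filter.1 hO).2]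
      rw [h6]
      have h7 : ((univ.filter (fun O : ρ => j O = i)).card : ℝ) * y i ≤ c :=
        (mul_le_mul_of_nonneg_right h4 hyi0.le).trans (hcnt i hia)
      have h8 : (2 : ℝ) ^ i * Real.sqrt (y 0) ≤ Real.sqrt (y i) := by
        apply Real.le_sqrt_of_sq_le
        rw [mul_pow, Real.sq_sqrt hy0R.le, ← pow_mul, mul_comm i 2, pow_mul]
        norm_num
        exact hyiR
      have h9 : ((univ.filter (fun O : ρ => j O = i)).card : ℝ) * Real.sqrt (y i) ≤
          c / Real.sqrt (y i) := by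
        rw [le_div_iff₀ hsi, mul_assoc, Real.mul_self_sqrt hyi0.le]
        exact h7
      refine h9.trans ?_
      have h10 : c / Real.sqrt (y 0) * (1 / 2) ^ i = c / (2 ^ i * Real.sqrt (y 0)) := by
        rw [one_div, inv_pow]
        field_simp
      rw [h10]
      exact div_le_div_of_nonneg_left hc (by positivity) h8
    calc ∑ O : ρ, (μ O : ℝ) ^ (m + 1) ≤ ∑ O : ρ, Real.sqrt (y (j O)) := sum_le_sum fun O _ => h1 O
      _ ≤ ∑ i ∈ range (a + 1), c / Real.sqrt (y 0) * (1 / 2) ^ i := by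
          rw [h2]
          exact sum_le_sum h3
      _ = c / Real.sqrt (y 0) * ∑ i ∈ range (a + 1), (1 / 2 : ℝ) ^ i := by rw [mul_sum]
      _ ≤ c / Real.sqrt (y 0) * 2 := by
          apply mul_le_mul_of_nonneg_left _ (by positivity)
          have h11 := (summable_geometric_two).sum_le_tsum (range (a + 1)) (fun i _ => by positivity)
          rw [tsum_geometric_two] at h11
          exact h11
      _ = _ := by ring
  -- the demands
  let ι : Type := Σ O : ρ, {T : Finset (ZMod (μ O)) // T ∈ P O}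
  have hιf : Fintype ι := inferInstanceAs (Fintype (Σ O : ρ, {T : Finset (ZMod (μ O)) // T ∈ P O}))
  let t : ι → Finset (Set (Submodule F L)) := fun i =>
    ({O : Set (Submodule F L) | ∃ E ∈ A0, good (μ i.1) E ∧
        ty (μ i.1) E = (i.2.1 : Set (ZMod (μ i.1))) ∧ O = OrbG E}).toFinset
  have htc : ∀ i : ι, V ≤ (μ i.1 : ℝ) ^ m * ((t i).card : ℝ) := by
    intro i
    have h1 := hsup i.1 i.2.1 i.2.2
    rw [Set.ncard_eq_toFinset_card'] at h1
    exact h1
  have hall : ∀ s : Finset ι, s.card ≤ (s.biUnion t).card := by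
    intro s
    rcases s.eq_empty_or_nonempty with rfl | hs
    · simp
    obtain ⟨i0, hi0, hmin⟩ := exists_min_image s (fun i : ι => μ i.1) hs
    have h1 : s.card ≤ ∑ O ∈ s.image (fun i : ι => i.1), μ O := by
      rw [card_eq_sum_card_image (fun i : ι => i.1) s]
      refine sum_le_sum fun O _ => ?_
      refine le_trans ?_ (hPc O)
      rw [← Fintype.card_coe (P O), ← card_univ]
      have h2 : s.filter (fun i : ι => i.1 = O) ⊆
          (univ : Finset {T : Finset (ZMod (μ O)) // T ∈ P O}).image (fun T => (⟨O, T⟩ : ι)) := by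
        rintro ⟨O', T⟩ hi
        have h3 : O' = O := (mem_filter.1 hi).2
        subst h3
        exact mem_image.2 ⟨T, mem_univ _, rfl⟩
      exact (card_le_card h2).trans card_image_le
    have hμ0 : (0 : ℝ) < (μ i0.1 : ℝ) ^ m := by
      have : (0 : ℝ) < μ i0.1 := by exact_mod_cast hμpos i0.1
      positivity
    have h2 : (μ i0.1 : ℝ) ^ m * (s.card : ℝ) ≤ (μ i0.1 : ℝ) ^ m * ((t i0).card : ℝ) := by
      calc (μ i0.1 : ℝ) ^ m * (s.card : ℝ)
          ≤ (μ i0.1 : ℝ) ^ m * ∑ O ∈ s.image (fun i : ι => i.1), (μ O : ℝ) := by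
            apply mul_le_mul_of_nonneg_left _ hμ0.le
            exact_mod_cast h1
        _ = ∑ O ∈ s.image (fun i : ι => i.1), (μ i0.1 : ℝ) ^ m * (μ O : ℝ) := by rw [mul_sum]
        _ ≤ ∑ O ∈ s.image (fun i : ι => i.1), (μ O : ℝ) ^ (m + 1) := by
            refine sum_le_sum fun O hO => ?_
            obtain ⟨i, hi, rfl⟩ := mem_image.1 hO
            rw [pow_succ]
            apply mul_le_mul_of_nonneg_right _ (Nat.cast_nonneg _)
            apply pow_le_pow_left₀ (Nat.cast_nonneg _)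
            exact_mod_cast hmin i hi
        _ ≤ ∑ O : ρ, (μ O : ℝ) ^ (m + 1) :=
            sum_le_sum_of_subset_of_nonneg (subset_univ _) fun _ _ _ => by positivity
        _ ≤ V := hsum.trans hV
        _ ≤ _ := htc i0
    have h3 := le_of_mul_le_mul_left h2 hμ0
    have h4 : s.card ≤ (t i0).card := by exact_mod_cast h3
    exact h4.trans (card_le_card (subset_biUnion_of_mem t hi0))
  obtain ⟨f, hf, hft⟩ := (Finset.all_card_le_biUnion_card_iff_exists_injective t).1 hall
  have hE : ∀ i : ι, ∃ E ∈ A0, good (μ i.1) E ∧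
      ty (μ i.1) E = (i.2.1 : Set (ZMod (μ i.1))) ∧ f i = OrbG E := by
    intro i
    have h1 := hft i
    simp only [t, Set.mem_toFinset] at h1
    exact h1
  choose E hEA hEg hEt hEf using hE
  refine ⟨{X | ∃ i : ι, X ∈ OrbG (E i)}, ?_, ?_, ?_, ?_⟩
  · rintro X ⟨i, g, rfl⟩
    exact h0inv _ (hEA i) g
  · rintro X ⟨i, g, rfl⟩ h
    exact ⟨i, h * g, gW_mul _ _ _⟩
  · have h1 : {X : Submodule F L | ∃ i : ι, X ∈ OrbG (E i)} =
        ((univ.biUnion (fun i : ι => (OrbG (E i)).toFinset) : Finset (Submodule F L)) :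
          Set (Submodule F L)) := by
      ext X
      simp
    rw [h1, Set.ncard_coe_finset]
    have h2 : (univ.biUnion (fun i : ι => (OrbG (E i)).toFinset)).card ≤
        Fintype.card ι * Fintype.card L := by
      refine card_biUnion_le.trans ?_
      calc ∑ i : ι, ((OrbG (E i)).toFinset).card ≤ ∑ i : ι, Fintype.card L := by
            refine sum_le_sum fun i _ => ?_
            rw [← Set.ncard_eq_toFinset_card']
            exact ncard_OrbG_le _
        _ = _ := by rw [sum_const, smul_eq_mul, card_univ]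
    have h3 : (Fintype.card ι : ℝ) ≤ ∑ O : ρ, (μ O : ℝ) ^ (m + 1) := by
      have h4 : Fintype.card ι = ∑ O : ρ, (P O).card := by
        rw [← Nat.card_eq_fintype_card]
        have : Nat.card ι = ∑ O : ρ, Nat.card {T : Finset (ZMod (μ O)) // T ∈ P O} := Nat.card_sigma
        rw [this]
        refine sum_congr rfl fun O _ => ?_
        rw [Nat.card_eq_fintype_card, Fintype.card_coe]
      rw [h4]
      push_cast
      refine sum_le_sum fun O _ => ?_
      have h5 : ((P O).card : ℝ) ≤ μ O := by exact_mod_cast hPc O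
      have h6 : (1 : ℝ) ≤ μ O := by exact_mod_cast hμpos O
      calc ((P O).card : ℝ) ≤ μ O := h5
        _ = (μ O : ℝ) ^ 1 := (pow_one _).symm
        _ ≤ (μ O : ℝ) ^ (m + 1) := pow_le_pow_right₀ h6 (by omega)
    have h4 : ((univ.biUnion (fun i : ι => (OrbG (E i)).toFinset)).card : ℝ) ≤
        Fintype.card ι * Fintype.card L := by exact_mod_cast h2
    exact h4.trans (mul_le_mul_of_nonneg_right (h3.trans hsum) (Nat.cast_nonneg _))
  · -- the bundles
    let E' : (O : ρ) → Option {T : Finset (ZMod (μ O)) // T ∈ P O} → Submodule F L := fun O =>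
      fun i => match i with
        | none => rep O
        | some T => E ⟨O, T⟩
    have hmemR : ∀ O : ρ, ∀ X, X ∈ OrbG (rep O) → X ∈ AR := by
      rintro O X ⟨g, rfl⟩
      exact hRinv _ (hrepA O) g
    have hmem0 : ∀ i : ι, ∀ X, X ∈ OrbG (E i) → X ∈ A0 := by
      rintro i X ⟨g, rfl⟩
      exact h0inv _ (hEA i) g
    have hbun : ∀ O : ρ, Res k {X | ∃ i, X ∈ OrbG (E' O i)} := by
      intro O
      apply bundle (hμdvd O) (halg O) (E' O)
      · rintro (_ | T)
        · exact hRk _ (hrepA O)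
        · exact h0k _ (hEA _)
      · rintro (_ | T)
        · exact hgood O
        · exact hEg ⟨O, T⟩
      · rintro (_ | T)
        · exact hRt _ (hrepA O)
        · exact h0t _ (hEA _)
      · intro z
        by_cases hz : z ∈ ty (μ O) (rep O)
        · refine ⟨none, hz, ?_⟩
          rintro (_ | T) hT
          · rfl
          · exfalso
            have h1 : z ∈ ty (μ O) (E ⟨O, T⟩) := hT
            rw [hEt ⟨O, T⟩] at h1
            exact hPd O T.1 T.2 z h1 hz
        · obtain ⟨T, ⟨h1, h2⟩, h3⟩ := hPu O z hz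
          refine ⟨some ⟨T, h1⟩, ?_, ?_⟩
          · show z ∈ ty (μ O) (E ⟨O, ⟨T, h1⟩⟩)
            rw [hEt ⟨O, ⟨T, h1⟩⟩]
            exact h2
          · rintro (_ | T') hT'
            · exact absurd hT' hz
            · have h4 : z ∈ ty (μ O) (E ⟨O, T'⟩) := hT'
              rw [hEt ⟨O, T'⟩] at h4
              congr 1
              exact Subtype.ext (h3 T'.1 ⟨T'.2, h4⟩)
      · rintro (_ | T) (_ | T') h
        · rfl
        · exfalso
          exact hdisj _ (hmemR O _ h) (hEA ⟨O, T'⟩)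
        · exfalso
          exact hdisj _ (hrepA O) (hmem0 ⟨O, T⟩ _ h)
        · have h1 : E ⟨O, T'⟩ ∈ OrbG (E ⟨O, T⟩) := h
          have h2 := OrbG_eq h1
          rw [← hEf, ← hEf] at h2
          have h3 := hf h2
          have h4 : T' = T := by
            have := Sigma.mk.inj h3
            exact eq_of_heq this.2
          rw [h4]
    have hres := Res.iUnion hbun (by
      rintro O O' X ⟨i, hi⟩ ⟨i', hi'⟩
      rcases i with _ | T <;> rcases i' with _ | T'
      · apply Subtype.ext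
        rw [hrepO O, hrepO O', ← OrbG_eq hi, ← OrbG_eq hi']
      · exact (hdisj X (hmemR O _ hi) (hmem0 ⟨O', T'⟩ _ hi')).elim
      · exact (hdisj X (hmemR O' _ hi') (hmem0 ⟨O, T⟩ _ hi)).elim
      · have h1 : X ∈ OrbG (E ⟨O, T⟩) := hi
        have h2 : X ∈ OrbG (E ⟨O', T'⟩) := hi'
        have h3 : f ⟨O, T⟩ = f ⟨O', T'⟩ := by
          rw [hEf, hEf, ← OrbG_eq h1, ← OrbG_eq h2]
        exact (Sigma.mk.inj (hf h3)).1)
    have heq : AR ∪ {X | ∃ i : ι, X ∈ OrbG (E i)} = {W | ∃ O : ρ, W ∈ {X | ∃ i, X ∈ OrbG (E' O i)}} := by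
      ext X
      constructor
      · rintro (hX | ⟨⟨O, T⟩, hX⟩)
        · have hO : ∃ W ∈ AR, OrbG X = OrbG W := ⟨X, hX, rfl⟩
          refine ⟨⟨OrbG X, hO⟩, none, ?_⟩
          show X ∈ OrbG (rep ⟨OrbG X, hO⟩)
          rw [← hrepO ⟨OrbG X, hO⟩]
          exact self_mem_OrbG X
        · exact ⟨O, some T, hX⟩
      · rintro ⟨O, i, hX⟩
        rcases i with _ | T
        · exact Or.inl (hmemR O _ hX)
        · exact Or.inr ⟨⟨O, T⟩, hX⟩
    rw [heq]
    exact hres

end

end Pool.Agent.Helper491_Inf
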