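import Pool.Agent.Helper491_Inf.Tow

/-!
# Subspaces over intermediate fields
-/

set_option autoImplicit false
set_option linter.unusedSectionVars false

namespace Pool.Agent.Helper491_Inf

open Module Finset Pool.Agent.Helper491_Par Classical

section

variable {F L : Type} [Field F] [Fintype F] [Field L] [Fintype L] [Algebra F L]

/-- The multiplications which preserve a subspace. -/
noncomputable def stab (W : Submodule F L) : IntermediateField F L where
  carrier := {z | ∀ w ∈ W, z * w ∈ W}
  mul_mem' {a b} ha hb w hw := by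
    rw [mul_assoc]
    exact ha _ (hb w hw)
  one_mem' w hw := by rwa [one_mul]
  add_mem' {a b} ha hb w hw := by
    rw [add_mul]
    exact W.add_mem (ha w hw) (hb w hw)
  zero_mem' w _ := by
    rw [zero_mul]
    exact W.zero_mem
  algebraMap_mem' c w hw := by
    rw [← Algebra.smul_def]
    exact W.smul_mem c hw
  inv_mem' z hz w hw := by
    by_cases hz0 : z = 0
    · rw [hz0, inv_zero, zero_mul]
      exact W.zero_mem
    · have hinj : Function.Injective (fun w : W => (⟨z * w, hz w w.2⟩ : W)) := by
        intro a b h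
        have := congrArg Subtype.val h
        exact Subtype.ext (mul_left_cancel₀ hz0 this)
      have hsurj := Finite.surjective_of_injective hinj
      obtain ⟨v, hv⟩ := hsurj ⟨w, hw⟩
      have h1 : z * (v : L) = w := congrArg Subtype.val hv
      rw [← h1, ← mul_assoc, inv_mul_cancel₀ hz0, one_mul]
      exact v.2

theorem mem_stab {W : Submodule F L} {z : L} : z ∈ stab W ↔ ∀ w ∈ W, z * w ∈ W := Iff.rfl

theorem gW_of_mem_stab {W : Submodule F L} {g : Lˣ} (hg : (g : L) ∈ stab W) : gW g W = W := by
  ext y
  rw [mem_gW]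
  constructor
  · rintro ⟨w, hw, rfl⟩
    exact mem_stab.1 hg w hw
  · intro hy
    refine ⟨(g : L)⁻¹ * y, mem_stab.1 ((stab W).inv_mem hg) y hy, ?_⟩
    rw [← mul_assoc, mul_inv_cancel₀ g.ne_zero, one_mul]

/-- One-dimensional subspaces form a spread. -/
theorem res_one : Res 1 {W : Submodule F L | finrank F W = 1 ∧ triv W} := by
  have htr : ∀ W : Submodule F L, finrank F W = 1 → triv W := by
    intro W hW g hg
    have hne : W ≠ ⊥ := by
      rintro rfl
      rw [finrank_bot] at hW
      exact zero_ne_one hW
    obtain ⟨x, hx, hx0⟩ := (Submodule.ne_bot_iff W).1 hne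
    have h1 : (g : L) * x ∈ W := by
      have : (g : L) * x ∈ gW g W := mem_gW.2 ⟨x, hx, rfl⟩
      rwa [hg] at this
    obtain ⟨c, hc⟩ := (finrank_eq_one_iff_of_nonzero' (⟨x, hx⟩ : W)
      (by intro h; exact hx0 (congrArg Subtype.val h))).1 hW ⟨_, h1⟩
    refine ⟨c, ?_⟩
    have h2 : c • x = (g : L) * x := congrArg Subtype.val hc
    rw [Algebra.smul_def] at h2
    exact (mul_right_cancel₀ hx0 h2).symm
  refine ⟨{{W : Submodule F L | finrank F W = 1 ∧ triv W}}, ?_, ?_⟩
  · rintro S rfl
    refine ⟨⟨fun W hW => hW.1, ?_⟩, subset_rfl⟩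
    intro v hv
    refine ⟨Submodule.span F {v}, ⟨⟨finrank_span_singleton hv, htr _ (finrank_span_singleton hv)⟩,
      Submodule.mem_span_singleton_self v⟩, ?_⟩
    rintro W ⟨⟨hW, -⟩, hvW⟩
    have hfd : FiniteDimensional F W := Module.Finite.of_finite
    symm
    apply Submodule.eq_of_le_of_finrank_eq
    · rw [Submodule.span_le]
      rintro x rfl
      exact hvW
    · rw [finrank_span_singleton hv, hW]
  · intro W hW
    exact ⟨_, ⟨rfl, hW⟩, fun S hS => hS.1⟩

end

section

variable {F E L : Type} [Field F] [Fintype F] [Field E] [Fintype E] [Field L] [Fintype L]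
  [Algebra F L] [Algebra F E] [Algebra E L] [IsScalarTower F E L]

theorem finrank_restrict (W : Submodule E L) :
    finrank F (W.restrictScalars F) = finrank F E * finrank E W := by
  rw [← (Submodule.restrictScalarsEquiv F E L W).finrank_eq]
  exact (Module.finrank_mul_finrank F E (W.restrictScalars F)).symm

theorem Res.restrict {k d : ℕ} (hd : finrank F E = d) {A : Set (Submodule E L)} (h : Res k A) :
    Res (d * k) {W : Submodule F L | ∃ W' ∈ A, W = W'.restrictScalars F} := by
  obtain ⟨P, h1, h2⟩ := h
  have hinj : ∀ W W' : Submodule E L, W.restrictScalars F = W'.restrictScalars F → W = W' :=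
    fun W W' h => Submodule.restrictScalars_injective F E L h
  refine ⟨{S | ∃ S' ∈ P, S = {W : Submodule F L | ∃ W' ∈ S', W = W'.restrictScalars F}}, ?_, ?_⟩
  · rintro _ ⟨S, hS, rfl⟩
    obtain ⟨⟨h3, h4⟩, h5⟩ := h1 S hS
    refine ⟨⟨?_, ?_⟩, ?_⟩
    · rintro _ ⟨W', hW', rfl⟩
      rw [finrank_restrict, hd, h3 W' hW']
    · intro v hv
      obtain ⟨W, ⟨hW, hvW⟩, hu⟩ := h4 v hv
      refine ⟨W.restrictScalars F, ⟨⟨W, hW, rfl⟩, hvW⟩, ?_⟩
      rintro _ ⟨⟨W', hW', rfl⟩, hvW'⟩
      rw [hu W' ⟨hW', hvW'⟩]
    · rintro _ ⟨W', hW', rfl⟩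
      exact ⟨W', h5 hW', rfl⟩
  · rintro _ ⟨W', hW', rfl⟩
    obtain ⟨S, ⟨hS, hWS⟩, hu⟩ := h2 W' hW'
    refine ⟨_, ⟨⟨S, hS, rfl⟩, W', hWS, rfl⟩, ?_⟩
    rintro _ ⟨⟨S', hS', rfl⟩, W'', hW'', he⟩
    have := hinj _ _ he
    subst this
    rw [hu S' ⟨hS', hW''⟩]

end

/-- **All subspaces from those with trivial stabilisers over the intermediate fields.** -/
theorem res_all {F L : Type} [Field F] [Fintype F] [Field L] [Fintype L] [Algebra F L] {k : ℕ}
    (hk : 0 < k)
    (h : ∀ (E : IntermediateField F L) (d k' : ℕ), finrank F E = d → k = d * k' →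
      Res (F := E) (L := L) k' {W : Submodule E L | finrank E W = k' ∧ triv W}) :
    Res k {W : Submodule F L | finrank F W = k} := by
  have key : ∀ E : IntermediateField F L,
      Res k {W : Submodule F L | finrank F W = k ∧ stab W = E} := by
    intro E
    have hEW : ∀ W : Submodule F L, stab W = E → ∃ W' : Submodule E L, W'.restrictScalars F = W := by
      intro W hW
      refine ⟨{ carrier := W, add_mem' := W.add_mem, zero_mem' := W.zero_mem, smul_mem' := ?_ }, ?_⟩
      · intro c x hx
        have hc : (c : L) ∈ stab W := by rw [hW]; exact c.2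
        rw [Algebra.smul_def]
        exact mem_stab.1 hc x hx
      · ext x
        rfl
    by_cases hdk : finrank F E ∣ k
    · obtain ⟨k', hk'⟩ := hdk
      have h1 := (h E _ k' rfl hk').restrict (F := F) rfl
      rw [← hk'] at h1
      have h2 : {W : Submodule F L | ∃ W' ∈ {W : Submodule E L | finrank E W = k' ∧ triv W},
          W = W'.restrictScalars F} = {W : Submodule F L | finrank F W = k ∧ stab W = E} := by
        ext W
        constructor
        · rintro ⟨W', ⟨h3, h4⟩, rfl⟩
          refine ⟨by rw [finrank_restrict (F := F) (E := E), h3, hk'], ?_⟩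
          apply le_antisymm
          · intro z hz
            by_cases hz0 : z = 0
            · rw [hz0]; exact E.zero_mem
            · have h5 : gW (Units.mk0 z hz0) W' = W' := by
                have h6 := gW_of_mem_stab (g := Units.mk0 z hz0) hz
                ext y
                have h7 : y ∈ gW (Units.mk0 z hz0) (W'.restrictScalars F) ↔
                    y ∈ W'.restrictScalars F := by rw [h6]
                rw [mem_gW] at h7 ⊢
                exact h7
              obtain ⟨l, hl⟩ := h4 _ h5
              have h8 : z = algebraMap E L l := hl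
              rw [h8]
              exact l.2
          · intro z hz w hw
            have := W'.smul_mem (⟨z, hz⟩ : E) hw
            rw [Algebra.smul_def] at this
            exact this
        · rintro ⟨h3, h4⟩
          obtain ⟨W', rfl⟩ := hEW W h4
          refine ⟨W', ⟨?_, ?_⟩, rfl⟩
          · rw [finrank_restrict (F := F) (E := E), hk'] at h3
            have h5 : 0 < finrank F E := by
              rcases Nat.eq_zero_or_pos (finrank F E) with h | h
              · rw [h, zero_mul] at hk'; omega
              · exact h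
            exact Nat.eq_of_mul_eq_mul_left h5 h3
          · intro g hg
            have h5 : (g : L) ∈ stab (W'.restrictScalars F) := by
              intro w hw
              have : (g : L) * w ∈ gW g W' := mem_gW.2 ⟨w, hw, rfl⟩
              rw [hg] at this
              exact this
            rw [h4] at h5
            exact ⟨⟨g, h5⟩, rfl⟩
      rw [← h2]
      exact h1
    · refine ⟨∅, fun S hS => absurd hS (Set.notMem_empty S), ?_⟩
      rintro W ⟨h3, h4⟩
      obtain ⟨W', rfl⟩ := hEW W h4
      rw [finrank_restrict (F := F) (E := E)] at h3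
      exact absurd ⟨_, h3.symm⟩ hdk
  have h1 := Res.iUnion key (by
    rintro E E' W ⟨-, h2⟩ ⟨-, h3⟩
    rw [← h2, ← h3])
  have h2 : {W : Submodule F L | finrank F W = k} =
      {W : Submodule F L | ∃ E : IntermediateField F L, W ∈ {W : Submodule F L | finrank F W = k ∧
        stab W = E}} := by
    ext W
    exact ⟨fun h => ⟨stab W, h, rfl⟩, fun ⟨_, h, _⟩ => h⟩
  rw [h2]
  exact h1

end Pool.Agent.Helper491_Inf
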