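import Pool.Agent.Helper491_Inf.Frames
import Pool.Agent.Helper491_Inf.Rare

/-!
# Counting the subspaces and orbits of a given type
-/

set_option autoImplicit false
set_option linter.unusedSectionVars false

namespace Pool.Agent.Helper491_Inf

open Module Finset Pool.Agent.Helper491_Par Pool.Agent.Helper491_Par.Equi Classical

open scoped LinearAlgebra.Projectivization

/-- The patterns of type `T`. -/
def ST (P : Type) {M : ℕ} (T : Finset (ZMod M)) : Set (P → ZMod M) :=
  {κ | Function.Injective κ ∧ Set.range κ = (T : Set (ZMod M))}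

theorem ncard_ST (P : Type) [Fintype P] {M m : ℕ} (hP : Fintype.card P = m) (T : Finset (ZMod M))
    (hT : T.card = m) : (ST P T).ncard = m.factorial := by
  have h1 : (ST P T).ncard = Nat.card (ST P T) := (Nat.card_coe_set_eq _).symm
  rw [h1]
  have h2 : Nat.card (P ≃ {z // z ∈ T}) = m.factorial := by
    rw [Nat.card_eq_fintype_card, Fintype.card_equiv, hP]
    exact Fintype.equivOfCardEq (by rw [hP, Fintype.card_coe, hT])
  rw [← h2]
  symm
  apply Nat.card_eq_of_bijective (fun e : P ≃ {z // z ∈ T} =>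
    (⟨fun a => (e a).1, fun a b h => e.injective (Subtype.ext h), by
      ext z
      constructor
      · rintro ⟨a, rfl⟩
        exact (e a).2
      · intro hz
        exact ⟨e.symm ⟨z, hz⟩, by simp⟩⟩ : ST P T))
  constructor
  · intro e e' h
    apply Equiv.ext
    intro a
    exact Subtype.ext (congrFun (congrArg Subtype.val h) a)
  · rintro ⟨κ, hκ1, hκ2⟩
    have hmem : ∀ a, κ a ∈ T := fun a => by
      have : κ a ∈ Set.range κ := ⟨a, rfl⟩
      rw [hκ2] at this
      exact this
    refine ⟨Equiv.ofBijective (fun a => ⟨κ a, hmem a⟩) ⟨?_, ?_⟩, ?_⟩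
    · intro a b h
      exact hκ1 (congrArg Subtype.val h)
    · rintro ⟨z, hz⟩
      have : z ∈ Set.range κ := by rw [hκ2]; exact hz
      obtain ⟨a, ha⟩ := this
      exact ⟨a, Subtype.ext ha⟩
    · rfl

/-- The patterns of type `T` modulo `M` which are not injective modulo `M0`. -/
def ST1 (P : Type) {M M0 : ℕ} (T : Finset (ZMod M)) : Set (P → ZMod (M * M0)) :=
  {κ | (fun a => red (dvd_mul_right M M0) (κ a)) ∈ ST P T ∧
    ¬ Function.Injective (fun a => red (dvd_mul_left M0 M) (κ a))}

theorem ncard_ST1 (P : Type) [Fintype P] {M M0 m : ℕ} [NeZero M] [NeZero M0] (hco : Nat.Coprime M M0)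
    (hP : Fintype.card P = m)
    (T : Finset (ZMod M)) (hT : T.card = m) :
    (ST1 (M0 := M0) P T).ncard = m.factorial * {τ : P → ZMod M0 | ¬ Function.Injective τ}.ncard := by
  let cr := ZMod.chineseRemainder hco
  have hc1 : ∀ z, (cr z).1 = red (dvd_mul_right M M0) z := by
    intro z
    have : (RingHom.fst (ZMod M) (ZMod M0)).comp (cr : ZMod (M * M0) →+* ZMod M × ZMod M0) =
        red (dvd_mul_right M M0) := Subsingleton.elim _ _
    exact congrArg (fun f : ZMod (M * M0) →+* ZMod M => f z) this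
  have hc2 : ∀ z, (cr z).2 = red (dvd_mul_left M0 M) z := by
    intro z
    have : (RingHom.snd (ZMod M) (ZMod M0)).comp (cr : ZMod (M * M0) →+* ZMod M × ZMod M0) =
        red (dvd_mul_left M0 M) := Subsingleton.elim _ _
    exact congrArg (fun f : ZMod (M * M0) →+* ZMod M0 => f z) this
  have hinj : Function.Injective (fun κ : P → ZMod (M * M0) =>
      ((fun a => red (dvd_mul_right M M0) (κ a), fun a => red (dvd_mul_left M0 M) (κ a)) :
        (P → ZMod M) × (P → ZMod M0))) := by
    intro κ κ' h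
    funext a
    apply cr.injective
    refine Prod.ext ?_ ?_
    · rw [hc1, hc1]
      exact congrFun (congrArg Prod.fst h) a
    · rw [hc2, hc2]
      exact congrFun (congrArg Prod.snd h) a
  rw [← Set.ncard_image_of_injective _ hinj]
  have himg : (fun κ : P → ZMod (M * M0) =>
      ((fun a => red (dvd_mul_right M M0) (κ a), fun a => red (dvd_mul_left M0 M) (κ a)) :
        (P → ZMod M) × (P → ZMod M0))) '' (ST1 (M0 := M0) P T) =
      (ST P T) ×ˢ {τ : P → ZMod M0 | ¬ Function.Injective τ} := by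
    ext ⟨σ, τ⟩
    constructor
    · rintro ⟨κ, ⟨h1, h2⟩, h⟩
      simp only [Prod.mk.injEq] at h
      rw [← h.1, ← h.2]
      exact ⟨h1, h2⟩
    · rintro ⟨h1, h2⟩
      refine ⟨fun a => cr.symm (σ a, τ a), ?_, ?_⟩
      · have e1 : (fun a => red (dvd_mul_right M M0) (cr.symm (σ a, τ a))) = σ := by
          funext a
          rw [← hc1, RingEquiv.apply_symm_apply]
        have e2 : (fun a => red (dvd_mul_left M0 M) (cr.symm (σ a, τ a))) = τ := by
          funext a
          rw [← hc2, RingEquiv.apply_symm_apply]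
        refine ⟨?_, ?_⟩
        · show (fun a => red (dvd_mul_right M M0) (cr.symm (σ a, τ a))) ∈ ST P T
          rw [e1]
          exact h1
        · show ¬ Function.Injective (fun a => red (dvd_mul_left M0 M) (cr.symm (σ a, τ a)))
          rw [e2]
          exact h2
      · refine Prod.ext ?_ ?_
        · funext a
          show red (dvd_mul_right M M0) (cr.symm (σ a, τ a)) = σ a
          rw [← hc1, RingEquiv.apply_symm_apply]
        · funext a
          show red (dvd_mul_left M0 M) (cr.symm (σ a, τ a)) = τ a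
          rw [← hc2, RingEquiv.apply_symm_apply]
  rw [himg, Set.ncard_prod, ncard_ST P hP T hT]

section

variable {F L : Type} [Field F] [Fintype F] [Field L] [Fintype L] [Algebra F L] {k M : ℕ}

theorem finrank_sp {x : Fin k → L} (h : LinearIndependent F x) : finrank F (sp F x) = k := by
  rw [finrank_span_eq_card h, Fintype.card_fin]

theorem exists_frame {W : Submodule F L} (hk : finrank F W = k) :
    ∃ x : Fin k → L, LinearIndependent F x ∧ sp F x = W := by
  let b := Module.finBasisOfFinrankEq F W hk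
  have hli : LinearIndependent F (fun i => (b i : L)) :=
    b.linearIndependent.map' W.subtype (Submodule.ker_subtype W)
  refine ⟨fun i => (b i : L), hli, ?_⟩
  apply Submodule.eq_of_le_of_finrank_eq
  · rw [Submodule.span_le]
    rintro _ ⟨i, rfl⟩
    exact (b i).2
  · rw [hk]
    exact finrank_sp hli

end

/-- The two counts. -/
theorem counts (m : ℕ) : ∃ C : ℝ, 0 ≤ C ∧
    (∀ (M k : ℕ) (F L : Type) [Field F] [Fintype F] [Field L]
      [Fintype L] [Algebra F L], M * (Fintype.card F - 1) ∣ Fintype.card L - 1 →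
      Nat.card (ℙ F (Fin k → F)) = m → ∀ T : Finset (ZMod M), T.card = m →
      |(M : ℝ) ^ m * (BB F k * {W : Submodule F L | finrank F W = k ∧ good M W ∧
        ty M W = (T : Set (ZMod M))}.ncard) - m.factorial * (Fintype.card L : ℝ) ^ k| ≤
        m.factorial * (C * (M : ℝ) ^ (m + 5) *
          ((Fintype.card L : ℝ) ^ k / Real.sqrt (Fintype.card L)))) ∧
    (∀ (M M0 k : ℕ) (F L : Type) [Field F] [Fintype F] [Field L]
      [Fintype L] [Algebra F L], M * M0 * (Fintype.card F - 1) ∣ Fintype.card L - 1 →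
      Nat.Coprime M M0 →
      Nat.card (ℙ F (Fin k → F)) = m → ∀ T : Finset (ZMod M), T.card = m →
      |((M * M0 : ℕ) : ℝ) ^ m * (BB F k * {W : Submodule F L | finrank F W = k ∧ good M W ∧
        ty M W = (T : Set (ZMod M)) ∧ ¬ good M0 W}.ncard) -
        (m.factorial * {τ : Fin m → ZMod M0 | ¬ Function.Injective τ}.ncard : ℕ) *
          (Fintype.card L : ℝ) ^ k| ≤
        (m.factorial * {τ : Fin m → ZMod M0 | ¬ Function.Injective τ}.ncard : ℕ) *
          (C * ((M * M0 : ℕ) : ℝ) ^ (m + 5) *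
          ((Fintype.card L : ℝ) ^ k / Real.sqrt (Fintype.card L)))) := by
  obtain ⟨C, hC0, hC⟩ := count m
  refine ⟨C, hC0, ?_, ?_⟩
  · intro M k F L _ _ _ _ _ hMq hm T hT
    have hM : M ∣ Fintype.card L - 1 := (Dvd.intro _ rfl).trans hMq
    have halg : ∀ l : F, l ≠ 0 → cl M (algebraMap F L l) = 0 := fun l hl => cl_alg hMq hl
    have : Fintype (ℙ F (Fin k → F)) := Fintype.ofFinite _
    have hm' := hm
    rw [Nat.card_eq_fintype_card] at hm'
    have h1 := hC M k F L hM hm (ST (ℙ F (Fin k → F)) T)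
      {W : Submodule F L | finrank F W = k ∧ good M W ∧ ty M W = (T : Set (ZMod M))}
      (fun W hW => hW.1) (by
        intro x hx
        constructor
        · rintro ⟨-, h2, h3⟩
          rw [good_iff hM halg hx] at h2
          rw [ty_iff hM halg hx] at h3
          exact ⟨h2, h3⟩
        · rintro ⟨h2, h3⟩
          refine ⟨finrank_sp hx, (good_iff hM halg hx).2 h2, ?_⟩
          rw [ty_iff hM halg hx]
          exact h3)
    rw [ncard_ST _ hm' T hT] at h1
    exact h1
  · intro M M0 k F L _ _ _ _ _ hMq hco hm T hT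
    have hMM : M * M0 ∣ Fintype.card L - 1 := (Dvd.intro _ rfl).trans hMq
    have hM : M ∣ Fintype.card L - 1 := (Dvd.intro _ rfl).trans hMM
    have hM0 : M0 ∣ Fintype.card L - 1 := (Dvd.intro_left _ rfl).trans hMM
    have hMq1 : M * (Fintype.card F - 1) ∣ Fintype.card L - 1 :=
      dvd_trans ⟨M0, by ring⟩ hMq
    have hMq2 : M0 * (Fintype.card F - 1) ∣ Fintype.card L - 1 :=
      dvd_trans ⟨M, by ring⟩ hMq
    have : NeZero M := ⟨(pos_of_dvd hM).ne'⟩
    have : NeZero M0 := ⟨(pos_of_dvd hM0).ne'⟩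
    have halg : ∀ l : F, l ≠ 0 → cl M (algebraMap F L l) = 0 := fun l hl => cl_alg hMq1 hl
    have halg0 : ∀ l : F, l ≠ 0 → cl M0 (algebraMap F L l) = 0 := fun l hl => cl_alg hMq2 hl
    have : Fintype (ℙ F (Fin k → F)) := Fintype.ofFinite _
    have hm' := hm
    rw [Nat.card_eq_fintype_card] at hm'
    have hpat1 : ∀ x : Fin k → L, (fun a => red (dvd_mul_right M M0) (pat (F := F) (M * M0) x a)) =
        pat M x := fun x => funext fun a => red_cl _ _
    have hpat2 : ∀ x : Fin k → L, (fun a => red (dvd_mul_left M0 M) (pat (F := F) (M * M0) x a)) =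
        pat M0 x := fun x => funext fun a => red_cl _ _
    have h1 := hC (M * M0) k F L hMM hm (ST1 (M0 := M0) (ℙ F (Fin k → F)) T)
      {W : Submodule F L | finrank F W = k ∧ good M W ∧ ty M W = (T : Set (ZMod M)) ∧ ¬ good M0 W}
      (fun W hW => hW.1) (by
        intro x hx
        constructor
        · rintro ⟨-, h2, h3, h4⟩
          rw [good_iff hM halg hx] at h2
          rw [good_iff hM0 halg0 hx] at h4
          rw [ty_iff hM halg hx] at h3
          refine ⟨?_, ?_⟩
          · rw [hpat1]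
            exact ⟨h2, h3⟩
          · rw [hpat2]
            exact h4
        · rintro ⟨h2, h4⟩
          rw [hpat1] at h2
          rw [hpat2] at h4
          refine ⟨finrank_sp hx, (good_iff hM halg hx).2 h2.1, ?_, ?_⟩
          · rw [ty_iff hM halg hx]
            exact h2.2
          · rw [good_iff hM0 halg0 hx]
            exact h4)
    rw [ncard_ST1 _ hco hm' T hT] at h1
    have h2 : {τ : ℙ F (Fin k → F) → ZMod M0 | ¬ Function.Injective τ}.ncard =
        {τ : Fin m → ZMod M0 | ¬ Function.Injective τ}.ncard := by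
      let e : ℙ F (Fin k → F) ≃ Fin m := Fintype.equivFinOfCardEq hm'
      rw [← Set.ncard_image_of_injective _ (e.arrowCongr (Equiv.refl (ZMod M0))).injective]
      congr 1
      ext τ
      constructor
      · rintro ⟨τ', h, rfl⟩ h'
        apply h
        intro a b hab
        apply e.injective
        apply h'
        simp only [Equiv.arrowCongr_apply, Equiv.coe_refl, Function.comp_apply,
          Equiv.symm_apply_apply, id_eq]
        exact hab
      · intro h
        refine ⟨τ ∘ e, ?_, ?_⟩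
        · intro h'
          apply h
          intro a b hab
          have := @h' (e.symm a) (e.symm b) (by simpa using hab)
          exact e.symm.injective this
        · funext a
          simp
    rw [h2] at h1
    exact h1

section

variable {F L : Type} [Field F] [Fintype F] [Field L] [Fintype L] [Algebra F L] {k M : ℕ}

/-- The size of the orbit of a subspace with trivial stabiliser. -/
theorem ncard_OrbG {W : Submodule F L} (hW : triv W) :
    (OrbG W).ncard * (Fintype.card F - 1) = Fintype.card L - 1 := by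
  have hO : (OrbG W).ncard = ((univ : Finset Lˣ).image (fun g => gW g W)).card := by
    rw [← Set.ncard_coe_finset]
    congr 1
    ext X
    simp only [coe_image, coe_univ, Set.mem_image, Set.mem_univ, true_and]
    constructor
    · rintro ⟨g, rfl⟩
      exact ⟨g, rfl⟩
    · rintro ⟨g, rfl⟩
      exact ⟨g, rfl⟩
  rw [hO, ← Fintype.card_units (α := L), ← card_univ (α := Lˣ),
    card_eq_sum_card_image (fun g => gW g W) (univ : Finset Lˣ)]
  rw [← smul_eq_mul, ← sum_const]
  apply sum_congr rfl
  intro X hX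
  obtain ⟨g0, -, rfl⟩ := mem_image.1 hX
  rw [← Fintype.card_units, ← card_univ]
  apply card_bij (fun (l : Fˣ) _ => g0 * Units.map (algebraMap F L) l)
  · intro l _
    rw [mem_filter]
    refine ⟨mem_univ _, ?_⟩
    rw [← gW_mul]
    congr 1
    ext y
    rw [mem_gW]
    constructor
    · rintro ⟨w, hw, rfl⟩
      have : ((Units.map (algebraMap F L : F →* L) l : Lˣ) : L) * w = (l : F) • w := by
        rw [Algebra.smul_def]; rfl
      rw [this]
      exact W.smul_mem _ hw
    · intro hy
      refine ⟨(l : F)⁻¹ • y, W.smul_mem _ hy, ?_⟩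
      have : ((Units.map (algebraMap F L : F →* L) l : Lˣ) : L) * ((l : F)⁻¹ • y) =
          (l : F) • ((l : F)⁻¹ • y) := by
        rw [Algebra.smul_def (l : F)]; rfl
      rw [this, smul_smul, mul_inv_cancel₀ l.ne_zero, one_smul]
  · intro l _ l' _ h
    have h1 := mul_left_cancel h
    have h2 := congrArg (fun u : Lˣ => (u : L)) h1
    exact Units.ext ((algebraMap F L).injective h2)
  · intro g hg'
    obtain ⟨-, hg2⟩ := mem_filter.1 hg'
    rw [gW_eq_iff] at hg2
    obtain ⟨l, hl⟩ := hW _ hg2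
    have hl0 : l ≠ 0 := by
      rintro rfl
      rw [map_zero] at hl
      exact (Units.ne_zero _) hl
    refine ⟨Units.mk0 l hl0, mem_univ _, ?_⟩
    have h3 : Units.map (algebraMap F L : F →* L) (Units.mk0 l hl0) = g0⁻¹ * g := by
      ext
      exact hl.symm
    show g0 * Units.map (algebraMap F L : F →* L) (Units.mk0 l hl0) = g
    rw [h3]
    group

/-- The number of orbits which are not good. -/
theorem orbit_count (hMq : M * (Fintype.card F - 1) ∣ Fintype.card L - 1) (hk0 : 0 < k) (m : ℕ)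
    (hm : Nat.card (ℙ F (Fin k → F)) = m) {AR : Set (Submodule F L)}
    (hRk : ∀ W ∈ AR, finrank F W = k) (hRt : ∀ W ∈ AR, triv W) :
    {O : Set (Submodule F L) | ∃ W ∈ AR, ¬ good M W ∧ O = OrbG W}.ncard * M ≤
      Fintype.card F * m ^ 2 * Fintype.card L ^ (k - 1) := by
  have hM : M ∣ Fintype.card L - 1 := (Dvd.intro _ rfl).trans hMq
  have halg : ∀ l : F, l ≠ 0 → cl M (algebraMap F L l) = 0 := fun l hl => cl_alg hMq hl
  set 𝒪 : Finset (Set (Submodule F L)) :=
    ({O : Set (Submodule F L) | ∃ W ∈ AR, ¬ good M W ∧ O = OrbG W}).toFinset with h𝒪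
  have hc : {O : Set (Submodule F L) | ∃ W ∈ AR, ¬ good M W ∧ O = OrbG W}.ncard = 𝒪.card :=
    Set.ncard_eq_toFinset_card' _
  rw [hc]
  have hq1 : 1 < Fintype.card F := Fintype.one_lt_card
  have hQ1 : 1 < Fintype.card L := Fintype.one_lt_card
  have hbad := bad_card (F := F) (L := L) (k := k) hM halg m hm
  have h1 : 𝒪.card * (Fintype.card L - 1) ≤
      {W : Submodule F L | finrank F W = k ∧ ¬ good M W}.ncard * (Fintype.card F - 1) := by
    have h2 : (𝒪.biUnion (fun O => O.toFinset)).card ≤
        {W : Submodule F L | finrank F W = k ∧ ¬ good M W}.ncard := by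
      rw [← Set.ncard_coe_finset]
      apply Set.ncard_le_ncard _ (Set.toFinite _)
      intro X hX
      rw [mem_coe, mem_biUnion] at hX
      obtain ⟨O, hO, hXO⟩ := hX
      rw [h𝒪, Set.mem_toFinset] at hO
      obtain ⟨W, hW, hbW, rfl⟩ := hO
      rw [Set.mem_toFinset] at hXO
      obtain ⟨g, rfl⟩ := hXO
      refine ⟨by rw [finrank_gW, hRk W hW], fun hg => hbW ?_⟩
      have := good_gW hM hg g⁻¹
      rw [gW_mul] at this
      simpa [gW_one] using this
    have h3 : (𝒪.biUnion (fun O => O.toFinset)).card = ∑ O ∈ 𝒪, (O.toFinset).card := by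
      apply card_biUnion
      intro O hO O' hO' hne
      show Disjoint O.toFinset O'.toFinset
      rw [disjoint_left]
      intro X hX hX'
      rw [Set.mem_toFinset] at hX hX'
      rw [h𝒪, mem_coe, Set.mem_toFinset] at hO hO'
      obtain ⟨W, -, -, rfl⟩ := hO
      obtain ⟨W', -, -, rfl⟩ := hO'
      exact hne (by rw [← OrbG_eq hX, ← OrbG_eq hX'])
    calc 𝒪.card * (Fintype.card L - 1) = ∑ O ∈ 𝒪, (Fintype.card L - 1) := by
          rw [sum_const, smul_eq_mul]
      _ = ∑ O ∈ 𝒪, (O.toFinset).card * (Fintype.card F - 1) := by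
          refine sum_congr rfl fun O hO => ?_
          rw [h𝒪, Set.mem_toFinset] at hO
          obtain ⟨W, hW, -, rfl⟩ := hO
          rw [← Set.ncard_eq_toFinset_card', ncard_OrbG (hRt W hW)]
      _ = (∑ O ∈ 𝒪, (O.toFinset).card) * (Fintype.card F - 1) := by rw [sum_mul]
      _ = (𝒪.biUnion (fun O => O.toFinset)).card * (Fintype.card F - 1) := by rw [h3]
      _ ≤ _ := Nat.mul_le_mul_right _ h2
  have hBB : 1 ≤ BB F k := by
    unfold BB
    rw [Nat.one_le_iff_ne_zero, Finset.prod_ne_zero_iff]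
    intro i _
    have := Nat.pow_lt_pow_right hq1 i.2
    omega
  obtain ⟨k', rfl⟩ : ∃ k', k = k' + 1 := ⟨k - 1, by omega⟩
  simp only [Nat.add_sub_cancel]
  have h4 : 𝒪.card * M * (Fintype.card L * (Fintype.card F - 1)) ≤
      Fintype.card F * m ^ 2 * Fintype.card L ^ k' * (Fintype.card L * (Fintype.card F - 1)) := by
    have h5 : Fintype.card L * (Fintype.card F - 1) ≤ Fintype.card F * (Fintype.card L - 1) := by
      obtain ⟨q, hq⟩ : ∃ q, Fintype.card F = q + 1 := ⟨Fintype.card F - 1, by omega⟩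
      obtain ⟨Q, hQ⟩ : ∃ Q, Fintype.card L = Q + 1 := ⟨Fintype.card L - 1, by omega⟩
      have hle : Fintype.card F ≤ Fintype.card L :=
        Fintype.card_le_of_injective (algebraMap F L) (algebraMap F L).injective
      rw [hq, hQ] at hle ⊢
      simp only [Nat.add_sub_cancel]
      nlinarith
    calc 𝒪.card * M * (Fintype.card L * (Fintype.card F - 1))
        ≤ 𝒪.card * M * (Fintype.card F * (Fintype.card L - 1)) := Nat.mul_le_mul_left _ h5
      _ = Fintype.card F * M * (𝒪.card * (Fintype.card L - 1)) := by ring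
      _ ≤ Fintype.card F * M * ({W : Submodule F L | finrank F W = k' + 1 ∧ ¬ good M W}.ncard *
          (Fintype.card F - 1)) := Nat.mul_le_mul_left _ h1
      _ = Fintype.card F * (Fintype.card F - 1) *
          (1 * {W : Submodule F L | finrank F W = k' + 1 ∧ ¬ good M W}.ncard * M) := by ring
      _ ≤ Fintype.card F * (Fintype.card F - 1) *
          (BB F (k' + 1) * {W : Submodule F L | finrank F W = k' + 1 ∧ ¬ good M W}.ncard * M) := by
          apply Nat.mul_le_mul_left
          apply Nat.mul_le_mul_right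
          exact Nat.mul_le_mul_right _ hBB
      _ ≤ Fintype.card F * (Fintype.card F - 1) * (m ^ 2 * Fintype.card L ^ (k' + 1)) :=
          Nat.mul_le_mul_left _ hbad
      _ = _ := by rw [pow_succ]; ring
  exact Nat.le_of_mul_le_mul_right h4 (Nat.mul_pos (by omega) (by omega))

/-- The number of orbits meeting a set. -/
theorem orbits_ge (Z A0 : Set (Submodule F L)) (Pr : Submodule F L → Prop)
    (hZ : ∀ W ∈ Z, W ∈ A0 ∧ Pr W) :
    Z.ncard ≤ {O : Set (Submodule F L) | ∃ E ∈ A0, Pr E ∧ O = OrbG E}.ncard *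
      Fintype.card L := by
  set z : Finset (Submodule F L) := Z.toFinset with hz
  have h1 : Z.ncard = z.card := Set.ncard_eq_toFinset_card' _
  rw [h1, mul_comm]
  have h2 := card_le_mul_card_image (f := OrbG) z (Fintype.card L) (by
    intro O hO
    obtain ⟨W, hW, rfl⟩ := mem_image.1 hO
    refine le_trans ?_ (ncard_OrbG_le W)
    rw [← Set.ncard_coe_finset]
    apply Set.ncard_le_ncard _ (Set.toFinite _)
    intro X hX
    have := (mem_filter.1 (mem_coe.1 hX)).2
    rw [← this]
    exact self_mem_OrbG X)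
  refine h2.trans (Nat.mul_le_mul_left _ ?_)
  rw [← Set.ncard_coe_finset]
  apply Set.ncard_le_ncard _ (Set.toFinite _)
  intro O hO
  obtain ⟨W, hW, rfl⟩ := mem_image.1 (mem_coe.1 hO)
  rw [hz, Set.mem_toFinset] at hW
  exact ⟨W, (hZ W hW).1, (hZ W hW).2, rfl⟩

/-- A small modulus for which a given subspace is good. -/
theorem exists_modulus {M' B b0 : ℕ} {W : Submodule F L} (hk : finrank F W = k)
    (hM' : M' * (Fintype.card F - 1) ∣ Fintype.card L - 1) (hg : good M' W)
    (hB : ∀ p e : ℕ, p.Prime → p ^ e ∣ M' → p ^ e ≤ B) (hB1 : 1 ≤ B)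
    (hb0 : b0 * (Fintype.card F - 1) ∣ Fintype.card L - 1) {m : ℕ}
    (hm : Nat.card (ℙ F (Fin k → F)) = m) :
    ∃ μ, b0 ∣ μ ∧ μ * (Fintype.card F - 1) ∣ Fintype.card L - 1 ∧ good μ W ∧
      μ ≤ b0 * B ^ (m ^ 2) := by
  have : Fintype (ℙ F (Fin k → F)) := Fintype.ofFinite _
  rw [Nat.card_eq_fintype_card] at hm
  obtain ⟨x, hx, rfl⟩ := exists_frame hk
  have hM'd : M' ∣ Fintype.card L - 1 := (Dvd.intro _ rfl).trans hM'
  have halg' : ∀ l : F, l ≠ 0 → cl M' (algebraMap F L l) = 0 := fun l hl => cl_alg hM' hl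
  rw [good_iff hM'd halg' hx] at hg
  have hcl : ∀ (M : ℕ) (u v : L), cl M u = cl M v ↔ M ∣ ((dl v : ℤ) - dl u).natAbs := by
    intro M u v
    unfold cl
    rw [ZMod.natCast_eq_natCast_iff, Nat.modEq_iff_dvd, Int.natCast_dvd]
  have hex : ∀ p : ℙ F (Fin k → F) × ℙ F (Fin k → F), ∃ l : ℕ, l ∣ M' ∧ l ≤ B ∧
      (p.1 ≠ p.2 → cl l (lf p.1.rep x) ≠ cl l (lf p.2.rep x)) := by
    intro p
    by_cases hp : p.1 = p.2
    · exact ⟨1, one_dvd _, hB1, fun h => absurd hp h⟩
    · have h1 : ¬ cl M' (lf p.1.rep x) = cl M' (lf p.2.rep x) := fun h => hp (hg h)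
      rw [hcl, Nat.dvd_iff_prime_pow_dvd_dvd] at h1
      push Not at h1
      obtain ⟨r, e, hr, hre, hnd⟩ := h1
      refine ⟨r ^ e, hre, hB r e hr hre, fun _ h => hnd ?_⟩
      rwa [hcl] at h
  choose lam hl1 hl2 hl3 using hex
  obtain ⟨N, hN⟩ : ∃ N, N * (Fintype.card F - 1) = Fintype.card L - 1 := by
    obtain ⟨c, hc⟩ := hM'
    exact ⟨M' * c, by rw [hc]; ring⟩
  have hq : 0 < Fintype.card F - 1 := by
    have : 1 < Fintype.card F := Fintype.one_lt_card
    omega
  have hQ : 0 < Fintype.card L - 1 := by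
    have : 1 < Fintype.card L := Fintype.one_lt_card
    omega
  have hM'N : M' ∣ N := by
    rw [← hN] at hM'
    exact Nat.dvd_of_mul_dvd_mul_right hq hM'
  have hb0N : b0 ∣ N := by
    rw [← hN] at hb0
    exact Nat.dvd_of_mul_dvd_mul_right hq hb0
  have hM'pos := pos_of_dvd hM'd
  have hb0pos : 0 < b0 := pos_of_dvd ((Dvd.intro _ rfl).trans hb0)
  set X := Finset.univ.lcm lam with hX
  have hXN : X ∣ N := Finset.lcm_dvd fun p _ => (hl1 p).trans hM'N
  have hμN : Nat.lcm b0 X ∣ N := Nat.lcm_dvd hb0N hXN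
  have hμq : Nat.lcm b0 X * (Fintype.card F - 1) ∣ Fintype.card L - 1 := by
    rw [← hN]
    exact Nat.mul_dvd_mul_right hμN _
  have hμd : Nat.lcm b0 X ∣ Fintype.card L - 1 := (Dvd.intro _ rfl).trans hμq
  refine ⟨Nat.lcm b0 X, Nat.dvd_lcm_left _ _, hμq, ?_, ?_⟩
  · rw [good_iff hμd (fun l hl => cl_alg hμq hl) hx]
    intro a b hab
    by_contra hne
    apply hl3 (a, b) hne
    have hd : lam (a, b) ∣ Nat.lcm b0 X :=
      (Finset.dvd_lcm (mem_univ (a, b))).trans (Nat.dvd_lcm_right _ _)
    have h1 : red hd (cl (Nat.lcm b0 X) (lf a.rep x)) = red hd (cl (Nat.lcm b0 X) (lf b.rep x)) := by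
      have : cl (Nat.lcm b0 X) (lf a.rep x) = cl (Nat.lcm b0 X) (lf b.rep x) := hab
      rw [this]
    rw [red_cl, red_cl] at h1
    exact h1
  · have hlpos : ∀ p, 0 < lam p := fun p => Nat.pos_of_dvd_of_pos (hl1 p) hM'pos
    have h1 : X ≤ B ^ (m ^ 2) := by
      have h2 : X ∣ ∏ p, lam p := Finset.lcm_dvd fun p hp => Finset.dvd_prod_of_mem lam hp
      have h3 : 0 < ∏ p, lam p := Finset.prod_pos fun p _ => hlpos p
      refine (Nat.le_of_dvd h3 h2).trans ?_
      refine (Finset.prod_le_pow_card _ _ B fun p _ => hl2 p).trans ?_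
      rw [card_univ, Fintype.card_prod, hm, sq]
    have hXpos : 0 < X := Nat.pos_of_dvd_of_pos hXN (by
      rcases Nat.eq_zero_or_pos N with h | h
      · rw [h, zero_mul] at hN; omega
      · exact h)
    exact (Nat.le_of_dvd (Nat.mul_pos hb0pos hXpos) (Nat.lcm_dvd_mul _ _)).trans
      (Nat.mul_le_mul_left _ h1)

end

end Pool.Agent.Helper491_Inf
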