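import Pool.Agent.Helper491_Inf.Main1
import Pool.Agent.Helper491_Inf.NT

/-!
# Fields with a tower of subfields
-/

set_option autoImplicit false
set_option linter.unusedSectionVars false

namespace Pool.Agent.Helper491_Inf

open Module Finset Pool.Agent.Helper491_Par NT

theorem totient_mul_le (a : ℕ) (b : ℕ) : (b * a).totient ≤ b * a.totient := by
  induction b using induction_on_primes with
  | zero => simp
  | one => simp
  | prime_mul p b hp ih =>
    have h1 : (p * (b * a)).totient ≤ p * (b * a).totient := by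
      by_cases h : p ∣ b * a
      · rw [Nat.totient_mul_of_prime_of_dvd hp h]
      · rw [Nat.totient_mul_of_prime_of_not_dvd hp h]
        exact Nat.mul_le_mul_right _ (Nat.sub_le _ _)
    rw [mul_assoc, mul_assoc]
    exact h1.trans (Nat.mul_le_mul_left _ ih)

/-- A tower of degrees `n 0 ∣ n 1 ∣ … ∣ n a` above `P` with small steps. -/
structure Tower (x P : ℕ) (n : ℕ → ℕ) (a : ℕ) : Prop where
  step : ∀ j < a, n j ∣ n (j + 1) ∧ 2 * n j ≤ n (j + 1) ∧ n (j + 1) ≤ x * n j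
  base : ∀ j ≤ a, ∃ r, n j = P * r ∧ 0 < r ∧ ∀ p : ℕ, p.Prime → p ∣ r → p ≤ x

/-- The numerical inequality. -/
theorem level_ineq {q x m M0 Cs E K A nj t Bi : ℕ} (hq : 2 ≤ q) (hM0 : 0 < M0)
    (hA : A = (Cs * (m * M0)) ^ E * x ^ (m ^ 2 * E) * q ^ (2 * (m ^ 2 * E)) * M0 * q)
    (hK : K = A ^ 2) (hnj : 1 ≤ nj) (hexp : K * nj ^ (2 * (m ^ 2 * E)) ≤ 2 ^ nj)
    (ht : 4 * E * m ^ 2 * t ≤ nj) (hB : Bi ≤ (x * nj) * (q + 1) ^ (1 + t)) {y : ℕ}
    (hy : M0 * y = G q nj) : (Cs * (m * M0 * Bi ^ (m ^ 2))) ^ E ≤ y := by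
  have hq1 : q + 1 ≤ q ^ 2 := by nlinarith
  have h1 : Bi ≤ x * nj * q ^ (2 + 2 * t) := by
    refine hB.trans (Nat.mul_le_mul_left _ ?_)
    calc (q + 1) ^ (1 + t) ≤ (q ^ 2) ^ (1 + t) := Nat.pow_le_pow_left hq1 _
      _ = _ := by rw [← pow_mul]; congr 1; ring
  have h2 : (Cs * (m * M0 * Bi ^ (m ^ 2))) ^ E * M0 * q ≤
      A * nj ^ (m ^ 2 * E) * q ^ (2 * (m ^ 2 * E) * t) := by
    calc (Cs * (m * M0 * Bi ^ (m ^ 2))) ^ E * M0 * q
        = (Cs * (m * M0)) ^ E * (Bi ^ (m ^ 2 * E)) * M0 * q := by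
          rw [pow_mul Bi, ← mul_pow]; ring
      _ ≤ (Cs * (m * M0)) ^ E * ((x * nj * q ^ (2 + 2 * t)) ^ (m ^ 2 * E)) * M0 * q := by
          gcongr
      _ = A * nj ^ (m ^ 2 * E) * q ^ (2 * (m ^ 2 * E) * t) := by
          have e : (x * nj * q ^ (2 + 2 * t)) ^ (m ^ 2 * E) = x ^ (m ^ 2 * E) * nj ^ (m ^ 2 * E) *
              (q ^ (2 * (m ^ 2 * E)) * q ^ (2 * (m ^ 2 * E) * t)) := by
            rw [mul_pow, mul_pow, ← pow_mul, ← pow_add]
            congr 2
            ring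
          rw [hA, e]
          ring
  have h3 : ((Cs * (m * M0 * Bi ^ (m ^ 2))) ^ E * M0 * q) ^ 2 ≤ (q ^ nj) ^ 2 := by
    calc ((Cs * (m * M0 * Bi ^ (m ^ 2))) ^ E * M0 * q) ^ 2
        ≤ (A * nj ^ (m ^ 2 * E) * q ^ (2 * (m ^ 2 * E) * t)) ^ 2 := Nat.pow_le_pow_left h2 2
      _ = (K * nj ^ (2 * (m ^ 2 * E))) * q ^ (4 * E * m ^ 2 * t) := by
          rw [hK, mul_pow, mul_pow, ← pow_mul, ← pow_mul]
          congr 2
          · congr 1
            ring
          · ring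
      _ ≤ 2 ^ nj * q ^ nj := Nat.mul_le_mul hexp (Nat.pow_le_pow_right (by omega) ht)
      _ ≤ q ^ nj * q ^ nj := Nat.mul_le_mul_right _ (Nat.pow_le_pow_left hq _)
      _ = _ := by ring
  have h4 : (Cs * (m * M0 * Bi ^ (m ^ 2))) ^ E * M0 * q ≤ q ^ nj :=
    (Nat.pow_le_pow_iff_left (by norm_num)).1 h3
  have h5 := G_ge (q := q) hnj
  rw [← hy] at h5
  have h6 : (Cs * (m * M0 * Bi ^ (m ^ 2))) ^ E * (M0 * q) ≤ y * (M0 * q) := by
    calc _ = (Cs * (m * M0 * Bi ^ (m ^ 2))) ^ E * M0 * q := by ring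
      _ ≤ q ^ nj := h4
      _ ≤ q * (M0 * y) := h5
      _ = _ := by ring
  exact Nat.le_of_mul_le_mul_right h6 (Nat.mul_pos hM0 (by omega))

theorem tow_main (q k x : ℕ) (hq : 2 ≤ q) (hk : 2 ≤ k) (hx : 2 ≤ x) :
    ∃ c : ℕ, 0 < c ∧ ∀ P, 0 < P → c ∣ P → c * P.totient ≤ P → ∃ R1 : ℕ, ∀ n0, R1 ≤ n0 →
    ∃ R2 : ℕ, ∀ (a : ℕ) (n : ℕ → ℕ), Tower x P n a → n 0 = n0 → R2 ≤ n a →
    ∀ (F L : Type) [Field F] [Fintype F] [Field L] [Fintype L] [Algebra F L],
    Fintype.card F = q → finrank F L = n a →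
    Res k {W : Submodule F L | finrank F W = k ∧ triv W} := by
  obtain ⟨m, hm⟩ : ∃ m, m = G q k := ⟨_, rfl⟩
  have hmq : m * (q - 1) = q ^ k - 1 := by rw [hm]; exact G_mul hq k
  have hm3 : 3 ≤ m := by
    rw [hm]
    refine le_trans ?_ (G_mono hk)
    unfold G
    rw [sum_range_succ, sum_range_one, pow_zero, pow_one]
    omega
  obtain ⟨l, hl1, hl⟩ := Nat.exists_infinite_primes (3 * m + q + x + 3)
  have hl2 : l ≠ 2 := by omega
  have hlq : q < l := by omega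
  have hlx : x < l := by omega
  have hlm : m < l := by omega
  have hlf : Fact l.Prime := ⟨hl⟩
  obtain ⟨E, hE⟩ : ∃ E, E = 2 * (m + 6) := ⟨_, rfl⟩
  refine ⟨k * ((l - 1) * (4 * E * m ^ 2 * x)), ?_, ?_⟩
  · have : 0 < l - 1 := by omega
    have : 0 < E := by omega
    have : 0 < k := by omega
    have : 0 < m := by omega
    have : 0 < x := by omega
    positivity
  intro P hP hcP hφP
  have hkP : k ∣ P := (Dvd.intro _ rfl).trans hcP
  have hlP' : l - 1 ∣ P := (dvd_trans ⟨k * (4 * E * m ^ 2 * x), by ring⟩ hcP)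
  have hφ : 4 * E * m ^ 2 * x * P.totient ≤ P := by
    refine le_trans ?_ hφP
    apply Nat.mul_le_mul_right
    calc 4 * E * m ^ 2 * x = 1 * (1 * (4 * E * m ^ 2 * x)) := by ring
      _ ≤ k * ((l - 1) * (4 * E * m ^ 2 * x)) :=
          Nat.mul_le_mul (by omega) (Nat.mul_le_mul_right _ (by omega))
  have hlP : l ∣ q ^ P - 1 := by
    have h1 : l ∣ q ^ (l - 1) - 1 := by
      have h2 : (q : ZMod l) ≠ 0 := by
        rw [Ne, ZMod.natCast_eq_zero_iff]
        exact fun h => absurd (Nat.le_of_dvd (by omega) h) (by omega)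
      have h3 := ZMod.pow_card_sub_one_eq_one h2
      rw [← ZMod.natCast_eq_zero_iff, Nat.cast_sub (Nat.one_le_pow _ _ (by omega))]
      push_cast
      rw [h3, sub_self]
    obtain ⟨c, hc⟩ := hlP'
    rw [hc, pow_mul]
    exact h1.trans (by simpa using Nat.sub_dvd_pow_sub_pow (q ^ (l - 1)) 1 c)
  -- the modulus `M0`
  obtain ⟨v, hv⟩ : ∃ v, v = padicValNat l (G q P) := ⟨_, rfl⟩
  obtain ⟨M0, hM0⟩ : ∃ M0, M0 = l ^ v := ⟨_, rfl⟩
  have hlq1 : ¬ l ∣ q - 1 := fun h => absurd (Nat.le_of_dvd (by omega) h) (by omega)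
  have hlG : l ∣ G q P := by
    rw [← G_mul hq P] at hlP
    exact (hl.dvd_mul.1 hlP).resolve_right hlq1
  have hGP0 : G q P ≠ 0 := by
    have := G_pos (q := q) (by omega) hP
    omega
  have hv1 : 1 ≤ v := by
    rw [hv]
    exact one_le_padicValNat_of_dvd hGP0 hlG
  have hlM0 : l ≤ M0 := by
    rw [hM0]
    calc l = l ^ 1 := (pow_one l).symm
      _ ≤ l ^ v := Nat.pow_le_pow_right hl.pos hv1
  have hM0pos : 0 < M0 := by omega
  have hM0G : M0 ∣ G q P := by rw [hM0, hv]; exact pow_padicValNat_dvd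
  have hcopm : Nat.Coprime m M0 := by
    rw [hM0]
    apply Nat.Coprime.pow_right
    exact ((Nat.Prime.coprime_iff_not_dvd hl).2 fun h =>
      absurd (Nat.le_of_dvd (by omega) h) (by omega)).symm
  obtain ⟨Cs, Y1, hCs, hass⟩ := assemble q k m M0 hq hk hmq (by omega) (by omega)
  obtain ⟨A, hA⟩ : ∃ A, A = (Cs * (m * M0)) ^ E * x ^ (m ^ 2 * E) * q ^ (2 * (m ^ 2 * E)) * M0 * q :=
    ⟨_, rfl⟩
  obtain ⟨n1, hn1⟩ := exp_dom (A ^ 2) (2 * (m ^ 2 * E))
  refine ⟨n1 + Y1 * M0 + 2, ?_⟩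
  intro n0 hn0R
  obtain ⟨Mg, hMg⟩ : ∃ Mg, Mg = G q n0 / M0 := ⟨_, rfl⟩
  have hex : ∃ Q1 : ℕ, Y1 ≤ Mg → m ∣ Mg → Nat.Coprime Mg M0 →
    ∀ (F L : Type) [Field F] [Fintype F] [Field L] [Fintype L] [Algebra F L], Fintype.card F = q →
    Q1 ≤ Fintype.card L → ∀ (a : ℕ) (y Mt B : ℕ → ℕ), y 0 = Mg → (∀ j ≤ a, 4 ^ j * y 0 ≤ y j) →
    (∀ j ≤ a, y j ∣ Mt j) → (∀ j ≤ a, Mt j * (q - 1) ∣ Fintype.card L - 1) →
    Mt a * (q - 1) = Fintype.card L - 1 → Mg * M0 ∣ Mt a → m * M0 ∣ Mt a →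
    (∀ j ≤ a, ∀ p e : ℕ, p.Prime → p ^ e ∣ Mt j → p ^ e ≤ B j) → (∀ j ≤ a, 1 ≤ B j) →
    (∀ j ≤ a, (Cs * (m * M0 * B (min (j + 1) a) ^ (m ^ 2))) ^ (2 * (m + 6)) ≤ y j) →
    Res k {W : Submodule F L | finrank F W = k ∧ triv W} := by
    by_cases h : Y1 ≤ Mg ∧ m ∣ Mg ∧ Nat.Coprime Mg M0
    · obtain ⟨Q1, hQ1⟩ := hass Mg h.1 h.2.1 h.2.2
      exact ⟨Q1, fun _ _ _ => hQ1⟩
    · exact ⟨0, fun h1 h2 h3 => absurd ⟨h1, h2, h3⟩ h⟩
  obtain ⟨Q1, hQ1⟩ := hex
  refine ⟨Q1, ?_⟩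
  intro a n ht hn0 hR2 F L _ _ _ _ _ hcF hfL
  -- the tower
  have hnn : ∀ j ≤ a, n0 ≤ n j := by
    intro j
    induction j with
    | zero => intro _; rw [hn0]
    | succ j ih =>
      intro hj
      have h1 := ih (by omega)
      have h2 := (ht.step j (by omega)).2.1
      omega
  have hdvd : ∀ i j, j + i ≤ a → n j ∣ n (j + i) := by
    intro i j
    induction i with
    | zero => intro _; exact dvd_rfl
    | succ i ih =>
      intro h
      exact (ih (by omega)).trans (ht.step (j + i) (by omega)).1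
  have hdvda : ∀ j ≤ a, n j ∣ n a := by
    intro j hj
    have := hdvd (a - j) j (by omega)
    rwa [Nat.add_sub_cancel' hj] at this
  have hPn : ∀ j ≤ a, P ∣ n j := by
    intro j hj
    obtain ⟨r, hr, -, -⟩ := ht.base j hj
    exact ⟨r, hr⟩
  have hM0Gj : ∀ j ≤ a, M0 ∣ G q (n j) := fun j hj => hM0G.trans (G_dvd hq (hPn j hj))
  obtain ⟨y, hy⟩ : ∃ y : ℕ → ℕ, y = fun j => G q (n j) / M0 := ⟨_, rfl⟩
  have hyG : ∀ j ≤ a, M0 * y j = G q (n j) := by
    intro j hj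
    rw [hy]
    exact Nat.mul_div_cancel' (hM0Gj j hj)
  have hval : ∀ j ≤ a, padicValNat l (G q (n j)) = v := by
    intro j hj
    obtain ⟨r, hr, hr0, hrp⟩ := ht.base j hj
    rw [hr, hv]
    exact val_G hq hl hlq hl2 hP hlP hr0 fun h => absurd (hrp l hl h) (by omega)
  have hcopy : ∀ j ≤ a, Nat.Coprime (y j) M0 := by
    intro j hj
    rw [hM0]
    apply Nat.Coprime.pow_right
    refine ((Nat.Prime.coprime_iff_not_dvd hl).2 fun h => ?_).symm
    have hG0 : G q (n j) ≠ 0 := by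
      have := G_pos (q := q) (n := n j) (by omega) (by have := hnn j hj; omega)
      omega
    have h1 : l ^ (v + 1) ∣ G q (n j) := by
      rw [← hyG j hj, pow_succ, ← hM0]
      exact Nat.mul_dvd_mul_left _ h
    have h2 := (padicValNat_dvd_iff_le hG0).1 h1
    rw [hval j hj] at h2
    omega
  have hmy : ∀ j ≤ a, m ∣ y j := by
    intro j hj
    have h1 : m ∣ M0 * y j := by
      rw [hyG j hj, hm]
      exact G_dvd hq (hkP.trans (hPn j hj))
    exact hcopm.dvd_of_dvd_mul_left h1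
  have hy0 : y 0 = Mg := by rw [hy, hMg, ← hn0]
  have hgrow : ∀ j ≤ a, 4 ^ j * y 0 ≤ y j := by
    intro j
    induction j with
    | zero => intro _; simp
    | succ j ih =>
      intro hj
      have h1 := ih (by omega)
      have h2 := G_growth (q := q) hq (n := n j) (n' := n (j + 1))
        (by have := hnn j (by omega); omega) (ht.step j (by omega)).2.1
      rw [← hyG j (by omega), ← hyG (j + 1) hj] at h2
      have h3 : M0 * (4 * y j) ≤ M0 * y (j + 1) := by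
        calc M0 * (4 * y j) = 4 * (M0 * y j) := by ring
          _ ≤ _ := h2
      have h4 := Nat.le_of_mul_le_mul_left h3 hM0pos
      calc 4 ^ (j + 1) * y 0 = 4 * (4 ^ j * y 0) := by ring
        _ ≤ 4 * y j := Nat.mul_le_mul_left _ h1
        _ ≤ _ := h4
  have hY1 : Y1 ≤ Mg := by
    rw [hMg, Nat.le_div_iff_mul_le hM0pos]
    have h1 : n0 ≤ G q n0 := by
      unfold G
      calc n0 = ∑ i ∈ range n0, 1 := by simp
        _ ≤ _ := sum_le_sum fun i _ => Nat.one_le_pow _ _ (by omega)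
    omega
  have hfd : FiniteDimensional F L := Module.Finite.of_finite
  have hcL : Fintype.card L = q ^ n a := by
    rw [Module.card_eq_pow_finrank (K := F) (V := L), hcF, hfL]
  have hcL' : G q (n a) * (q - 1) = Fintype.card L - 1 := by
    rw [G_mul hq, hcL]
  have hQ1L : Q1 ≤ Fintype.card L := by
    rw [hcL]
    exact hR2.trans (Nat.lt_pow_self (by omega)).le
  apply hQ1 hY1 (by rw [← hy0]; exact hmy 0 (by omega)) (by rw [← hy0]; exact hcopy 0 (by omega))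
    F L hcF hQ1L a y (fun j => G q (n j)) (fun j => n j * (q + 1) ^ (1 + (n j).totient)) hy0 hgrow
  · intro j hj
    exact ⟨M0, by rw [mul_comm]; exact (hyG j hj).symm⟩
  · intro j hj
    rw [← hcL']
    exact Nat.mul_dvd_mul_right (G_dvd hq (hdvda j hj)) _
  · exact hcL'
  · rw [← hy0, mul_comm, hyG 0 (by omega)]
    exact G_dvd hq (hdvda 0 (by omega))
  · apply hcopm.mul_dvd_of_dvd_of_dvd
    · rw [hm]
      exact G_dvd hq (hkP.trans (hPn a le_rfl))
    · exact hM0Gj a le_rfl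
  · intro j hj p e hp hpe
    exact primepow_le hq hp (by have := hnn j hj; omega) hpe
  · intro j hj
    have h1 : 0 < n j := by have := hnn j hj; omega
    exact Nat.mul_pos h1 (Nat.pow_pos (by omega))
  · intro j hj
    have hia : min (j + 1) a ≤ a := min_le_right _ _
    have hnx : n (min (j + 1) a) ≤ x * n j := by
      rcases Nat.lt_or_ge j a with h | h
      · rw [min_eq_left (by omega)]
        exact (ht.step j h).2.2
      · rw [min_eq_right (by omega)]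
        have : j = a := by omega
        rw [this]
        exact Nat.le_mul_of_pos_left _ (by omega)
    obtain ⟨r, hr, hr0, -⟩ := ht.base _ hia
    have hφi : 4 * E * m ^ 2 * (n (min (j + 1) a)).totient ≤ n j := by
      have h1 : (n (min (j + 1) a)).totient ≤ r * P.totient := by
        rw [hr, mul_comm P r]
        exact totient_mul_le P r
      have h2 : x * (4 * E * m ^ 2 * (n (min (j + 1) a)).totient) ≤ x * n j := by
        calc x * (4 * E * m ^ 2 * (n (min (j + 1) a)).totient)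
            ≤ x * (4 * E * m ^ 2 * (r * P.totient)) :=
              Nat.mul_le_mul_left _ (Nat.mul_le_mul_left _ h1)
          _ = r * (4 * E * m ^ 2 * x * P.totient) := by ring
          _ ≤ r * P := Nat.mul_le_mul_left _ hφ
          _ = n (min (j + 1) a) := by rw [hr, mul_comm]
          _ ≤ _ := hnx
      exact Nat.le_of_mul_le_mul_left h2 (by omega)
    rw [← hE]
    apply level_ineq (q := q) (x := x) (m := m) (M0 := M0) (Cs := Cs) (E := E) (K := A ^ 2) (A := A)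
      (nj := n j) (t := (n (min (j + 1) a)).totient) hq hM0pos hA rfl
      (by have := hnn j hj; omega) (hn1 _ (by have := hnn j hj; omega)) hφi
      (Nat.mul_le_mul_right _ hnx) (hyG j hj)

end Pool.Agent.Helper491_Inf
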