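import Pool.Agent.Helper491_Par.Equi
import Pool.Agent.Helper491_Inf.Cls

/-!
# Character sums with explicit constants
-/

set_option autoImplicit false

namespace Pool.Agent.Helper491_Inf.WX

open Polynomial Finset Pool.Agent.Helper491_Par.Weil Pool.Agent.Helper491_Par.Equi

open Classical in
theorem crdX (t d : ℕ) (ht : 2 ≤ t) (M0 : ℕ) (hM0 : M0 = (d + 3) + (d + 2) * (1 + t * d) + 1)
    (F : Type) [Field F] [Fintype F]
    (f : F[X]) (hf1 : 1 ≤ f.natDegree) (hfd : f.natDegree ≤ d) (hf0 : f.eval 0 ≠ 0)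
    (hns : Cop t f) (a : F) (Q : ℕ) (hQ : t * Q + 1 = Fintype.card F) :
    ((univ.filter fun x : F => f.eval x = 0 ∨ f.eval x ^ Q = a).card : ℝ) ≤
      Fintype.card F / t + ((M0 : ℝ) + 5 * d + 6) * Real.sqrt (Fintype.card F) := by
  classical
  obtain ⟨q, hq⟩ : ∃ q, q = Fintype.card F := ⟨_, rfl⟩
  obtain ⟨N, hN⟩ : ∃ N, N = (univ.filter fun x : F => f.eval x = 0 ∨ f.eval x ^ Q = a).card :=
    ⟨_, rfl⟩
  have key := fun m J D => cor F t ht f hf1 hf0 hns a m J D Q hQ
  have hNq : N ≤ q := by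
    rw [hN, hq]; exact Finset.card_le_univ _
  rw [← hq] at key hQ ⊢
  have hgoal : (N : ℝ) ≤ q / t + ((M0 : ℝ) + 5 * d + 6) * Real.sqrt q := by
    obtain ⟨m, hm⟩ : ∃ m, m = Nat.sqrt q := ⟨_, rfl⟩
    have hm1 : m * m ≤ q := by rw [hm]; exact Nat.sqrt_le q
    have hm2 : q < (m + 1) * (m + 1) := by rw [hm]; exact Nat.lt_succ_sqrt q
    have hm3 : 1 ≤ m := by
      by_contra h0
      have : m = 0 := by omega
      subst this
      omega
    have hq0 : (0 : ℝ) ≤ q := Nat.cast_nonneg q
    have hs : Real.sqrt q ≤ m + 1 := by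
      rw [Real.sqrt_le_left (by positivity)]
      have : (q : ℝ) ≤ ((m + 1) * (m + 1) : ℕ) := by exact_mod_cast hm2.le
      push_cast at this
      nlinarith
    have hsq : Real.sqrt q * Real.sqrt q = q := Real.mul_self_sqrt hq0
    have hs0 : 0 ≤ Real.sqrt q := Real.sqrt_nonneg _
    have ht2 : 2 ≤ t := ht
    have htR : (0 : ℝ) < t := by exact_mod_cast (by omega : 0 < t)
    have hqt : (0 : ℝ) ≤ q / t := by positivity
    by_cases hbig : m < M0
    · have h1 : (N : ℝ) ≤ q := by exact_mod_cast hNq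
      have h2 : (m : ℝ) + 1 ≤ M0 := by exact_mod_cast hbig
      have h3 : Real.sqrt q * Real.sqrt q ≤ M0 * Real.sqrt q :=
        mul_le_mul_of_nonneg_right (hs.trans h2) hs0
      have h4 : 0 ≤ (5 * (d : ℝ) + 6) * Real.sqrt q := by positivity
      nlinarith
    · push Not at hbig
      obtain ⟨e, he⟩ : ∃ e, e = f.natDegree := ⟨_, rfl⟩
      rw [← he] at key hf1 hfd
      have hQe : e ≤ Q := by
        refine hfd.trans ?_
        by_contra hlt
        push Not at hlt
        have h1 : t * Q ≤ t * d := Nat.mul_le_mul_left _ hlt.le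
        have h2 : M0 * M0 ≤ m * m := Nat.mul_le_mul hbig hbig
        have h3 : t * d + 2 ≤ M0 := by
          rw [hM0]; nlinarith [Nat.zero_le (t * d), Nat.zero_le (d * (1 + t * d))]
        nlinarith
      obtain ⟨D, hD⟩ : ∃ D, D + e = Q := ⟨Q - e, by omega⟩
      obtain ⟨J, hJ⟩ : ∃ J, J = m / t + (d + 3) := ⟨_, rfl⟩
      have hJ1 : 1 ≤ J := by
        rw [hJ]
        exact le_trans (by omega) (Nat.le_add_left (d + 3) (m / t))
      have hk := key m J D (by rw [hD]; omega) (le_trans (by nlinarith) hm1) hJ1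
        (crd_dim t d e m J D Q q ht2 hQ hf1 hfd hD hm1 (by omega) hJ)
      rw [← hN] at hk
      have hJ2 : t * (J - 1) ≤ m + t * (d + 2) := by
        have h1 : J - 1 = m / t + (d + 2) := by
          rw [hJ]
          rfl
        rw [h1, mul_add]
        have := Nat.mul_div_le m t
        omega
      -- pass to the reals
      have hJR : ((J - 1 : ℕ) : ℝ) ≤ m / t + (d + 2) := by
        have : (t : ℝ) * ((J - 1 : ℕ) : ℝ) ≤ m + t * (d + 2) := by exact_mod_cast hJ2
        rw [← mul_le_mul_iff_right₀ htR]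
        calc (t : ℝ) * ((J - 1 : ℕ) : ℝ) ≤ m + t * (d + 2) := this
          _ = t * (m / t + (d + 2)) := by field_simp
      have hA : (t - 1) * Q * e ≤ q * d := by
        refine Nat.mul_le_mul ?_ hfd
        have : (t - 1) * Q ≤ t * Q := Nat.mul_le_mul_right _ (by omega)
        omega
      have hB : D ≤ q := by
        have : Q ≤ t * Q := Nat.le_mul_of_pos_left _ (by omega)
        omega
      have hme : m * e ≤ m * d := Nat.mul_le_mul_left _ hfd
      have hk2 : m * N ≤ m * d + q * d + q + (J - 1) * q := by omega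
      have hk3 : (m : ℝ) * N ≤ m * d + q * d + q + ((J - 1 : ℕ) : ℝ) * q := by exact_mod_cast hk2
      have hk4 : ((J - 1 : ℕ) : ℝ) * q ≤ (m / t + (d + 2)) * q := mul_le_mul_of_nonneg_right hJR hq0
      have hmR : (1 : ℝ) ≤ m := by exact_mod_cast hm3
      have hq2 : (q : ℝ) ≤ 2 * m * Real.sqrt q := by
        have : Real.sqrt q ≤ 2 * m := by linarith
        nlinarith [mul_le_mul_of_nonneg_right this hs0]
      have hs1 : 1 ≤ Real.sqrt q := by
        rw [Real.one_le_sqrt]
        exact_mod_cast (show 1 ≤ q by omega)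
      have hd0 : (0 : ℝ) ≤ d := Nat.cast_nonneg d
      have hk5 : (m : ℝ) * N ≤ m * (q / t + (5 * d + 6) * Real.sqrt q) := by
        have h1 : (m / t + ((d : ℝ) + 2)) * q = m * (q / t) + (d + 2) * q := by ring
        have h2 : (2 * (d : ℝ) + 3) * q ≤ (2 * d + 3) * (2 * m * Real.sqrt q) :=
          mul_le_mul_of_nonneg_left hq2 (by positivity)
        have h3 : (m : ℝ) * d ≤ m * (d * Real.sqrt q) := by
          refine mul_le_mul_of_nonneg_left ?_ (by positivity)
          nlinarith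
        calc (m : ℝ) * N ≤ m * d + q * d + q + (m * (q / t) + (d + 2) * q) := by linarith
          _ = m * d + (2 * d + 3) * q + m * (q / t) := by ring
          _ ≤ m * (d * Real.sqrt q) + (2 * d + 3) * (2 * m * Real.sqrt q) + m * (q / t) := by
            linarith
          _ = m * (q / t + (5 * d + 6) * Real.sqrt q) := by ring
      have hk6 : (N : ℝ) ≤ q / t + (5 * d + 6) * Real.sqrt q :=
        le_of_mul_le_mul_left hk5 (by linarith)
      have h4 : 0 ≤ (M0 : ℝ) * Real.sqrt q := by positivity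
      nlinarith
  convert hgoal
  exact hN.symm

open Classical in
open Pool.Agent.H435R3.Weil.WELE in
theorem weleX (t d : ℕ) (ht2 : 2 ≤ t) (K0 : ℝ)
    (hK0e : K0 = (((d + 3) + (d + 2) * (1 + t * d) + 1 : ℕ) : ℝ) + 5 * d + 6)
    (E : Type) [Field E] [Fintype E]
    (htq : t ∣ Fintype.card E - 1) (χ : MulChar E ℂ) (hχ1 : χ ≠ 1) (hχ : χ ^ t = 1) (f : E[X])
    (hfd : f.natDegree ≤ d) (hf : f ≠ 0) (hft : Cop t f) :
    ‖∑ x : E, χ (f.eval x)‖ ≤ (t ^ 2 * K0 + t * d + d) * Real.sqrt (Fintype.card E) := by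
  have hK0 : 0 ≤ K0 := by rw [hK0e]; positivity
  have hcrd := crdX t d ht2 _ rfl
  have ht : 0 < t := by omega
  have hq1 : (1 : ℝ) ≤ Real.sqrt (Fintype.card E) := by
    rw [Real.one_le_sqrt]
    exact_mod_cast Fintype.card_pos
  obtain ⟨Q, hQ⟩ := htq
  have hq2 : 2 ≤ Fintype.card E := Fintype.one_lt_card
  have hQ' : t * Q + 1 = Fintype.card E := by omega
  have hQ0 : 0 < Q := by
    rcases Nat.eq_zero_or_pos Q with h0 | h0
    · rw [h0] at hQ'
      omega
    · exact h0
  have hdeg : 1 ≤ f.natDegree := by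
    by_contra hlt
    have h0 : f.natDegree = 0 := by omega
    obtain ⟨c, hc⟩ := natDegree_eq_zero.1 h0
    have h1 := hft 1 (fun v => by rw [← hc, rootMultiplicity_C, mul_zero]; exact dvd_zero t)
    have h2 := Nat.le_of_dvd one_pos h1
    omega
  by_cases hqd : Fintype.card E ≤ d
  · have h1 : ‖∑ x : E, χ (f.eval x)‖ ≤ Fintype.card E := by
      refine (norm_sum_le _ _).trans ?_
      calc ∑ x : E, ‖χ (f.eval x)‖ ≤ ∑ x : E, (1 : ℝ) :=
            Finset.sum_le_sum fun x _ => _root_.Pool.Agent.H435R3.Weil.WELE.mc_norm_le_one χ _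
        _ = Fintype.card E := by simp
    have h2 : (Fintype.card E : ℝ) ≤ d := by exact_mod_cast hqd
    have h3 : (0 : ℝ) ≤ t ^ 2 * K0 + t * d := by positivity
    have h4 : (0 : ℝ) ≤ d := Nat.cast_nonneg d
    nlinarith
  · -- translation
    obtain ⟨c, hc⟩ : ∃ c : E, f.eval c ≠ 0 := by
      by_contra hcon
      push Not at hcon
      have h1 : (Finset.univ : Finset E).card ≤ f.natDegree := by
        refine (Finset.card_le_card (t := f.roots.toFinset) ?_).trans
          ((Multiset.toFinset_card_le _).trans (card_roots' f))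
        intro x _
        rw [Multiset.mem_toFinset, mem_roots hf]
        exact hcon x
      rw [Finset.card_univ] at h1
      omega
    set g := f.comp (X + C c) with hg
    have hge : ∀ x, g.eval x = f.eval (x + c) := by
      intro x
      rw [hg, eval_comp]
      simp
    have hgf : g.comp (X - C c) = f := by
      rw [hg, comp_assoc]
      simp
    have hgd : g.natDegree = f.natDegree := by
      rw [hg, natDegree_comp, natDegree_X_add_C, mul_one]
    have hg0 : g ≠ 0 := by
      intro h0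
      rw [h0, zero_comp] at hgf
      exact hf hgf.symm
    have hsum : ∑ x : E, χ (f.eval x) = ∑ x : E, χ (g.eval x) := by
      simp only [hge]
      exact (Equiv.sum_comp (Equiv.addRight c) (fun x => χ (f.eval x))).symm
    have hgt : Cop t g := by
      intro s hs
      apply hft s
      intro v
      have h1 := hs (v - c)
      rw [hg, rm_comp] at h1
      exact h1
    have hN : ∀ a : E, ((univ.filter fun x : E => g.eval x ≠ 0 ∧
        g.eval x ^ Q = a).card : ℝ) ≤
          Fintype.card E / t + K0 * Real.sqrt (Fintype.card E) := by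
      intro a
      have h1 := hcrd E g (by rw [hgd]; exact hdeg) (by rw [hgd]; exact hfd)
        (by rw [hge, zero_add]; exact hc) hgt a Q hQ'
      rw [← hK0e] at h1
      refine le_trans (Nat.cast_le.2 (Finset.card_le_card ?_)) h1
      intro x hx
      have hx' := (Finset.mem_filter.1 hx).2
      simp only [Finset.mem_filter, Finset.mem_univ, true_and]
      exact Or.inr hx'.2
    rw [hsum]
    refine (main (d := d) hK0 ht hQ' hQ0 χ hχ hχ1 g hg0 (by rw [hgd]; exact hfd) hN).trans ?_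
    have h4 : (0 : ℝ) ≤ d := Nat.cast_nonneg d
    nlinarith

/-- The constant. -/
def KW (M D : ℕ) : ℕ :=
  M ^ 2 * ((((D * M + 3) + (D * M + 2) * (1 + M * (D * M)) + 1) + 5 * (D * M) + 6)) +
    M * (D * M) + D * M

/-- The bound for one variable. -/
theorem one_varX (M D : ℕ) (L : Type) [Field L] [Fintype L]
    (ψ : MulChar L ℂ) (hψ : orderOf ψ = M) (I : Type) (A : Finset I) (j : I → ℕ) (α β : I → L)
    (hAD : A.card ≤ D) (hα : ∀ a ∈ A, α a ≠ 0) (hj : ∀ a ∈ A, j a ≤ M)
    (hdist : ∀ a ∈ A, ∀ b ∈ A, a ≠ b → β a / α a ≠ β b / α b) (hex : ∃ a ∈ A, ¬ M ∣ j a) :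
    ‖∑ y : L, ψ (∏ a ∈ A, (β a + α a * y) ^ j a)‖ ≤ (KW M D : ℝ) * Real.sqrt (Fintype.card L) := by
  classical
  obtain ⟨a0, ha0, hja0⟩ := hex
  have hM0 : 0 < M := by
    rcases Nat.eq_zero_or_pos M with h | h
    · exfalso
      apply hja0
      have := hj a0 ha0
      rw [h] at this ⊢
      rw [Nat.le_zero.1 this]
    · exact h
  set g := Nat.gcd M (A.gcd j) with hg
  have hgM : g ∣ M := Nat.gcd_dvd_left _ _
  have hgj : ∀ a ∈ A, g ∣ j a := fun a ha => (Nat.gcd_dvd_right _ _).trans (Finset.gcd_dvd ha)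
  have hg0 : 0 < g := Nat.pos_of_dvd_of_pos hgM hM0
  obtain ⟨t, ht⟩ := hgM
  have ht0 : t ≠ 0 := by
    rintro rfl
    omega
  have ht1 : t ≠ 1 := by
    rintro rfl
    rw [mul_one] at ht
    apply hja0
    rw [ht]
    exact hgj a0 ha0
  have ht2 : 2 ≤ t := by omega
  have htM : t ≤ M := by
    rw [ht]
    exact Nat.le_mul_of_pos_left t hg0
  have hMcard : M ∣ Fintype.card L - 1 := by
    rw [← hψ]
    rw [orderOf_dvd_iff_pow_eq_one]
    ext u
    rw [MulChar.pow_apply_coe, MulChar.one_apply_coe, ← map_pow, ← Units.val_pow_eq_pow_val]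
    have : u ^ (Fintype.card L - 1) = 1 := by
      rw [← Fintype.card_units]
      exact pow_card_eq_one
    rw [this]
    simp
  set f : L[X] := ∏ a ∈ A, (C (β a) + C (α a) * X) ^ (j a / g) with hf
  have hne : ∀ a ∈ A, (C (β a) + C (α a) * X : L[X]) ≠ 0 := by
    intro a ha h0
    have := congrArg (fun p => coeff p 1) h0
    simp at this
    exact hα a ha this
  have hf0 : f ≠ 0 := Finset.prod_ne_zero_iff.2 fun a ha => pow_ne_zero _ (hne a ha)
  have hdeg : f.natDegree ≤ D * M := by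
    rw [hf]
    refine (natDegree_prod_le _ _).trans ?_
    calc ∑ a ∈ A, ((C (β a) + C (α a) * X : L[X]) ^ (j a / g)).natDegree ≤ ∑ a ∈ A, M := by
          refine sum_le_sum fun a ha => ?_
          refine natDegree_pow_le.trans ?_
          have h1 : (C (β a) + C (α a) * X : L[X]).natDegree ≤ 1 := by
            compute_degree
          calc j a / g * (C (β a) + C (α a) * X : L[X]).natDegree ≤ j a / g * 1 :=
                Nat.mul_le_mul_left _ h1
            _ = j a / g := mul_one _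
            _ ≤ j a := Nat.div_le_self _ _
            _ ≤ M := hj a ha
      _ = A.card * M := by rw [sum_const, smul_eq_mul]
      _ ≤ D * M := Nat.mul_le_mul_right _ hAD
  -- multiplicities
  have hmult : ∀ a ∈ A, rootMultiplicity (-(β a / α a)) f = j a / g := by
    intro a ha
    have hfac : ∀ b ∈ A, rootMultiplicity (-(β a / α a)) (C (β b) + C (α b) * X : L[X]) =
        if b = a then 1 else 0 := by
      intro b hb
      have e1 : (C (β b) + C (α b) * X : L[X]) = C (α b) * (X - C (-(β b / α b))) := by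
        rw [mul_sub, ← C_mul]
        have : α b * -(β b / α b) = - β b := by
          have := hα b hb
          field_simp
        rw [this, C_neg]
        ring
      have hmul := hne b hb
      rw [e1] at hmul ⊢
      rw [rootMultiplicity_mul hmul, rootMultiplicity_C, zero_add, rootMultiplicity_X_sub_C]
      by_cases hab : b = a
      · rw [if_pos (by rw [hab]), if_pos hab]
      · rw [if_neg, if_neg hab]
        intro h
        exact hdist a ha b hb (fun h => hab h.symm) (neg_inj.1 h)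
    have hprod : ∀ s ⊆ A, rootMultiplicity (-(β a / α a))
        (∏ b ∈ s, (C (β b) + C (α b) * X : L[X]) ^ (j b / g)) = if a ∈ s then j a / g else 0 := by
      intro s
      induction s using Finset.induction_on with
      | empty =>
        intro _
        rw [prod_empty, ← C_1, rootMultiplicity_C]
        simp
      | insert b s hbs ih =>
        intro hsub
        have hbA : b ∈ A := hsub (mem_insert_self _ _)
        have hsA : s ⊆ A := fun x hx => hsub (mem_insert_of_mem hx)
        rw [prod_insert hbs, rootMultiplicity_mul (mul_ne_zero (pow_ne_zero _ (hne b hbA))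
          (Finset.prod_ne_zero_iff.2 fun c hc => pow_ne_zero _ (hne c (hsA hc)))), ih hsA,
          rm_pow _ _ (hne b hbA), hfac b hbA]
        by_cases hab : b = a
        · subst hab
          rw [if_pos rfl, if_neg hbs, if_pos (mem_insert_self _ _)]
          simp
        · rw [if_neg hab, mul_zero, zero_add]
          by_cases has : a ∈ s
          · rw [if_pos has, if_pos (mem_insert_of_mem has)]
          · rw [if_neg has, if_neg]
            intro h
            rcases mem_insert.1 h with h | h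
            · exact hab h.symm
            · exact has h
    have := hprod A (subset_refl _)
    rw [if_pos ha] at this
    exact this
  have hcop : Cop t f := by
    intro s hs
    have h1 : ∀ a ∈ A, M ∣ s * j a := by
      intro a ha
      have h2 := hs (-(β a / α a))
      rw [hmult a ha] at h2
      have h3 := Nat.mul_dvd_mul_left g h2
      rw [← ht] at h3
      have h4 : g * (s * (j a / g)) = s * j a := by
        have := Nat.div_mul_cancel (hgj a ha)
        calc g * (s * (j a / g)) = s * (j a / g * g) := by ring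
          _ = s * j a := by rw [this]
      rwa [h4] at h3
    have h2 : M ∣ s * A.gcd j := by
      have h3 : M ∣ A.gcd (fun a => s * j a) := Finset.dvd_gcd h1
      rw [Finset.gcd_mul_left] at h3
      simpa using h3
    have h3 : M ∣ s * g := by
      rw [hg, ← Nat.gcd_mul_left]
      exact Nat.dvd_gcd (Dvd.intro_left s rfl) h2
    rw [ht, mul_comm g t] at h3
    exact Nat.dvd_of_mul_dvd_mul_right hg0 h3
  have hψg : ψ ^ g ≠ 1 := by
    intro h1
    have h2 := orderOf_dvd_of_pow_eq_one h1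
    rw [hψ] at h2
    have h3 := Nat.le_of_dvd hg0 h2
    have h4 : g * 2 ≤ g * t := Nat.mul_le_mul_left g ht2
    omega
  have hψgt : (ψ ^ g) ^ t = 1 := by
    rw [← pow_mul, ← ht, ← hψ]
    exact pow_orderOf_eq_one ψ
  have hsum : ∀ y : L, ψ (∏ a ∈ A, (β a + α a * y) ^ j a) = (ψ ^ g) (f.eval y) := by
    intro y
    rw [MulChar.pow_apply' _ hg0.ne', ← map_pow]
    congr 1
    rw [hf, eval_prod, ← prod_pow]
    refine prod_congr rfl fun a ha => ?_
    rw [eval_pow, ← pow_mul, Nat.div_mul_cancel (hgj a ha)]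
    simp
  rw [sum_congr rfl (fun y _ => hsum y)]
  refine (weleX t (D * M) ht2 _ rfl L (Dvd.dvd.trans ⟨g, by rw [ht]; ring⟩ hMcard) (ψ ^ g) hψg hψgt f
    hdeg hf0 hcop).trans ?_
  apply mul_le_mul_of_nonneg_right _ (Real.sqrt_nonneg _)
  have h1 : t ^ 2 * ((((D * M + 3) + (D * M + 2) * (1 + t * (D * M)) + 1) + 5 * (D * M) + 6)) +
      t * (D * M) + D * M ≤ KW M D := by
    unfold KW
    gcongr
  have h2 : ((t ^ 2 * ((((D * M + 3) + (D * M + 2) * (1 + t * (D * M)) + 1) + 5 * (D * M) + 6)) +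
      t * (D * M) + D * M : ℕ) : ℝ) ≤ (KW M D : ℝ) := by exact_mod_cast h1
  refine le_trans (le_of_eq ?_) h2
  push_cast
  ring

/-- The bound for several variables. -/
theorem sum_boundX (M D : ℕ) (K : ℝ) (hKe : K = KW M D) (k : ℕ) (F L I : Type) [Field F] [Field L] [Fintype L]
    [Algebra F L] [Fintype I] (ψ : MulChar L ℂ) (hψ : orderOf ψ = M) (hD : Fintype.card I ≤ D)
    (v : I → Fin k → F) (hv : ∀ a, v a ≠ 0) (hind : ∀ a b, a ≠ b → ∀ c : F, v a ≠ c • v b)
    (j : I → ℕ) (hj : ∀ a, j a ≤ M) (hex : ∃ a, ¬ M ∣ j a) :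
    ‖∑ x : Fin k → L, ψ (∏ a, (lf (v a) x) ^ j a)‖ * Real.sqrt (Fintype.card L) ≤
      (K + D ^ 2) * (Fintype.card L : ℝ) ^ k := by
  classical
  have hK : 0 ≤ K := by rw [hKe]; positivity
  have hone := one_varX M D
  rw [← hKe] at hone
  obtain ⟨a0, ha0⟩ := hex
  obtain ⟨i, hi⟩ : ∃ i, v a0 i ≠ 0 := by
    by_contra hcon
    push Not at hcon
    exact hv a0 (funext hcon)
  set Q : ℝ := (Fintype.card L : ℝ) with hQ
  have hQ1 : 1 ≤ Q := by
    rw [hQ]; exact_mod_cast Fintype.card_pos
  have hs1 : 1 ≤ Real.sqrt Q := Real.one_le_sqrt.2 hQ1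
  have hsq : Real.sqrt Q * Real.sqrt Q = Q := Real.mul_self_sqrt (by linarith)
  set Ai : Finset I := univ.filter (fun a => v a i ≠ 0) with hAi
  set gen : (Fin k → L) → Prop := fun x => ∀ a ∈ Ai, ∀ b ∈ Ai, a ≠ b →
    lf (v a) x / algebraMap F L (v a i) ≠ lf (v b) x / algebraMap F L (v b i) with hgen
  have hinner : ∀ x : Fin k → L,
      ‖∑ y : L, ψ (∏ a, (lf (v a) (x + (Pi.single i y : Fin k → L))) ^ j a)‖ ≤
        K * Real.sqrt Q + if gen x then 0 else Q := by
    intro x
    by_cases hx : gen x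
    · rw [if_pos hx, add_zero]
      have h1 : ∀ y : L, ψ (∏ a, (lf (v a) (x + (Pi.single i y : Fin k → L))) ^ j a) =
          ψ (∏ a ∈ univ.filter (fun a => ¬ v a i ≠ 0), (lf (v a) x) ^ j a) *
            ψ (∏ a ∈ Ai, (lf (v a) x + algebraMap F L (v a i) * y) ^ j a) := by
        intro y
        rw [← map_mul]
        congr 1
        rw [← Finset.prod_filter_mul_prod_filter_not univ (fun a => v a i ≠ 0), mul_comm]
        congr 1
        · refine prod_congr rfl fun a ha => ?_
          rw [mem_filter] at ha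
          rw [lf_add_single, not_not.1 ha.2, map_zero, zero_mul, add_zero]
        · refine prod_congr rfl fun a _ => ?_
          rw [lf_add_single]
      rw [sum_congr rfl (fun y _ => h1 y), ← mul_sum, norm_mul]
      have h2 := hone L ψ hψ I Ai j (fun a => algebraMap F L (v a i)) (fun a => lf (v a) x)
        ((card_le_univ _).trans hD)
        (fun a ha => by
          rw [Ne, map_eq_zero]
          exact (mem_filter.1 ha).2)
        (fun a _ => hj a) (fun a ha b hb hab => hx a ha b hb hab)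
        ⟨a0, mem_filter.2 ⟨mem_univ _, hi⟩, ha0⟩
      calc _ ≤ 1 * (K * Real.sqrt Q) := mul_le_mul (mc_norm_le_one ψ _) h2 (norm_nonneg _) zero_le_one
        _ = K * Real.sqrt Q := one_mul _
    · rw [if_neg hx]
      have h1 : ‖∑ y : L, ψ (∏ a, (lf (v a) (x + (Pi.single i y : Fin k → L))) ^ j a)‖ ≤ Q := by
        refine (norm_sum_le _ _).trans ?_
        calc ∑ y : L, ‖ψ (∏ a, (lf (v a) (x + (Pi.single i y : Fin k → L))) ^ j a)‖
            ≤ ∑ y : L, (1 : ℝ) := sum_le_sum fun y _ => mc_norm_le_one ψ _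
          _ = Q := by simp [hQ]
      have h2 : 0 ≤ K * Real.sqrt Q := by positivity
      linarith
  -- the number of the bad `x`
  have hbad : ((univ.filter (fun x : Fin k → L => ¬ gen x)).card : ℝ) * Q ≤ (D : ℝ) ^ 2 * Q ^ k := by
    have hsub : univ.filter (fun x : Fin k → L => ¬ gen x) ⊆
        (univ.filter (fun p : I × I => p.1 ∈ Ai ∧ p.2 ∈ Ai ∧ p.1 ≠ p.2)).biUnion
          (fun p => univ.filter (fun x : Fin k → L =>
            lf ((v p.1 i)⁻¹ • v p.1 - (v p.2 i)⁻¹ • v p.2) x = 0)) := by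
      intro x hx
      rw [mem_filter] at hx
      have hx2 := hx.2
      simp only [hgen] at hx2
      push Not at hx2
      obtain ⟨a, ha, b, hb, hab, h⟩ := hx2
      rw [mem_biUnion]
      refine ⟨(a, b), mem_filter.2 ⟨mem_univ _, ha, hb, hab⟩, mem_filter.2 ⟨mem_univ _, ?_⟩⟩
      rw [lf_sub, lf_smul, lf_smul, map_inv₀, map_inv₀, sub_eq_zero]
      rw [div_eq_inv_mul, div_eq_inv_mul] at h
      exact h
    have h1 := (card_le_card hsub).trans card_biUnion_le
    have h2 : ∀ p ∈ univ.filter (fun p : I × I => p.1 ∈ Ai ∧ p.2 ∈ Ai ∧ p.1 ≠ p.2),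
        ((univ.filter (fun x : Fin k → L =>
            lf ((v p.1 i)⁻¹ • v p.1 - (v p.2 i)⁻¹ • v p.2) x = 0)).card : ℝ) * Q = Q ^ k := by
      intro p hp
      obtain ⟨-, hp1, hp2, hp12⟩ := mem_filter.1 hp
      have hne : (v p.1 i)⁻¹ • v p.1 - (v p.2 i)⁻¹ • v p.2 ≠ 0 := by
        intro h0
        have hi1 : v p.1 i ≠ 0 := (mem_filter.1 hp1).2
        apply hind p.1 p.2 hp12 (v p.1 i * (v p.2 i)⁻¹)
        rw [mul_smul, ← sub_eq_zero.1 h0, smul_smul, mul_inv_cancel₀ hi1, one_smul]
      have := card_zero (F := F) (L := L) hne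
      rw [mul_comm, hQ]
      exact_mod_cast this
    calc ((univ.filter (fun x : Fin k → L => ¬ gen x)).card : ℝ) * Q
        ≤ (∑ p ∈ univ.filter (fun p : I × I => p.1 ∈ Ai ∧ p.2 ∈ Ai ∧ p.1 ≠ p.2),
          ((univ.filter (fun x : Fin k → L =>
            lf ((v p.1 i)⁻¹ • v p.1 - (v p.2 i)⁻¹ • v p.2) x = 0)).card : ℝ)) * Q := by
          apply mul_le_mul_of_nonneg_right _ (by linarith)
          exact_mod_cast h1
      _ = ∑ p ∈ univ.filter (fun p : I × I => p.1 ∈ Ai ∧ p.2 ∈ Ai ∧ p.1 ≠ p.2), Q ^ k := by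
          rw [sum_mul]
          exact sum_congr rfl h2
      _ = ((univ.filter (fun p : I × I => p.1 ∈ Ai ∧ p.2 ∈ Ai ∧ p.1 ≠ p.2)).card : ℝ) * Q ^ k := by
          rw [sum_const, nsmul_eq_mul]
      _ ≤ (D : ℝ) ^ 2 * Q ^ k := by
          apply mul_le_mul_of_nonneg_right _ (by positivity)
          have h3 := card_le_univ (univ.filter (fun p : I × I => p.1 ∈ Ai ∧ p.2 ∈ Ai ∧ p.1 ≠ p.2))
          rw [Fintype.card_prod] at h3
          have h4 : Fintype.card I * Fintype.card I ≤ D * D := Nat.mul_le_mul hD hD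
          rw [pow_two]
          exact_mod_cast h3.trans h4
  have havg := avg (R := ℂ) i (fun x : Fin k → L => ψ (∏ a, (lf (v a) x) ^ j a))
  have hmain : Q * ‖∑ x : Fin k → L, ψ (∏ a, (lf (v a) x) ^ j a)‖ ≤
      Q ^ k * (K * Real.sqrt Q) + (D : ℝ) ^ 2 * Q ^ k := by
    calc Q * ‖∑ x : Fin k → L, ψ (∏ a, (lf (v a) x) ^ j a)‖
        = ‖(Fintype.card L : ℂ) * ∑ x : Fin k → L, ψ (∏ a, (lf (v a) x) ^ j a)‖ := by
          rw [norm_mul, Complex.norm_natCast, hQ]
      _ = ‖∑ x : Fin k → L, ∑ y : L, ψ (∏ a, (lf (v a) (x + (Pi.single i y : Fin k → L))) ^ j a)‖ := by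
          rw [havg]
      _ ≤ ∑ x : Fin k → L, ‖∑ y : L, ψ (∏ a, (lf (v a) (x + (Pi.single i y : Fin k → L))) ^ j a)‖ :=
          norm_sum_le _ _
      _ ≤ ∑ x : Fin k → L, (K * Real.sqrt Q + if gen x then 0 else Q) :=
          sum_le_sum fun x _ => hinner x
      _ = Q ^ k * (K * Real.sqrt Q) + ((univ.filter (fun x : Fin k → L => ¬ gen x)).card : ℝ) * Q := by
          rw [sum_add_distrib, sum_const, card_univ, Fintype.card_fun, Fintype.card_fin,
            nsmul_eq_mul]
          congr 1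
          · push_cast
            rfl
          · rw [← sum_filter_add_sum_filter_not univ (fun x => gen x)]
            have e1 : ∑ x ∈ univ.filter (fun x : Fin k → L => gen x), (if gen x then 0 else Q) = 0 :=
              sum_eq_zero fun x hx => if_pos (mem_filter.1 hx).2
            have e2 : ∑ x ∈ univ.filter (fun x : Fin k → L => ¬ gen x), (if gen x then 0 else Q) =
                ∑ x ∈ univ.filter (fun x : Fin k → L => ¬ gen x), Q :=
              sum_congr rfl fun x hx => if_neg (mem_filter.1 hx).2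
            rw [e1, e2, zero_add, sum_const, nsmul_eq_mul]
      _ ≤ _ := by linarith
  have hk0 : 0 ≤ Q ^ k := by positivity
  have h5 : Real.sqrt Q * (‖∑ x : Fin k → L, ψ (∏ a, (lf (v a) x) ^ j a)‖ * Real.sqrt Q) ≤
      Real.sqrt Q * ((K + D ^ 2) * Q ^ k) := by
    calc Real.sqrt Q * (‖∑ x : Fin k → L, ψ (∏ a, (lf (v a) x) ^ j a)‖ * Real.sqrt Q)
        = Real.sqrt Q * Real.sqrt Q * ‖∑ x : Fin k → L, ψ (∏ a, (lf (v a) x) ^ j a)‖ := by ring
      _ = Q * ‖∑ x : Fin k → L, ψ (∏ a, (lf (v a) x) ^ j a)‖ := by rw [hsq]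
      _ ≤ Q ^ k * (K * Real.sqrt Q) + (D : ℝ) ^ 2 * Q ^ k := hmain
      _ ≤ Q ^ k * (K * Real.sqrt Q) + (D : ℝ) ^ 2 * Q ^ k * Real.sqrt Q := by
          have : 0 ≤ (D : ℝ) ^ 2 * Q ^ k := by positivity
          nlinarith
      _ = Real.sqrt Q * ((K + D ^ 2) * Q ^ k) := by ring
  exact le_of_mul_le_mul_left h5 (by linarith)

/-- **Equidistribution.** -/
theorem equiX (M D : ℕ) (hM : 0 < M) (K : ℝ) (hKe : K = (KW M D : ℝ) + D ^ 2) (k : ℕ) (F L I : Type) [Field F] [Field L]
    [Fintype L] [Algebra F L] [Fintype I] (ψ : MulChar L ℂ) (hψ : orderOf ψ = M) (hD : Fintype.card I = D)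
    (v : I → Fin k → F) (hv : ∀ a, v a ≠ 0) (hind : ∀ a b, a ≠ b → ∀ c : F, v a ≠ c • v b)
    (z : I → ℂ) (hz : ∀ a, z a ^ M = 1) :
    |(M : ℝ) ^ D * ({x : Fin k → L | ∀ a, ψ (lf (v a) x) = z a}.ncard : ℝ) -
      (Fintype.card L : ℝ) ^ k| ≤
      (D + (M : ℝ) ^ D * K) * ((Fintype.card L : ℝ) ^ k / Real.sqrt (Fintype.card L)) := by
  classical
  have hK : 0 ≤ K := by rw [hKe]; positivity
  have hb := sum_boundX M D _ rfl
  rw [← hKe] at hb
  set Q : ℝ := (Fintype.card L : ℝ) with hQ
  have hQ1 : 1 ≤ Q := by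
    rw [hQ]; exact_mod_cast Fintype.card_pos
  have hs1 : 1 ≤ Real.sqrt Q := Real.one_le_sqrt.2 hQ1
  have hsq : Real.sqrt Q * Real.sqrt Q = Q := Real.mul_self_sqrt (by linarith)
  have hz0 : ∀ a, z a ≠ 0 := by
    intro a h
    have := hz a
    rw [h, zero_pow hM.ne'] at this
    exact zero_ne_one this
  set S : (I → ℕ) → ℂ := fun p => ∑ x : Fin k → L, ψ (∏ a, (lf (v a) x) ^ p a) with hS
  -- expansion
  have hexp : ((M : ℂ) ^ D) * (({x : Fin k → L | ∀ a, ψ (lf (v a) x) = z a}.ncard : ℕ) : ℂ) =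
      ∑ p ∈ Fintype.piFinset (fun _ : I => Icc 1 M), (∏ a, (z a)⁻¹ ^ p a) * S p := by
    have h1 : ∀ x : Fin k → L, ∏ a, ∑ j ∈ Icc 1 M, (ψ (lf (v a) x) * (z a)⁻¹) ^ j =
        if (∀ a, ψ (lf (v a) x) = z a) then (M : ℂ) ^ D else 0 := by
      intro x
      rw [prod_congr rfl (fun a _ => detect ψ hψ hM (hz a) (lf (v a) x))]
      by_cases h : ∀ a, ψ (lf (v a) x) = z a
      · rw [if_pos h, prod_congr rfl (fun a _ => if_pos (h a)), prod_const, card_univ, hD]
      · rw [if_neg h]
        push Not at h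
        obtain ⟨a, ha⟩ := h
        exact prod_eq_zero (mem_univ a) (if_neg ha)
    have h2 : (M : ℂ) ^ D * (({x : Fin k → L | ∀ a, ψ (lf (v a) x) = z a}.ncard : ℕ) : ℂ) =
        ∑ x : Fin k → L, ∏ a, ∑ j ∈ Icc 1 M, (ψ (lf (v a) x) * (z a)⁻¹) ^ j := by
      rw [sum_congr rfl (fun x _ => h1 x), ← sum_filter, sum_const, nsmul_eq_mul, mul_comm]
      congr 2
      rw [Set.ncard_eq_toFinset_card']
      congr 1
      ext x
      simp
    rw [h2]
    rw [sum_congr rfl (fun x _ => prod_univ_sum (fun _ : I => Icc 1 M)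
      (fun a j => (ψ (lf (v a) x) * (z a)⁻¹) ^ j))]
    rw [sum_comm]
    refine sum_congr rfl fun p _ => ?_
    simp only [hS]
    rw [mul_sum]
    refine sum_congr rfl fun x _ => ?_
    rw [map_prod, ← prod_mul_distrib]
    refine prod_congr rfl fun a _ => ?_
    rw [mul_pow, map_pow, mul_comm]
  -- the main term
  set pM : I → ℕ := fun _ => M with hpM
  have hpMmem : pM ∈ Fintype.piFinset (fun _ : I => Icc 1 M) := by
    rw [Fintype.mem_piFinset]
    intro a
    exact mem_Icc.2 ⟨hM, le_rfl⟩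
  set Z : Finset (Fin k → L) := univ.filter (fun x => ∃ a, lf (v a) x = 0) with hZ
  have hSM : S pM = (((univ \ Z).card : ℕ) : ℂ) := by
    have h1 : ∀ x : Fin k → L, ψ (∏ a, (lf (v a) x) ^ M) = if x ∈ univ \ Z then 1 else 0 := by
      intro x
      by_cases hx : ∃ a, lf (v a) x = 0
      · rw [if_neg (by rw [mem_sdiff, hZ, mem_filter]; exact fun h => h.2 ⟨mem_univ _, hx⟩)]
        obtain ⟨a, ha⟩ := hx
        rw [prod_eq_zero (mem_univ a) (by rw [ha, zero_pow hM.ne'])]
        exact MulChar.map_zero ψ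
      · rw [if_pos (by rw [mem_sdiff, hZ, mem_filter]; exact ⟨mem_univ _, fun h => hx h.2⟩)]
        push Not at hx
        have hu : IsUnit (∏ a, lf (v a) x) :=
          isUnit_iff_ne_zero.2 (prod_ne_zero_iff.2 fun a _ => hx a)
        rw [prod_pow, map_pow, ← MulChar.pow_apply' ψ hM.ne', ← hψ, pow_orderOf_eq_one,
          MulChar.one_apply hu]
    simp only [hS, hpM]
    rw [sum_congr rfl (fun x _ => h1 x), ← sum_filter, sum_const, nsmul_eq_mul, mul_one]
    congr 2
    ext x
    simp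
  have hZcard : (Z.card : ℝ) * Q ≤ D * Q ^ k := by
    have hsub : Z ⊆ univ.biUnion (fun a : I => univ.filter (fun x : Fin k → L => lf (v a) x = 0)) := by
      intro x hx
      obtain ⟨-, a, ha⟩ := mem_filter.1 hx
      exact mem_biUnion.2 ⟨a, mem_univ _, mem_filter.2 ⟨mem_univ _, ha⟩⟩
    have h1 := (card_le_card hsub).trans card_biUnion_le
    calc (Z.card : ℝ) * Q ≤ (∑ a : I, ((univ.filter
          (fun x : Fin k → L => lf (v a) x = 0)).card : ℝ)) * Q := by
          apply mul_le_mul_of_nonneg_right _ (by linarith)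
          exact_mod_cast h1
      _ = ∑ a : I, Q ^ k := by
          rw [sum_mul]
          refine sum_congr rfl fun a _ => ?_
          have := card_zero (F := F) (L := L) (hv a)
          rw [mul_comm, hQ]
          exact_mod_cast this
      _ = D * Q ^ k := by rw [sum_const, card_univ, hD, nsmul_eq_mul]
  have hQk : 0 < Q ^ k := by positivity
  have hdiv : Q ^ k / Q ≤ Q ^ k / Real.sqrt Q := by
    apply div_le_div_of_nonneg_left hQk.le (by linarith)
    nlinarith
  have hmainlow : Q ^ k - D * (Q ^ k / Real.sqrt Q) ≤ (((univ \ Z).card : ℕ) : ℝ) := by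
    have h1 : ((univ \ Z).card : ℝ) = Q ^ k - Z.card := by
      have h2 := card_sdiff_add_card_eq_card (subset_univ Z)
      rw [card_univ, Fintype.card_fun, Fintype.card_fin] at h2
      have h3 : (((univ \ Z).card : ℕ) : ℝ) + (Z.card : ℝ) = Q ^ k := by
        rw [hQ]; exact_mod_cast h2
      linarith
    have h2 : (Z.card : ℝ) ≤ D * (Q ^ k / Q) := by
      rw [← mul_div_assoc, le_div_iff₀ (by linarith)]
      exact hZcard
    have h3 : (D : ℝ) * (Q ^ k / Q) ≤ D * (Q ^ k / Real.sqrt Q) :=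
      mul_le_mul_of_nonneg_left hdiv (Nat.cast_nonneg D)
    rw [h1]; linarith
  -- the other terms
  have hrest : ‖∑ p ∈ (Fintype.piFinset (fun _ : I => Icc 1 M)).erase pM,
      (∏ a, (z a)⁻¹ ^ p a) * S p‖ ≤ (M : ℝ) ^ D * (K * (Q ^ k / Real.sqrt Q)) := by
    refine (norm_sum_le _ _).trans ?_
    have h1 : ∀ p ∈ (Fintype.piFinset (fun _ : I => Icc 1 M)).erase pM,
        ‖(∏ a, (z a)⁻¹ ^ p a) * S p‖ ≤ K * (Q ^ k / Real.sqrt Q) := by
      intro p hp
      obtain ⟨hp1, hp2⟩ := mem_erase.1 hp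
      rw [Fintype.mem_piFinset] at hp2
      have hnz : ‖∏ a, (z a)⁻¹ ^ p a‖ = 1 := by
        rw [norm_prod]
        apply prod_eq_one
        intro a _
        rw [norm_pow, norm_inv, Complex.norm_eq_one_of_pow_eq_one (hz a) hM.ne', inv_one, one_pow]
      rw [norm_mul, hnz, one_mul]
      have hex : ∃ a, ¬ M ∣ p a := by
        by_contra hcon
        push Not at hcon
        apply hp1
        funext a
        have h2 := mem_Icc.1 (hp2 a)
        exact le_antisymm h2.2 (Nat.le_of_dvd (by omega) (hcon a))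
      have h2 := hb k F L I ψ hψ hD.le v hv hind p (fun a => (mem_Icc.1 (hp2 a)).2) hex
      rw [← mul_div_assoc, le_div_iff₀ (by linarith)]
      exact h2
    calc _ ≤ ∑ p ∈ (Fintype.piFinset (fun _ : I => Icc 1 M)).erase pM,
          K * (Q ^ k / Real.sqrt Q) := sum_le_sum h1
      _ = (((Fintype.piFinset (fun _ : I => Icc 1 M)).erase pM).card : ℝ) *
          (K * (Q ^ k / Real.sqrt Q)) := by rw [sum_const, nsmul_eq_mul]
      _ ≤ (M : ℝ) ^ D * (K * (Q ^ k / Real.sqrt Q)) := by
          apply mul_le_mul_of_nonneg_right _ (by positivity)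
          have h3 := card_le_card (erase_subset pM (Fintype.piFinset (fun _ : I => Icc 1 M)))
          rw [Fintype.card_piFinset, prod_const, card_univ, hD, Nat.card_Icc] at h3
          simp only [Nat.add_sub_cancel] at h3
          exact_mod_cast h3
  have hsplit := add_sum_erase (Fintype.piFinset (fun _ : I => Icc 1 M))
    (fun p => (∏ a, (z a)⁻¹ ^ p a) * S p) hpMmem
  have hone : (∏ a, (z a)⁻¹ ^ pM a) = 1 := by
    apply prod_eq_one
    intro a _
    rw [hpM]
    simp only
    rw [inv_pow, hz a, inv_one]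
  simp only [hone, one_mul] at hsplit
  rw [hSM] at hsplit
  rw [← hexp] at hsplit
  have hnorm : ‖((((M : ℝ) ^ D * ({x : Fin k → L | ∀ a, ψ (lf (v a) x) = z a}.ncard : ℝ) -
      (((univ \ Z).card : ℕ) : ℝ) : ℝ)) : ℂ)‖ ≤ (M : ℝ) ^ D * (K * (Q ^ k / Real.sqrt Q)) := by
    refine le_trans (le_of_eq ?_) hrest
    congr 1
    push_cast
    rw [← hsplit]
    ring
  rw [Complex.norm_real, Real.norm_eq_abs, abs_le] at hnorm
  have hup : (((univ \ Z).card : ℕ) : ℝ) ≤ Q ^ k := by
    have h2 := card_sdiff_add_card_eq_card (subset_univ Z)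
    rw [card_univ, Fintype.card_fun, Fintype.card_fin] at h2
    have h3 : (((univ \ Z).card : ℕ) : ℝ) + (Z.card : ℝ) = Q ^ k := by
      rw [hQ]; exact_mod_cast h2
    have h4 : (0 : ℝ) ≤ Z.card := Nat.cast_nonneg _
    linarith
  have hnn : 0 ≤ Q ^ k / Real.sqrt Q := by positivity
  have hDn : (0 : ℝ) ≤ D * (Q ^ k / Real.sqrt Q) := mul_nonneg (Nat.cast_nonneg D) hnn
  have e1 : (D + (M : ℝ) ^ D * K) * (Q ^ k / Real.sqrt Q) =
      D * (Q ^ k / Real.sqrt Q) + (M : ℝ) ^ D * (K * (Q ^ k / Real.sqrt Q)) := by ring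
  rw [e1, abs_le]
  constructor
  · linarith [hnorm.1, hmainlow]
  · linarith [hnorm.2]

end Pool.Agent.Helper491_Inf.WX
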